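import Pool.Agent.H77.Z4.Nof

/-!
# The static chains when the target may be static with a large slope

`win2`: at the windows where the target is static and the coordinates of the base are thin or
static, the slope of the target is at least two. `nore_of3`, `nore_ind3`: the static chains from the
two counts; (D2) is not used. Where the last rough coordinate is steeper than the target, the count
with no loss is needed (`hc0`).
-/

set_option autoImplicit false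

namespace Pool.Z4

open MeasureTheory Set Filter Topology
open Pool.Agent.H49.Ent Pool.Agent.H32.Dense Pool.STK Pool.KA Pool.KSAT Pool.K2S Pool.PB
open Pool.GEN Pool.S6C Pool.STAT Pool.CHT Pool.GRW Pool.ONE Pool.STA Pool.PKG Pool.ZFN Pool.TOP
open Pool.LBT (LSys ThrOf)
open Pool.LEV (Law Lv)
open Pool.ALL (RateOf)
open Pool.STR (NumI StaAt ThinAt SteepAt MicW)
open Pool.ZL (AffA aff_rg)
open Pool.ZFI (MevH nore_cnt LF)

variable {n : ℕ} {hn : 2 ≤ n} {S : PCl n} {P : ℝ → ℝ → ℝ} {r : ℝ → ℝ}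
  {P' : ℕ → List (Fin n) × Fin n → ℝ → ℝ → ℝ} {Λ : Finset (Fin n) → Fin n → ℝ → ℝ → ℝ}
  {PB : ℕ → List (Fin n) × Fin n → ℝ → ℝ → ℝ}

/-- The slopes of the two thresholds of a coordinate agree, and the thin ones are rough. -/
theorem rg_ths (H : PkT hn S P r P' Λ PB) (hTop : TopS n) (hF : FZX (n - 1)) :
    ∀ᵐ g : ℝ, ∀ o : Od n, g ∈ Gs P r P' Λ o → ∀ l ≤ n - 1, ThS hn P P' PB o l g →
      StaAt (LL hn P P' o (l + 1)) g ∨ RgUp (LL hn P P' o (l + 1)) g (LL hn P P' o (l + 1) g g)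
        (deriv (fun a => LL hn P P' o (l + 1) a a) g) := by
  filter_upwards [H.dia_all H.pble hTop hF] with g h2 o ho l hl h3
  have g0 : 0 < g := ho.1.1.1
  have g1 : g < 1 := ho.1.1.2.1
  rcases h3 with h3 | h3
  · refine Or.inr ?_
    obtain ⟨d1, d2, d3⟩ := h2 o ho l hl
    have hle := H.leAt H.pble hTop hF ho hl
    have hsl := Pool.NMS.slope_eq (D := fun a => LvT hn PB o l a a)
      (D' := fun a => LvL hn P P' o l a a) d2 d1 d3
      (Pool.NMS.dia_le (H.lawT o l) (H.lawL o l) g0 g1 hle)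
    have h4 := rg_thin d2 d3 hsl h3
    rwa [lvL_eq o hl] at h4
  · refine Or.inl ?_
    rwa [lvL_eq o hl] at h3

/-- **The windows with a static target**: the slope is at least two. -/
theorem win2 (H : PkT hn S P r P' Λ PB) (hTop : TopS n) (hF : FZX (n - 1)) :
    ∀ᵐ g : ℝ, ∀ o : Od n, g ∈ Gs P r P' Λ o → 1 < deriv (fun a => P a a) g → StaAt P g →
      (∀ i < n - 1, ThS hn P P' PB o i g) → 2 ≤ deriv (fun a => P a a) g := by
  have hEv : ∀ Sb del : ℝ, 1 ≤ Sb → 0 < del → EvTC (n - 1) Sb del := fun Sb del h1 h2 =>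
    evTC (n - 1) (by omega) Sb del h1 h2
  filter_upwards [H.mac_of H.pble hTop hF hEv, H.dia_all H.pble hTop hF] with g a5 a8 o ho hS hsta
    hB
  have hLT : Law (PT hn PB o) := (H.nk hTop hF).hPT o
  have g0 : 0 < g := ho.1.1.1
  have g1 : g < 1 := ho.1.1.2.1
  obtain ⟨d1, d2, d3⟩ := a8 o ho (n - 1) le_rfl
  have eL : LvL hn P P' o (n - 1) = P := by
    funext a w
    exact LvL_top o a w
  have hle := H.leAt H.pble hTop hF ho (le_refl (n - 1))
  have hsl := Pool.NMS.slope_eq (D := fun a => LvT hn PB o (n - 1) a a)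
    (D' := fun a => LvL hn P P' o (n - 1) a a) d2 d1 d3
    (Pool.NMS.dia_le (H.lawT o (n - 1)) (H.lawL o (n - 1)) g0 g1 hle)
  rw [LvT_top] at d2 d3 hsl
  rw [eL] at d1 d3 hsl
  rcases a5 o ho hB with h1 | h1
  · exact absurd (slope_ts d2 d1 d3 hsl h1 hsta) (not_le.2 hS)
  · exact hsl ▸ slope_st hLT g0 g1 d2 h1

/-- The first coordinate which is not thin or static is steep, with a slope larger than two. -/
theorem ths_of (H : PkT hn S P r P' Λ PB) (hTop : TopS n) (hF : FZX (n - 1)) :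
    ∀ᵐ g : ℝ, ∀ o : Od n, g ∈ Gs P r P' Λ o → (∀ i, 1 ≤ i → i < n - 1 →
      (∀ l < i, ThS hn P P' PB o l g) → 2 < deriv (fun a => LL hn P P' o (i + 1) a a) g →
      SteepAt 2 (LvT hn PB o i) g → StaAt (LL hn P P' o (i + 1)) g) →
      ∀ i < n - 1, ThS hn P P' PB o i g := by
  have hEv : ∀ Sb del : ℝ, 1 ≤ Sb → 0 < del → EvTC (n - 1) Sb del := fun Sb del h1 h2 =>
    evTC (n - 1) (by omega) Sb del h1 h2
  filter_upwards [H.thin_sta H.pble hTop hF hEv, ae_all_iff.2 (sta_zero H hTop hF)]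
    with g a9 a10 o ho h1 i hi
  refine a9 o ho (n - 2) (by omega) (fun j hj => ?_) i (by omega)
  by_cases hs : deriv (fun a => LvL hn P P' o j a a) g ≤ 2
  · exact Or.inl hs
  · refine Or.inr fun b2 b3 => Or.inr ?_
    rw [lvL_eq o (by omega)] at hs ⊢
    rcases Nat.eq_zero_or_pos j with h0 | h0
    · rw [h0]
      exact a10 o ho
    · exact h1 j h0 (by omega) b2 (not_le.1 hs) b3

/-- **The static chains** from two counts; (D2) is not used. -/
theorem nore_of3 (H : PkT hn S P r P' Λ PB) (hTop : TopS n) (hF : FZX (n - 1)) {h : ℝ}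
    (hh : 0 ≤ h) (hM : MicRt P r h)
    (hbig : ∀ o : Od n, ∀ᵐ g : ℝ, RwH H hTop hF h o g → 1 < deriv (fun a => P a a) g →
      StaAt P g → ∀ i, 1 ≤ i → i < n - 1 → (∀ l < i, ThS hn P P' PB o l g) →
      2 < deriv (fun a => LL hn P P' o (i + 1) a a) g →
      SteepAt 2 (LvT hn PB o i) g → StaAt (LL hn P P' o (i + 1)) g)
    (hc : ∀ (o : Od n) (l : ℕ), ∀ᵐ g : ℝ, RwH H hTop hF h o g → 1 < deriv (fun a => P a a) g →
      Cfg hn P P' o l g → deriv (fun a => P a a) g * (1 - deriv r (P g g)) ≤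
        h * deriv (fun a => LL hn P P' o (l + 1) a a) g)
    (hc0 : ∀ (o : Od n) (l : ℕ), ∀ᵐ g : ℝ, RwH H hTop hF h o g → 2 ≤ deriv (fun a => P a a) g →
      (∀ i < n - 1, ThS hn P P' PB o i g) → Cfg hn P P' o l g →
      deriv (fun a => P a a) g < deriv (fun a => LL hn P P' o (l + 1) a a) g → False) :
    NoRE H hTop hF h := by
  -- the windows
  have hw : ∀ o : Od n, ∀ᵐ g : ℝ, RwH H hTop hF h o g → 1 < deriv (fun a => P a a) g →
      2 ≤ deriv (fun a => P a a) g ∧ ∀ i < n - 1, ThS hn P P' PB o i g := by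
    intro o
    filter_upwards [sta_mic H hTop hF hM o, hbig o, ths_of H hTop hF, win2 H hTop hF]
      with g a1 a2 a3 a4 R hS
    have b1 := a3 o R.rwd.mem (a2 R hS (a1 R))
    exact ⟨a4 o R.rwd.mem hS (a1 R) b1, b1⟩
  refine nore_of H hTop hF (fun o => ?_) (fun o => ?_) fun o l => ?_
  · filter_upwards [sta_mic H hTop hF hM o] with g h1 R _
    exact h1 R
  · filter_upwards [hw o, rg_ths H hTop hF] with g h1 h3 R hS l hl1 hl _
    exact h3 o R.rwd.mem l hl.le ((h1 R hS).2 l hl)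
  · filter_upwards [hw o, hc o l, hc0 o l] with g h1 h2 h3 R hS hC
    have h5 := h2 R hS hC
    have h7 := R.defi
    have h8 : deriv (fun a => P a a) g * h < deriv (fun a => P a a) g * (1 - deriv r (P g g)) :=
      mul_lt_mul_of_pos_left (by linarith) (by linarith)
    have h9 : deriv (fun a => P a a) g < deriv (fun a => LL hn P P' o (l + 1) a a) g := by
      by_contra hcon
      push Not at hcon
      have h10 := mul_le_mul_of_nonneg_left hcon hh
      linarith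
    obtain ⟨b1, b2⟩ := h1 R hS
    exact h3 R b1 b2 hC h9

/-- The count from the data on the events. -/
theorem cnt_mev (H : PkT hn S P r P' Λ PB) (hTop : TopS n) (hF1 : FZX 1) (hF : FZX (n - 1))
    (hW : ∀ k, 2 ≤ k → k < n → Pool.TOP.RW k) {h : ℝ} (hh : 0 ≤ h) (hh1 : h < 1)
    (hRg : ∀ (al : ℝ) (g₀ : ℝ → ℝ), 0 < al → (∀ ε : ℝ, 0 < ε → 0 < g₀ ε) →
      ∀ (N : ℚ → ℚ → ℝ) (S' : PCl n) (P : ℝ → ℝ → ℝ) (r : ℝ → ℝ),
      ClX (fun _ => 0) (fun _ => 1) al g₀ 2 0 N S' →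
      ThrOf (tgs (lst hn)) S' (fun _ => P) → RateOf S' (lst hn) r → ∀ E, RgFull P r h E)
    (hMev : ∀ (o : Od n) (l : ℕ), 1 ≤ l → l < n - 1 →
      ∃ C : ℝ, 1 ≤ C ∧ MevH hn S P r P' Λ o l C) (o : Od n) (l : ℕ) :
    ∀ᵐ g : ℝ, g ∈ Gs P r P' Λ o → Cfg hn P P' o l g →
      deriv (fun a => P a a) g * (1 - deriv r (P g g)) ≤
        h * deriv (fun a => LL hn P P' o (l + 1) a a) g := by
  by_cases hl : 1 ≤ l ∧ l < n - 1
  swap
  · exact Eventually.of_forall fun g _ hC => absurd ⟨hC.l1, hC.ln⟩ hl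
  obtain ⟨hl1, hl2⟩ := hl
  obtain ⟨al, g₀, s, d, e, K₀, N, hal, hg₀, hC⟩ := H.toPk.cl
  obtain ⟨C, hC1, hMe⟩ := hMev o l hl1 hl2
  have hg₀' : ∀ ε : ℝ, 0 < ε → 0 < (fun x => min (g₀ (x / 2)) 1) ε := fun ε hε =>
    lt_min (hg₀ _ (by linarith)) one_pos
  have hcnt := nore_cnt H.toPk hTop hF1 hF hW hal hg₀ hC hl1 hl2 hC1 hMe hh hh1
    fun w₁ _ S' P r h1 h2 h3 E => hRg al _ hal hg₀' _ S' P r h1 h2 h3 E
  filter_upwards [hcnt] with g h1 hg hCf
  have g0 : 0 < g := hg.1.1.1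
  have g1 : g < 1 := hg.1.1.2.1
  obtain ⟨σ, hσ⟩ : ∃ σ, σ = deriv (fun a => LL hn P P' o (l + 1) a a) g := ⟨_, rfl⟩
  have hσ1 : 1 < σ := by rw [hσ]; exact hCf.one
  refine h1 hg ⟨fun i => if i = l then 1 else deriv (fun v => LF hn P P' o i v v) g,
    fun i => if i = l then σ - 1 else 0, ⟨fun i hi hin => ?_, ?_, ?_, fun i hi hin => ?_⟩, ?_⟩
  · by_cases h2 : i = l
    · rw [if_pos h2, if_pos h2, h2]
      refine aff_rg (ll_law H.toPk o hl2.le) g0 g1 (hCf.lt l hl2.le) ?_ ?_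
      · rw [hσ]
        exact hCf.rg
      · rw [hσ]
        exact STR.dgLo_of (hCf.dif l hl2.le)
    · rw [if_neg h2, if_neg h2]
      exact aff_sta (ll_law H.toPk o (by omega)) g0 g1 (hCf.dif i (by omega))
        (hCf.sta i (by omega) (by omega))
  · simp
  · simp only [if_true]
    linarith
  · simp only [if_true]
    rw [if_neg (by omega)]
    linarith
  · simp

/-- **The static chains of a package**, inside the induction; (D2) is not used. -/
theorem nore_ind3 {η : ℝ → ℝ} (hMic : LocE n η MicRt) (hi : ∀ k, 2 ≤ k → k < n → Ext0 k)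
    (hn : 2 ≤ n) (hZ : ∀ k, 1 ≤ k → k < n → FZX k) (hF : FZX (n - 1)) (hTop : TopS n)
    {D : ℝ} (hD : 0 < D) (hD1 : D ≤ 1) (hη : 0 < η D) (hη1 : η D ≤ 1)
    (hE : Ext n ((1 + η D) * D)) (H : PkT hn S P r P' Λ PB)
    (hbig : ∀ o : Od n, ∀ᵐ g : ℝ, RwH H hTop hF ((1 - η D) * D) o g →
      1 < deriv (fun a => P a a) g →
      StaAt P g → ∀ i, 1 ≤ i → i < n - 1 → (∀ l < i, ThS hn P P' PB o l g) →
      2 < deriv (fun a => LL hn P P' o (i + 1) a a) g →
      SteepAt 2 (LvT hn PB o i) g → StaAt (LL hn P P' o (i + 1)) g)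
    (hc0 : ∀ (o : Od n) (l : ℕ), ∀ᵐ g : ℝ, RwH H hTop hF ((1 - η D) * D) o g →
      2 ≤ deriv (fun a => P a a) g → (∀ i < n - 1, ThS hn P P' PB o i g) → Cfg hn P P' o l g →
      deriv (fun a => P a a) g < deriv (fun a => LL hn P P' o (l + 1) a a) g → False)
    (hMev : ∀ (o : Od n) (l : ℕ), 1 ≤ l → l < n - 1 →
      ∃ C : ℝ, 1 ≤ C ∧ MevH hn S P r P' Λ o l C) : NoRE H hTop hF ((1 - η D) * D) := by
  have h1 : (1 - η D) * D < 1 := by nlinarith
  have h0 : 0 ≤ (1 - η D) * D := mul_nonneg (by linarith) hD.le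
  refine nore_of3 H hTop hF h0 (mic_pk hMic hn hZ hD hD1 hE H.toPk) hbig
    (fun o l => ?_) hc0
  filter_upwards [cnt_mev H hTop (hZ 1 le_rfl (by omega)) hF
    (rw_all hZ fun k k1 k2 => rowN_of_ext (hi k k1 k2)) h0 h1
    (fun al g₀ hal hg₀ N S' P r h2 h3 h4 E =>
      rgFull_locRt hMic hn hZ hD hD1 hη1 hE hal hg₀ h2 h3 h4 E) hMev o l] with g k1 R _ hC
  exact k1 R.rwd.mem hC

end Pool.Z4
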