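import Pool.Agent.H77.Z3.Zgq
import Pool.Agent.H80.ZC.Slp
import Pool.Agent.H80.ZC.Zhc
import Pool.Agent.H80.ZC.Zfg
import Pool.Agent.H39.GEN.Psc

/-!
# The direction and the nodes on an event, and the requirements of the zooms

`dcb`: the direction: `1` at the kept coordinate, `0` before it, the given numbers after it.
`Rq`, `MDat`: a request (a node, the loss of the steps, the degree and the loss of the relations, the
loss of the sides) and the data of the nodes. `NdS`, `NdK`: the node on an event, with the shear, and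
its closed codes. `MBs`: the data on an event. `MEvt`, `MEvC`: these data on large parts of all
events of a class, without and with the codes.
`GdA`, `GdB`: the properties of the coordinates of the zooms which follow from the data, in the two
cases. `zreq_of`: one of the two cases holds for arbitrarily long families, for all these
properties.
-/

set_option autoImplicit false

namespace Pool.Z4

open Finset Real MvPolynomial
open Pool.Agent.H49.Ent Pool.Agent.H32.Dense Pool.STK Pool.KA Pool.KSAT Pool.K2S Pool.PB Pool.S6C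
open Pool.GEN Pool.CHT Pool.SHR Pool.ZCL Pool.ZLC Pool.Z3 Pool.PKG Pool.ONE Pool.ZCO Pool.ZHC
open Pool.PSI (Cod)

variable {m n J : ℕ}

open Classical in
/-- **The direction**: `1` at the coordinate `c l`, `0` at the coordinates before it. -/
noncomputable def dcb (c : ℕ → Fin m) (l : ℕ) (b : Fin m → ℝ) (k : Fin m) : ℝ :=
  if k = c l then 1 else if ∃ j < l, c j = k then 0 else b k

/-- **A request**: the node `(a, w)`, the loss of the steps, the degree and the loss of the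
relations, the loss of the sides. -/
structure Rq where
  /-- the radius -/
  a : ℝ
  /-- the window -/
  w : ℝ
  /-- the loss of the steps -/
  lam : ℝ
  /-- the degree of the relations -/
  Dr : ℕ
  /-- the loss -/
  η : ℝ
  /-- the loss of the sides -/
  σ : ℝ

/-- **The data of the nodes.** -/
structure MDat where
  /-- the degree of the labels -/
  D : ℝ → ℝ → ℕ
  /-- the degree and the precision of the codes -/
  k : ℝ → ℝ → ℕ
  /-- the losses of the sides -/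
  d : Rq → ℕ → ℝ
  /-- the exponent of the events of the relations -/
  ψ : Rq → ℝ
  /-- the gradients of the list -/
  e : ℝ
  /-- the gradients of the target -/
  E : ℝ
  /-- the room -/
  ϱ : ℝ

/-- The sides of the labels of a node. -/
noncomputable def MDat.g (M : MDat) (β : ℕ → ℝ → ℝ → ℝ) (q : Rq) (J : ℕ) (i : ℕ) : ℕ :=
  ⌊(β i q.a q.w - M.d q i) * (J : ℝ)⌋₊

/-- **The node on an event**, with the shear. -/
structure NdS (ν : ℝ) (M : MDat) (c : ℕ → Fin m) (r l : ℕ) (β : ℕ → ℝ → ℝ → ℝ) (q : Rq)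
    (F : Fam m J) (B : F.Ω → Prop) {V : Type} (z : PtT F → V) (cb : V → Fin m → ℝ)
    (T : PtT F → ℕ → MvPolynomial (Option (Fin m)) ℝ)
    (TH : LnT F → ℕ → MvPolynomial (Option (Fin m)) ℝ) : Prop where
  nod : Nod F c r (M.D q.a q.w) q.Dr ⌊q.a * J⌋₊ ⌊q.w * J⌋₊ ⌊M.e * J⌋₊ ⌊(M.E + q.σ) * J⌋₊
    (M.g β q J) ⌊q.η * J⌋₊ ⌊(1 - M.ϱ) * J⌋₊ ⌊(1 - (M.E + M.ϱ)) * J⌋₊
    (Real.exp (-(ν * M.ψ q * J))) B T TH
  shr : ∀ ω, B ω → ∀ i, l < i → i < r + 1 → ShY F c l ⌊q.a * J⌋₊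
    ⌊(β l q.a q.w + q.lam) * J⌋₊ (M.g β q J) T (fun y => dcb c l (cb (z y))) ⌊q.η * J⌋₊ i ω

/-- **The closed codes of the node**; at the window `w₁` the code is a function of `z'`. -/
structure NdK (M : MDat) (w₁ : ℝ) (c : ℕ → Fin m) (r : ℕ) (β : ℕ → ℝ → ℝ → ℝ) (q : Rq)
    (F : Fam m J) (B : F.Ω → Prop) {V : Type} (z : PtT F → V) (z' : LnT F → V)
    (T : PtT F → ℕ → MvPolynomial (Option (Fin m)) ℝ) : Prop where
  own : ∃ (V2 : Type) (z2 : PtT F → V2) (z2' : LnT F → V2)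
    (P2 : V2 → ℕ → MvPolynomial (Option (Fin m)) ℝ),
    Cod F c (r + 1) (M.k q.a q.w) (M.k q.a q.w) ⌊q.a * J⌋₊ ⌊q.a * J⌋₊ (M.g β q J) B T z2 z2' P2
  one : q.a = w₁ → ∃ P1 : V → ℕ → MvPolynomial (Option (Fin m)) ℝ,
    Cod F c (r + 1) (M.k q.a q.w) (M.k q.a q.w) ⌊q.a * J⌋₊ ⌊w₁ * J⌋₊ (M.g β q J) B T z z' P1

/-- **The data on an event.** -/
structure MBs (ν : ℝ) (M : MDat) (w₁ : ℝ) (c : ℕ → Fin m) (r l : ℕ) (β : ℕ → ℝ → ℝ → ℝ)
    {Vd : Rq → Prop} (L : List {q : Rq // Vd q}) (h : ℝ) (J : ℕ) (F : Fam m J) (B : F.Ω → Prop)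
    (V : Type) (z : PtT F → V) (z' : LnT F → V) (cb : V → Fin m → ℝ) : Prop where
  cls : ∀ ω, B ω → z (ptr F J ω) = z' (slam F ⌊w₁ * J⌋₊ ω)
  sml : ∀ ω, B ω → ∀ i, l < i → i < r → |cb (z' (slam F ⌊w₁ * J⌋₊ ω)) (c i)| ≤ 2 ^ ⌊h * J⌋₊
  nod : ∀ q ∈ L, ∃ (T : PtT F → ℕ → MvPolynomial (Option (Fin m)) ℝ)
    (TH : LnT F → ℕ → MvPolynomial (Option (Fin m)) ℝ),
    NdS ν M c r l β q.1 F B z cb T TH ∧ NdK M w₁ c r β q.1 F B z z' T

/-- **The data on large parts of all events**, without the codes. -/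
def MEvt (S : PCl m) (M : MDat) (w₁ E₁ : ℝ) (c : ℕ → Fin m) (r l : ℕ) (β : ℕ → ℝ → ℝ → ℝ)
    (Vd : Rq → Prop) : Prop :=
  ∀ (L : List {q : Rq // Vd q}) (h : ℝ), 0 < h → ∃ K : ℝ, 0 < K ∧ Bas S (fun J F A =>
    ∃ B : F.Ω → Prop, Sub B A ∧ Pe F.p A ≤ K * Pe F.p B ∧
    ∃ (V : Type) (z : PtT F → V) (z' : LnT F → V) (cb : V → Fin m → ℝ),
      (∀ ω, B ω → z (ptr F J ω) = z' (slam F ⌊w₁ * J⌋₊ ω)) ∧
      (∀ ω, B ω → |cb (z' (slam F ⌊w₁ * J⌋₊ ω)) (c r)| ≤ 2 ^ ⌊(E₁ + h) * J⌋₊) ∧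
      (∀ ω, B ω → ∀ i, l < i → i < r → |cb (z' (slam F ⌊w₁ * J⌋₊ ω)) (c i)| ≤ 2 ^ ⌊h * J⌋₊) ∧
      ∀ q ∈ L, ∃ (T : PtT F → ℕ → MvPolynomial (Option (Fin m)) ℝ)
        (TH : LnT F → ℕ → MvPolynomial (Option (Fin m)) ℝ),
        NdS 1 M c r l β q.1 F B z cb T TH)

/-- **The data on large parts of all events**, with the codes. -/
def MEvC (S : PCl m) (M : MDat) (w₁ E₁ : ℝ) (c : ℕ → Fin m) (r l : ℕ) (β : ℕ → ℝ → ℝ → ℝ)
    (Vd : Rq → Prop) : Prop :=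
  ∀ (L : List {q : Rq // Vd q}) (h : ℝ), 0 < h → ∃ K : ℝ, 0 < K ∧ Bas S (fun J F A =>
    ∃ B : F.Ω → Prop, Sub B A ∧ Pe F.p A ≤ K * Pe F.p B ∧
    ∃ (V : Type) (z : PtT F → V) (z' : LnT F → V) (cb : V → Fin m → ℝ),
      (∀ ω, B ω → z (ptr F J ω) = z' (slam F ⌊w₁ * J⌋₊ ω)) ∧
      (∀ ω, B ω → |cb (z' (slam F ⌊w₁ * J⌋₊ ω)) (c r)| ≤ 2 ^ ⌊(E₁ + h) * J⌋₊) ∧
      MBs 1 M w₁ c r l β L h J F B V z z' cb)

/-! ### Subevents -/

section

variable {M : MDat} {w₁ : ℝ} {c : ℕ → Fin m} {r l : ℕ} {β : ℕ → ℝ → ℝ → ℝ} {q : Rq}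
  {F : Fam m J} {B B' : F.Ω → Prop} {V : Type} {z : PtT F → V} {z' : LnT F → V}
  {cb : V → Fin m → ℝ} {T : PtT F → ℕ → MvPolynomial (Option (Fin m)) ℝ}
  {TH : LnT F → ℕ → MvPolynomial (Option (Fin m)) ℝ}

theorem NdS.sub (N : NdS 1 M c r l β q F B z cb T TH) (hB : Sub B' B) {τ : ℝ}
    (hP : Real.exp (-(τ * J)) * Pe F.p B ≤ Pe F.p B') (hτ : τ ≤ M.ψ q / 2) :
    NdS (1 / 2) M c r l β q F B' z cb T TH := by
  refine ⟨N.nod.sub hB hP (Real.exp_pos _).le ?_, fun ω hω => N.shr ω (hB ω hω)⟩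
  rw [← Real.exp_add]
  refine Real.exp_le_exp.2 ?_
  have := mul_le_mul_of_nonneg_right hτ (Nat.cast_nonneg (α := ℝ) J)
  linarith

theorem NdK.sub (N : NdK M w₁ c r β q F B z z' T) (hB : Sub B' B) :
    NdK M w₁ c r β q F B' z z' T := by
  refine ⟨?_, fun h => ?_⟩
  · obtain ⟨V2, z2, z2', P2, h1⟩ := N.own
    exact ⟨V2, z2, z2', P2, h1.sub hB⟩
  · obtain ⟨P1, h1⟩ := N.one h
    exact ⟨P1, h1.sub hB⟩

variable {Vd : Rq → Prop} {L L' : List {q : Rq // Vd q}} {h h' : ℝ} {ν : ℝ}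

theorem MBs.sub (H : MBs 1 M w₁ c r l β L h J F B V z z' cb) (hB : Sub B' B) {τ : ℝ}
    (hP : Real.exp (-(τ * J)) * Pe F.p B ≤ Pe F.p B') (hτ : ∀ q ∈ L, τ ≤ M.ψ q.1 / 2) :
    MBs (1 / 2) M w₁ c r l β L h J F B' V z z' cb :=
  ⟨fun ω hω => H.cls ω (hB ω hω), fun ω hω => H.sml ω (hB ω hω), fun q hq => by
    obtain ⟨T, TH, h1, h2⟩ := H.nod q hq
    exact ⟨T, TH, h1.sub hB hP (hτ q hq), h2.sub hB⟩⟩

theorem MBs.anti (H : MBs ν M w₁ c r l β L' h J F B V z z' cb) (hL : L ⊆ L') :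
    MBs ν M w₁ c r l β L h J F B V z z' cb :=
  ⟨H.cls, H.sml, fun q hq => H.nod q (hL hq)⟩

theorem MBs.mono_h (H : MBs ν M w₁ c r l β L h J F B V z z' cb) (hh : h ≤ h') :
    MBs ν M w₁ c r l β L h' J F B V z z' cb :=
  ⟨H.cls, fun ω hω i h1 h2 => (H.sml ω hω i h1 h2).trans (pow_le_pow_right₀ one_le_two
    (Nat.floor_le_floor (mul_le_mul_of_nonneg_right hh (Nat.cast_nonneg J)))), H.nod⟩

end

/-- A lower bound for finitely many positive numbers. -/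
theorem lst_pos {α : Type} {f : α → ℝ} (hf : ∀ a, 0 < f a) (L : List α) :
    ∃ x : ℝ, 0 < x ∧ ∀ a ∈ L, x ≤ f a := by
  induction L with
  | nil => exact ⟨1, one_pos, fun a ha => absurd ha List.not_mem_nil⟩
  | cons b L ih =>
    obtain ⟨x, hx, h1⟩ := ih
    refine ⟨min x (f b), lt_min hx (hf b), fun a ha => ?_⟩
    rcases List.mem_cons.1 ha with rfl | ha
    · exact min_le_right _ _
    · exact (min_le_left _ _).trans (h1 a ha)

/-! ### The direction -/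

section

variable {c : ℕ → Fin m} {l : ℕ}

theorem dcb_u (b : Fin m → ℝ) : dcb c l b (c l) = 1 := if_pos rfl

theorem dcb_lt {r : ℕ} (hc : Set.InjOn c (Set.Iio (r + 1))) (hl : l < r + 1) (b : Fin m → ℝ)
    {j : ℕ} (hj : j < l) : dcb c l b (c j) = 0 := by
  unfold dcb
  rw [if_neg (fun h => by
    have := hc (show j < r + 1 by omega) hl h
    omega), if_pos ⟨j, hj, rfl⟩]

theorem dcb_gt {r : ℕ} (hc : Set.InjOn c (Set.Iio (r + 1))) (b : Fin m → ℝ) {i : ℕ} (hi : l < i)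
    (hi2 : i < r + 1) : dcb c l b (c i) = b (c i) := by
  unfold dcb
  rw [if_neg (fun h => by
    have := hc hi2 (show l < r + 1 by omega) h
    omega), if_neg]
  rintro ⟨j, hj, h⟩
  have := hc (show j < r + 1 by omega) hi2 h
  omega

open Classical in
/-- The sheared coordinates. -/
noncomputable def Lts (c : ℕ → Fin m) (l s : ℕ) : Finset (Fin m) :=
  univ.filter fun k => ∃ i, l < i ∧ i < s ∧ c i = k

theorem mem_Lts {s : ℕ} {k : Fin m} : k ∈ Lts c l s ↔ ∃ i, l < i ∧ i < s ∧ c i = k := by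
  unfold Lts
  simp

theorem Lts_le {r s : ℕ} (hc : Set.InjOn c (Set.Iio (r + 1))) (_hl : l < r + 1) (hs : s ≤ r + 1)
    {j : ℕ} (hj : j ≤ l) : c j ∉ Lts c l s := by
  intro h
  obtain ⟨i, h1, h2, h3⟩ := mem_Lts.1 h
  have := hc (show i < r + 1 by omega) (show j < r + 1 by omega) h3
  omega

theorem Lts_top {r : ℕ} (hc : Set.InjOn c (Set.Iio (r + 1))) : c r ∉ Lts c l r := by
  intro h
  obtain ⟨i, h1, h2, h3⟩ := mem_Lts.1 h
  have := hc (show i < r + 1 by omega) (show r < r + 1 by omega) h3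
  omega

/-- The direction in case A. -/
theorem dirA_eq {r : ℕ} (hc : Set.InjOn c (Set.Iio (r + 1))) (hcov : ∀ k, ∃ i < r + 1, c i = k)
    (hl : l < r + 1) {V : Type} {cb : V → Fin m → ℝ} {M : Fin m → ℕ} {v : V}
    (hb : ∀ i, l < i → i < r + 1 → |cb v (c i)| ≤ 2 ^ M (c i)) :
    dirA cb (c l) (Lts c l (r + 1)) M v = dcb c l (cb v) := by
  funext k
  obtain ⟨i, hi, rfl⟩ := hcov k
  rcases Nat.lt_trichotomy i l with h1 | h1 | h1
  · rw [dcb_lt hc hl _ h1]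
    unfold dirA
    rw [if_neg (fun h => by
      have := hc hi hl h
      omega), if_neg (Lts_le hc hl le_rfl h1.le)]
  · rw [h1, dcb_u]
    exact if_pos rfl
  · rw [dcb_gt hc _ h1 hi]
    unfold dirA
    rw [if_neg (fun h => by
      have := hc hi hl h
      omega), if_pos (mem_Lts.2 ⟨i, h1, hi, rfl⟩), clp_of (hb i h1 hi)]

/-- The direction in case B. -/
theorem dirB_eq {r : ℕ} (hc : Set.InjOn c (Set.Iio (r + 1))) (hcov : ∀ k, ∃ i < r + 1, c i = k)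
    (hl : l < r) {V : Type} {cb : V → Fin m → ℝ} {M : Fin m → ℕ} {v : V}
    (hb : ∀ i, l < i → i < r → |cb v (c i)| ≤ 2 ^ M (c i)) :
    dirB cb (c l) (c r) (Lts c l r) M v = dcb c l (cb v) := by
  funext k
  obtain ⟨i, hi, rfl⟩ := hcov k
  have hne : ∀ j, j < r + 1 → i ≠ j → c i ≠ c j := fun j hj h1 h => h1 (hc hi hj h)
  rcases Nat.lt_trichotomy i l with h1 | h1 | h1
  · rw [dcb_lt hc (by omega) _ h1]
    unfold dirB
    rw [if_neg (hne l (by omega) (by omega)), if_neg (hne r (by omega) (by omega)),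
      if_neg (Lts_le hc (by omega) (by omega) h1.le)]
  · rw [h1, dcb_u]
    exact if_pos rfl
  · rw [dcb_gt hc _ h1 hi]
    unfold dirB
    rw [if_neg (hne l (by omega) (by omega))]
    rcases Nat.lt_or_ge i r with h2 | h2
    · rw [if_neg (hne r (by omega) (by omega)), if_pos (mem_Lts.2 ⟨i, h1, h2, rfl⟩),
        clp_of (hb i h1 h2)]
    · have h3 : i = r := by omega
      rw [h3, if_pos rfl]

end

/-! ### The coordinates of the zooms -/

section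

variable (hn : 2 ≤ n) (σ : Equiv.Perm (Fin (n - 1))) {l : ℕ}

theorem cc_injOn : Set.InjOn (cc hn σ) (Set.Iio (n - 1 + 1)) := by
  have h1 : n - 1 + 1 = n := by omega
  rw [h1]
  exact cc_inj hn σ

theorem cc_cov (k : Fin n) : ∃ i < n - 1 + 1, cc hn σ i = k := by
  have h1 : Function.Bijective (fun i : Fin n => cc hn σ i) :=
    Finite.injective_iff_bijective.1 fun a b h => Fin.ext
      (cc_inj' hn σ (by have := a.2; omega) (by have := b.2; omega) h)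
  obtain ⟨i, hi⟩ := h1.2 k
  exact ⟨i, by have := i.2; omega, hi⟩

theorem luA (hl : l < n - 1) : cc hn σ l ∉ Lts (cc hn σ) l (n - 1 + 1) :=
  Lts_le (cc_injOn hn σ) (by omega) le_rfl le_rfl

theorem luN (hl : l < n - 1) : cc hn σ l ≠ lst hn := cc_ne hn σ hl

/-- **The coordinates of the zoom in case A.** -/
noncomputable def CrA (hl : l < n - 1) (h : ℝ) (J : ℕ) {V : Type} (cb : V → Fin n → ℝ) :
    Crd n V :=
  shC cb (cc hn σ l) (Lts (cc hn σ) l (n - 1 + 1)) (luA hn σ hl)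
    (fun k => if k = lst hn then 0 else ⌊h * J⌋₊)

/-- **The coordinates of the zoom in case B.** -/
noncomputable def CrB (hl : l < n - 1) (h : ℝ) (J : ℕ) {V : Type} (cb : V → Fin n → ℝ) :
    Crd n V :=
  swC cb (cc hn σ l) (lst hn) (Lts (cc hn σ) l (n - 1)) (luN hn σ hl) (fun _ => ⌊h * J⌋₊)

theorem crA_crdK (_hl1 : 1 ≤ l) (hl : l < n - 1) (h : ℝ) (J : ℕ) {V : Type} (cb : V → Fin n → ℝ)
    (F : Fam n J) (A : F.Ω → Prop) (z' : LnT F → V) :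
    CrdK (cc hn σ 0) 2 J F A V (CrA hn σ hl h J cb) z' :=
  ⟨shC_bd _ _ _ _ _, fun k x => shC_not (Lts_le (cc_injOn hn σ) (by omega) le_rfl
    (Nat.zero_le l)) k x⟩

theorem crB_crdK (hl1 : 1 ≤ l) (hl : l < n - 1) (h : ℝ) (J : ℕ) {V : Type} (cb : V → Fin n → ℝ)
    (F : Fam n J) (A : F.Ω → Prop) (z' : LnT F → V) :
    CrdK (cc hn σ 0) 2 J F A V (CrB hn σ hl h J cb) z' :=
  ⟨swC_bd _ _ _ _ (Lts_le (cc_injOn hn σ) (by omega) (by omega) le_rfl) _ _,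
    fun k x => swC_not (Lts_le (cc_injOn hn σ) (by omega) (by omega) (Nat.zero_le l))
    (fun h => by
      have := cc_inj' hn σ (by omega) (by omega) h
      omega) (cc_ne hn σ (by omega)) k x⟩

/-- **The requirements in case A** which follow from the data. -/
def GdA (hl : l < n - 1) (M : MDat) (w₁ : ℝ) (β : ℕ → ℝ → ℝ → ℝ) (Vd : Rq → Prop)
    (R : DtP n) : Prop :=
  ∃ (L : List {q : Rq // Vd q}) (h₀ : ℝ), 0 < h₀ ∧ ∃ J₀ : ℕ, ∀ h : ℝ, 0 < h → h ≤ h₀ →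
    ∀ J ≥ J₀, ∀ (F : Fam n J) (A : F.Ω → Prop) (V : Type) (z : PtT F → V) (z' : LnT F → V)
      (cb : V → Fin n → ℝ), (∀ ω, A ω → |cb (z' (slam F ⌊w₁ * J⌋₊ ω)) (lst hn)| ≤ 1) →
      MBs (1 / 2) M w₁ (cc hn σ) (n - 1) l β L h J F A V z z' cb →
      R J F A V (CrA hn σ hl h J cb) z'

/-- **The requirements in case B** which follow from the data. -/
def GdB (hl : l < n - 1) (M : MDat) (w₁ xs : ℝ) (β : ℕ → ℝ → ℝ → ℝ) (Vd : Rq → Prop)
    (R : DtP n) : Prop :=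
  ∃ (L : List {q : Rq // Vd q}) (h₀ : ℝ), 0 < h₀ ∧ ∃ J₀ : ℕ, ∀ h : ℝ, 0 < h → h ≤ h₀ →
    ∀ J ≥ J₀, ∀ (F : Fam n J) (A : F.Ω → Prop) (V : Type) (z : PtT F → V) (z' : LnT F → V)
      (cb : V → Fin n → ℝ), (∀ ω, A ω → 1 ≤ |cb (z' (slam F ⌊w₁ * J⌋₊ ω)) (lst hn)| ∧
        2 ^ ⌊(xs - h) * J⌋₊ ≤ |cb (z' (slam F ⌊w₁ * J⌋₊ ω)) (lst hn)| ∧
        |cb (z' (slam F ⌊w₁ * J⌋₊ ω)) (lst hn)| ≤ 4 * 2 ^ ⌊(xs + h) * J⌋₊) →
      MBs (1 / 2) M w₁ (cc hn σ) (n - 1) l β L h J F A V z z' cb →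
      R J F A V (CrB hn σ hl h J cb) z'

/-- Finitely many requirements in case A. -/
theorem gdA_all {hl : l < n - 1} {M : MDat} {w₁ : ℝ} {β : ℕ → ℝ → ℝ → ℝ} {Vd : Rq → Prop}
    (LR : List {R : DtP n // GdA hn σ hl M w₁ β Vd R}) :
    GdA hn σ hl M w₁ β Vd (fun J F A V C z' => ∀ R ∈ LR, R.1 J F A V C z') := by
  induction LR with
  | nil => exact ⟨[], 1, one_pos, 0, fun _ _ _ _ _ _ _ _ _ _ _ _ _ R hR =>
      absurd hR List.not_mem_nil⟩
  | cons R LR ih =>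
    obtain ⟨L, h₀, hh₀, J₀, h1⟩ := ih
    obtain ⟨L', h₀', hh₀', J₀', h1'⟩ := R.2
    refine ⟨L ++ L', min h₀ h₀', lt_min hh₀ hh₀', max J₀ J₀', ?_⟩
    intro h hh hh' J hJ F A V z z' cb hc hM R' hR'
    rcases List.mem_cons.1 hR' with rfl | hR'
    · exact h1' h hh (hh'.trans (min_le_right _ _)) J ((le_max_right _ _).trans hJ) F A V z z' cb
        hc (hM.anti (List.subset_append_right _ _))
    · exact h1 h hh (hh'.trans (min_le_left _ _)) J ((le_max_left _ _).trans hJ) F A V z z' cb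
        hc (hM.anti (List.subset_append_left _ _)) R' hR'

/-- Finitely many requirements in case B. -/
theorem gdB_all {hl : l < n - 1} {M : MDat} {w₁ xs : ℝ} {β : ℕ → ℝ → ℝ → ℝ} {Vd : Rq → Prop}
    (LR : List {R : DtP n // GdB hn σ hl M w₁ xs β Vd R}) :
    GdB hn σ hl M w₁ xs β Vd (fun J F A V C z' => ∀ R ∈ LR, R.1 J F A V C z') := by
  induction LR with
  | nil => exact ⟨[], 1, one_pos, 0, fun _ _ _ _ _ _ _ _ _ _ _ _ _ R hR =>
      absurd hR List.not_mem_nil⟩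
  | cons R LR ih =>
    obtain ⟨L, h₀, hh₀, J₀, h1⟩ := ih
    obtain ⟨L', h₀', hh₀', J₀', h1'⟩ := R.2
    refine ⟨L ++ L', min h₀ h₀', lt_min hh₀ hh₀', max J₀ J₀', ?_⟩
    intro h hh hh' J hJ F A V z z' cb hc hM R' hR'
    rcases List.mem_cons.1 hR' with rfl | hR'
    · exact h1' h hh (hh'.trans (min_le_right _ _)) J ((le_max_right _ _).trans hJ) F A V z z' cb
        hc (hM.anti (List.subset_append_right _ _))
    · exact h1 h hh (hh'.trans (min_le_left _ _)) J ((le_max_left _ _).trans hJ) F A V z z' cb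
        hc (hM.anti (List.subset_append_left _ _)) R' hR'

/-- **One of the two cases holds for arbitrarily long families**, with all the requirements. -/
theorem zreq_of {S : PCl n} (hne : S.Ne) (hl1 : 1 ≤ l) (hl : l < n - 1) {M : MDat}
    {w₁ E₁ : ℝ} (hE : 0 ≤ E₁) {β : ℕ → ℝ → ℝ → ℝ} {Vd : Rq → Prop} (hψ : ∀ q, 0 < M.ψ q)
    (hM : MEvC S M w₁ E₁ (cc hn σ) (n - 1) l β Vd) :
    ZReq S w₁ (cc hn σ 0) 2 (fun R : {R : DtP n // GdA hn σ hl M w₁ β Vd R} => R.1) ∨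
    ∃ xs : ℝ, 0 ≤ xs ∧ xs ≤ E₁ ∧
      ZReq S w₁ (cc hn σ 0) 2 (fun R : {R : DtP n // GdB hn σ hl M w₁ xs β Vd R} => R.1) := by
  have hcase := zh_case hne hE (w₁ := w₁) (lst hn) (Rq := {q : Rq // Vd q})
    (P := fun L h J F B V z z' cb => MBs 1 M w₁ (cc hn σ) (n - 1) l β L h J F B V z z' cb)
    (P' := fun L h J F B V z z' cb => MBs (1 / 2) M w₁ (cc hn σ) (n - 1) l β L h J F B V z z' cb)
    (fun L h hh => by
      obtain ⟨τ, hτ, h1⟩ := lst_pos (f := fun q : {q : Rq // Vd q} => M.ψ q.1 / 2)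
        (fun q => half_pos (hψ q.1)) L
      exact ⟨τ, hτ, 0, fun J _ F B B' V z z' cb hB hP H => H.sub hB hP h1⟩)
    (fun L L' h J F B V z z' cb hL H => H.anti hL)
    (fun L h h' J F B V z z' cb _ hh H => H.mono_h hh)
    (fun L h hh => by
      obtain ⟨K, hK, hB⟩ := hM L h hh
      refine ⟨K, hK, hB.mono 0 ?_⟩
      rintro J - F A ⟨B, h1, h2, V, z, z', cb, h3, h4, h5⟩
      rw [cc_top] at h4
      exact ⟨B, h1, h2, V, z, z', cb, h3, h4, h5⟩)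
  rcases hcase with hA | ⟨xs, hx0, hx1, hB⟩
  · left
    intro LR τ hτ J₀
    obtain ⟨L, h₀, hh₀, J₁, h1⟩ := gdA_all hn σ LR
    obtain ⟨J, hJ, F, A, hA, V, z, z', cb, hc, h3, h4⟩ := hA L h₀ hh₀ τ hτ (max J₀ J₁)
    exact ⟨J, (le_max_left _ _).trans hJ, F, A, hA, V, CrA hn σ hl h₀ J cb, z, z', hc,
      crA_crdK hn σ hl1 hl _ _ _ _ _ _, h1 h₀ hh₀ le_rfl J ((le_max_right _ _).trans hJ) F A V z
        z' cb h3 h4⟩
  · right
    refine ⟨xs, hx0, hx1, fun LR τ hτ J₀ => ?_⟩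
    obtain ⟨L, h₀, hh₀, J₁, h1⟩ := gdB_all hn σ LR
    obtain ⟨J, hJ, F, A, hA, V, z, z', cb, hc, h3, h4⟩ := hB L h₀ h₀ hh₀ hh₀ τ hτ (max J₀ J₁)
    exact ⟨J, (le_max_left _ _).trans hJ, F, A, hA, V, CrB hn σ hl h₀ J cb, z, z', hc,
      crB_crdK hn σ hl1 hl _ _ _ _ _ _, h1 h₀ hh₀ le_rfl J ((le_max_right _ _).trans hJ) F A V z
        z' cb h3 h4⟩

end

end Pool.Z4
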