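import Pool.Agent.H77.Z4.Mvt

/-!
# The requirements of the zooms from the data

`gdA_nd`, `gdB_nd`: the requirement `NdY` of the exclusion of labels (Phi1). `gdA_ps`, `gdB_ps`: the
requirement `PsR` of (Psi1). `gdA_sl`, `gdB_sl`: the requirement `SlD` of (Phi2).
-/

set_option autoImplicit false

namespace Pool.Z4

open Finset Real MvPolynomial
open Pool.Agent.H49.Ent Pool.Agent.H32.Dense Pool.STK Pool.KA Pool.KSAT Pool.K2S Pool.PB Pool.S6C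
open Pool.GEN Pool.CHT Pool.SHR Pool.ZCL Pool.ZLC Pool.Z3 Pool.PKG Pool.ONE Pool.ZCO Pool.ZHC
open Pool.ZFW (PsR)
open Pool.ZLB (SlD)

variable {n J : ℕ}

/-- The node of a request. -/
noncomputable def MDat.p (M : MDat) (q : Rq) : NdP where
  a := q.a
  w := q.w
  D := M.D q.a q.w
  Dr := q.Dr
  d := M.d q
  e := M.e
  E := M.E + q.σ
  η := q.η
  μ := M.ϱ
  μT := M.E + M.ϱ
  ψ := 1 / 2 * M.ψ q

/-- The numbers of the bound of the inverse. -/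
theorem inv_num {h μ μT : ℝ} (hh : 0 ≤ h) (h1 : h ≤ μ / 8) (hμT : μ ≤ μT)
    (hJ : 8 ≤ μ * J) : ⌊h * J⌋₊ + 2 ≤ ⌊μ / 2 * J⌋₊ ∧ ⌊h * J⌋₊ + 2 ≤ ⌊(μT - μ / 2) * J⌋₊ := by
  have hJr : (0 : ℝ) ≤ J := Nat.cast_nonneg J
  have h2 : ⌊h * J⌋₊ + 2 ≤ ⌊μ / 2 * J⌋₊ := by
    refine Nat.le_floor ?_
    push_cast
    have h3 : ((⌊h * (J : ℝ)⌋₊ : ℕ) : ℝ) ≤ h * J := Nat.floor_le (by positivity)
    have h4 := mul_le_mul_of_nonneg_right h1 hJr
    linarith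
  refine ⟨h2, h2.trans (Nat.floor_le_floor (mul_le_mul_of_nonneg_right (by linarith) hJr))⟩

section

variable (hn : 2 ≤ n) (σ : Equiv.Perm (Fin (n - 1))) {l : ℕ}

theorem ez_ne (hl : l < n - 1) {k : Fin n} (hk : k ≠ lst hn) : ez hn σ l k ≠ cc hn σ l := by
  rw [← ez_lst hn σ hl.le]
  exact fun h => hk (ez_inj hn σ hl.le h)

/-- The direction in case A. -/
theorem crA_dir (hl : l < n - 1) {h : ℝ} {V : Type} {cb : V → Fin n → ℝ} {v : V}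
    (h1 : ∀ i, l < i → i < n - 1 → |cb v (cc hn σ i)| ≤ 2 ^ ⌊h * J⌋₊)
    (h2 : |cb v (lst hn)| ≤ 1) :
    dirA cb (cc hn σ l) (Lts (cc hn σ) l (n - 1 + 1))
      (fun k => if k = lst hn then 0 else ⌊h * J⌋₊) v = dcb (cc hn σ) l (cb v) := by
  refine dirA_eq (cc_injOn hn σ) (cc_cov hn σ) (by omega) fun i h3 h4 => ?_
  rcases Nat.lt_or_ge i (n - 1) with h5 | h5
  · rw [if_neg (cc_ne hn σ h5)]
    exact h1 i h3 h5
  · rw [cc_ge hn σ h5, if_pos rfl, pow_zero]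
    exact h2

/-- The direction in case B. -/
theorem crB_dir (hl : l < n - 1) {h : ℝ} {V : Type} {cb : V → Fin n → ℝ} {v : V}
    (h1 : ∀ i, l < i → i < n - 1 → |cb v (cc hn σ i)| ≤ 2 ^ ⌊h * J⌋₊) :
    dirB cb (cc hn σ l) (lst hn) (Lts (cc hn σ) l (n - 1)) (fun _ => ⌊h * J⌋₊) v =
      dcb (cc hn σ) l (cb v) := by
  have h3 := dirB_eq (cc_injOn hn σ) (cc_cov hn σ) hl (M := fun _ => ⌊h * (J : ℝ)⌋₊) h1
  rwa [cc_top] at h3

/-- **The requirement of (Phi1), case A.** -/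
theorem gdA_nd {hl : l < n - 1} {M : MDat} {w₁ : ℝ} {β : ℕ → ℝ → ℝ → ℝ} {Vd : Rq → Prop}
    (hϱ : 0 < M.ϱ) (hE : 0 ≤ M.E) {q : Rq} (hq : Vd q) {x : ℝ} (hx : x ≤ 0) :
    GdA hn σ hl M w₁ β Vd (NdY (M.p q) q.lam w₁ (cc hn σ) (n - 1) l β (ez hn σ l) (lst hn) x) := by
  obtain ⟨J₀, hJ₀⟩ := exists_nat_gt (8 / M.ϱ)
  refine ⟨[⟨q, hq⟩], M.ϱ / 8, by positivity, J₀, ?_⟩
  intro h hh hh' J hJ F A V z z' cb hc hM
  obtain ⟨T, TH, hN, -⟩ := hM.nod ⟨q, hq⟩ (List.mem_singleton.2 rfl)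
  have hJr : J₀ ≤ (J : ℝ) := by exact_mod_cast hJ
  rw [div_lt_iff₀ hϱ] at hJ₀
  have hJ8 : 8 ≤ M.ϱ * J := by
    have := mul_le_mul_of_nonneg_left hJr hϱ.le
    linarith
  obtain ⟨n1, n2⟩ := inv_num (J := J) hh.le hh' (show M.ϱ ≤ M.E + M.ϱ by linarith) hJ8
  have hdir : ∀ ω, A ω → dcb (cc hn σ) l (cb (z (ptr F J ω))) = dirA cb (cc hn σ l)
      (Lts (cc hn σ) l (n - 1 + 1)) (fun k => if k = lst hn then 0 else ⌊h * (J : ℝ)⌋₊)
      (z' (slam F ⌊w₁ * J⌋₊ ω)) := fun ω hω => by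
    rw [hM.cls ω hω]
    exact (crA_dir hn σ hl (hM.sml ω hω) (hc ω hω)).symm
  refine ⟨fun y => dcb (cc hn σ) l (cb (z y)), T, TH, hN.nod, fun ω hω => ⟨dcb_u _,
    fun j hj => dcb_lt (cc_injOn hn σ) (by omega) _ hj, fun k hk => ?_, ?_⟩,
    fun ω hω y hy => ?_, hN.shr⟩
  · simp only
    rw [hdir ω hω]
    exact shC_dir (ez_ne hn σ hl hk) _
  · simp only
    rw [hdir ω hω, ez_lst hn σ hl.le, CrA, shC_dir_u, abs_one]
    have : ⌊x * (J : ℝ)⌋₊ = 0 := Nat.floor_of_nonpos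
      (mul_nonpos_of_nonpos_of_nonneg hx (Nat.cast_nonneg J))
    rw [this, pow_zero]
  · have h3 := shC_one (hu := luA hn σ hl) (M₁ := ⌊h * (J : ℝ)⌋₊) (fun k _ => by
      split_ifs
      · exact Nat.zero_le _
      · exact le_rfl) (z' (slam F ⌊w₁ * J⌋₊ ω)) hy
    exact ⟨fun i _ => (h3 _).trans (pow_le_pow_right₀ one_le_two (by
      have : (M.p q).μ = M.ϱ := rfl
      rw [this]
      omega)), (h3 _).trans (pow_le_pow_right₀ one_le_two (by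
      have e1 : (M.p q).μ = M.ϱ := rfl
      have e2 : (M.p q).μT = M.E + M.ϱ := rfl
      rw [e1, e2]
      omega))⟩

/-- **The requirement of (Phi1), case B.** -/
theorem gdB_nd {hl : l < n - 1} {M : MDat} {w₁ xs : ℝ} {β : ℕ → ℝ → ℝ → ℝ} {Vd : Rq → Prop}
    (hϱ : 0 < M.ϱ) (hE : 0 ≤ M.E) {q : Rq} (hq : Vd q) {x : ℝ} (hx : x < xs) :
    GdB hn σ hl M w₁ xs β Vd
      (NdY (M.p q) q.lam w₁ (cc hn σ) (n - 1) l β (ez hn σ l) (lst hn) x) := by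
  obtain ⟨J₀, hJ₀⟩ := exists_nat_gt (8 / M.ϱ)
  refine ⟨[⟨q, hq⟩], min (M.ϱ / 8) (xs - x), lt_min (by positivity) (by linarith), J₀, ?_⟩
  intro h hh hh' J hJ F A V z z' cb hc hM
  obtain ⟨T, TH, hN, -⟩ := hM.nod ⟨q, hq⟩ (List.mem_singleton.2 rfl)
  have hJr : J₀ ≤ (J : ℝ) := by exact_mod_cast hJ
  rw [div_lt_iff₀ hϱ] at hJ₀
  have hJ8 : 8 ≤ M.ϱ * J := by
    have := mul_le_mul_of_nonneg_left hJr hϱ.le
    linarith
  have hu : cc hn σ l ∉ Lts (cc hn σ) l (n - 1) :=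
    Lts_le (cc_injOn hn σ) (by omega) (by omega) le_rfl
  have hNm : lst hn ∉ Lts (cc hn σ) l (n - 1) := by
    have h1 := Lts_top (c := cc hn σ) (l := l) (cc_injOn hn σ)
    rwa [cc_top] at h1
  obtain ⟨n1, n2⟩ := inv_num (J := J) hh.le (hh'.trans (min_le_left _ _))
    (show M.ϱ ≤ M.E + M.ϱ by linarith) hJ8
  have hdir : ∀ ω, A ω → dcb (cc hn σ) l (cb (z (ptr F J ω))) = dirB cb (cc hn σ l) (lst hn)
      (Lts (cc hn σ) l (n - 1)) (fun _ => ⌊h * (J : ℝ)⌋₊)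
      (z' (slam F ⌊w₁ * J⌋₊ ω)) := fun ω hω => by
    rw [hM.cls ω hω]
    exact (crB_dir hn σ hl (hM.sml ω hω)).symm
  refine ⟨fun y => dcb (cc hn σ) l (cb (z y)), T, TH, hN.nod, fun ω hω => ⟨dcb_u _,
    fun j hj => dcb_lt (cc_injOn hn σ) (by omega) _ hj, fun k hk => ?_, ?_⟩,
    fun ω hω y hy => ?_, hN.shr⟩
  · simp only
    rw [hdir ω hω]
    exact swC_dir hu hNm (ez_ne hn σ hl hk) _ (hc ω hω).1
  · simp only
    rw [hdir ω hω, ez_lst hn σ hl.le, CrB, swC_dir_u]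
    refine le_trans (pow_le_pow_right₀ one_le_two (Nat.floor_le_floor ?_)) (hc ω hω).2.1
    refine mul_le_mul_of_nonneg_right ?_ (Nat.cast_nonneg J)
    have := hh'.trans (min_le_right _ _)
    linarith
  · have h3 := swC_one (huN := luN hn σ hl) hu hNm (M₁ := ⌊h * (J : ℝ)⌋₊) (fun k _ => le_rfl)
      (z' (slam F ⌊w₁ * J⌋₊ ω)) hy
    exact ⟨fun i _ => (h3 _).trans (pow_le_pow_right₀ one_le_two n1),
      (h3 _).trans (pow_le_pow_right₀ one_le_two n2)⟩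

/-- **The requirement of (Psi1), case A.** -/
theorem gdA_ps {hl : l < n - 1} {M : MDat} {w₁ : ℝ} {β : ℕ → ℝ → ℝ → ℝ} {Vd : Rq → Prop}
    {x h' : ℝ} (hh' : 0 < h') :
    GdA hn σ hl M w₁ β Vd (PsR w₁ (ez hn σ l) ((range l).image (cc hn σ)) (cc hn σ l) (lst hn)
      (ezi hn σ hl.le) x h') := by
  refine ⟨[], h', hh', 0, ?_⟩
  intro h hh hh2 J hJ F A V z z' cb hc hM
  refine psr_shC hn σ hl (fun j hj => Lts_le (cc_injOn hn σ) (by omega) le_rfl hj.le)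
    fun k _ => ?_
  split_ifs
  · exact Nat.zero_le _
  · exact Nat.floor_le_floor (mul_le_mul_of_nonneg_right hh2 (Nat.cast_nonneg J))

/-- **The requirement of (Psi1), case B.** -/
theorem gdB_ps {hl : l < n - 1} {M : MDat} {w₁ xs : ℝ} {β : ℕ → ℝ → ℝ → ℝ} {Vd : Rq → Prop}
    {x h' : ℝ} (hh' : 0 < h') (hx : xs < x) :
    GdB hn σ hl M w₁ xs β Vd (PsR w₁ (ez hn σ l) ((range l).image (cc hn σ)) (cc hn σ l) (lst hn)
      (ezi hn σ hl.le) x h') := by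
  refine ⟨[], min h' (x - xs), lt_min hh' (by linarith), 0, ?_⟩
  intro h hh hh2 J hJ F A V z z' cb hc hM
  have hNm : lst hn ∉ Lts (cc hn σ) l (n - 1) := by
    have h1 := Lts_top (c := cc hn σ) (l := l) (cc_injOn hn σ)
    rwa [cc_top] at h1
  refine psr_swC hn σ (Lts_le (cc_injOn hn σ) (by omega) (by omega) le_rfl) hNm hl
    (fun j hj => Lts_le (cc_injOn hn σ) (by omega) (by omega) hj.le) (fun k _ => ?_)
    fun ω hω => ⟨(hc ω hω).1, (hc ω hω).2.2.trans ?_⟩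
  · exact Nat.floor_le_floor (mul_le_mul_of_nonneg_right (hh2.trans (min_le_left _ _))
      (Nat.cast_nonneg J))
  · refine mul_le_mul_of_nonneg_left (pow_le_pow_right₀ one_le_two (Nat.floor_le_floor ?_))
      (by norm_num)
    refine mul_le_mul_of_nonneg_right ?_ (Nat.cast_nonneg J)
    have := hh2.trans (min_le_right _ _)
    linarith

/-- **The requirement of (Phi2), case A.** -/
theorem gdA_sl {hl : l < n - 1} {M : MDat} {w₁ : ℝ} {β : ℕ → ℝ → ℝ → ℝ} {Vd : Rq → Prop}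
    {i : Fin n} (hi : (i : ℕ) < n - 1) {ε : ℝ} (hε : 0 < ε) :
    GdA hn σ hl M w₁ β Vd (SlD 2 w₁ (ez hn σ l) (univ.filter fun j : Fin n => (j : ℕ) < i) i
      ((range (ix l i)).image (cc hn σ)) (cc hn σ (ix l i)) ε 2) := by
  refine ⟨[], ε, hε, 0, ?_⟩
  intro h hh hh2 J hJ F A V z z' cb hc hM
  have hJr : (0 : ℝ) ≤ J := Nat.cast_nonneg J
  refine sld_shC hn σ (fun j hj => Lts_le (cc_injOn hn σ) (by omega) le_rfl hj.le) hi
    (by positivity) fun _ => ?_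
  split_ifs
  · rw [Nat.cast_zero]
    positivity
  · have h1 : ((⌊h * (J : ℝ)⌋₊ : ℕ) : ℝ) ≤ h * J := Nat.floor_le (by positivity)
    have h2 := mul_le_mul_of_nonneg_right hh2 hJr
    linarith

/-- **The requirement of (Phi2), case B.** -/
theorem gdB_sl {hl : l < n - 1} {M : MDat} {w₁ xs : ℝ} {β : ℕ → ℝ → ℝ → ℝ} {Vd : Rq → Prop}
    (hx0 : 0 ≤ xs) {i : Fin n} (hi : (i : ℕ) < n - 1) {ε : ℝ} (hε : 0 < ε)
    (hε2 : (i : ℕ) = n - 2 → xs < ε) :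
    GdB hn σ hl M w₁ xs β Vd (SlD 2 w₁ (ez hn σ l) (univ.filter fun j : Fin n => (j : ℕ) < i) i
      ((range (ix l i)).image (cc hn σ)) (cc hn σ (ix l i)) ε 2) := by
  obtain ⟨h₀, hh₀, h1, h2⟩ : ∃ h₀ : ℝ, 0 < h₀ ∧ h₀ ≤ ε ∧ ((i : ℕ) = n - 2 → xs + h₀ ≤ ε) := by
    by_cases h : (i : ℕ) = n - 2
    · exact ⟨ε - xs, by linarith [hε2 h], by linarith, fun _ => by linarith⟩
    · exact ⟨ε, hε, le_rfl, fun h' => absurd h' h⟩
  refine ⟨[], h₀, hh₀, 0, ?_⟩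
  intro h hh hh2 J hJ F A V z z' cb hc hM
  have hJr : (0 : ℝ) ≤ J := Nat.cast_nonneg J
  have hu : cc hn σ l ∉ Lts (cc hn σ) l (n - 1) :=
    Lts_le (cc_injOn hn σ) (by omega) (by omega) le_rfl
  rcases Nat.lt_or_ge (i : ℕ) (n - 2) with h3 | h3
  · refine sld_swC hn σ hu hl (fun j hj => Lts_le (cc_injOn hn σ) (by omega) (by omega) hj.le) h3
      (by positivity) fun _ => ?_
    have h4 : ((⌊h * (J : ℝ)⌋₊ : ℕ) : ℝ) ≤ h * J := Nat.floor_le (by positivity)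
    have h5 := mul_le_mul_of_nonneg_right (hh2.trans h1) hJr
    linarith
  · have h4 : (i : ℕ) = n - 2 := by omega
    refine sld_swN hn σ hu hl (fun j hj => Lts_le (cc_injOn hn σ) (by omega) (by omega) hj.le) h4
      (μ := ⌊(xs + h) * (J : ℝ)⌋₊ + 2) ?_ fun ω hω => ⟨(hc ω hω).1, (hc ω hω).2.2.trans ?_⟩
    · push_cast
      have h5 : ((⌊(xs + h) * (J : ℝ)⌋₊ : ℕ) : ℝ) ≤ (xs + h) * J := Nat.floor_le (by positivity)
      have h6 := mul_le_mul_of_nonneg_right (show xs + h ≤ ε by linarith [h2 h4]) hJr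
      linarith
    · rw [pow_add]
      have : (0 : ℝ) < 2 ^ ⌊(xs + h) * (J : ℝ)⌋₊ := by positivity
      linarith

end

end Pool.Z4
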