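import Pool.Agent.H39.GEN.FroT

/-!
# The count at a density point

`zcount`: the real analysis of the count. At a density point of the windows in `A` with slope of `L`
at least `s₀`, the inequality of the zooms (`hZ`) between two good windows on the two sides gives
`S_N (1 - r') ≤ h₀ S_u`.
-/

set_option autoImplicit false

namespace Pool.Z4

open MeasureTheory Set Filter Topology
open Pool.STR (affB_of AffB)

/-- The measure of a set near a density point, in an interval around the point. -/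
theorem dens_Ioo {A : Set ℝ} {g : ℝ}
    (hW : Tendsto (fun r => volume (A ∩ Metric.closedBall g r) / volume (Metric.closedBall g r))
      (𝓝[>] 0) (𝓝 1)) {η : ℝ} (hη : 0 < η) (hη1 : η ≤ 1 / 4) :
    ∃ t₀ : ℝ, 0 < t₀ ∧ ∀ δ : ℝ, 0 < δ → δ < t₀ → ∀ x : ℝ, g - δ ≤ x → x ≤ g →
      ENNReal.ofReal (δ * (1 - 2 * η)) ≤ volume (A ∩ Ioo x (x + δ)) := by
  have h1 : ∀ᶠ r in 𝓝[>] (0 : ℝ), ENNReal.ofReal (1 - η) <
      volume (A ∩ Metric.closedBall g r) / volume (Metric.closedBall g r) := by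
    refine hW.eventually_const_lt ?_
    rw [ENNReal.ofReal_lt_one]
    linarith
  obtain ⟨r₂, hr₂, h2⟩ := mem_nhdsGT_iff_exists_Ioo_subset.1 h1
  have hr₂' : (0 : ℝ) < r₂ := hr₂
  refine ⟨r₂, hr₂', fun δ hδ hδ' x hx1 hx2 => ?_⟩
  have h3 := h2 (show δ ∈ Ioo 0 r₂ from ⟨hδ, hδ'⟩)
  simp only [Set.mem_ofPred_eq, Real.volume_closedBall] at h3
  have h4 : ENNReal.ofReal (1 - η) * ENNReal.ofReal (2 * δ) ≤
      volume (A ∩ Metric.closedBall g δ) := by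
    have h5 := h3.le
    rwa [ENNReal.le_div_iff_mul_le (Or.inl (by simpa using hδ)) (Or.inl ENNReal.ofReal_ne_top)]
      at h5
  have h6 : A ∩ Metric.closedBall g δ ⊆ (A ∩ Ioo x (x + δ)) ∪ (Icc (g - δ) x ∪ Icc (x + δ) (g + δ)) := by
    rintro y ⟨hy, hy2⟩
    rw [Metric.mem_closedBall, Real.dist_eq, abs_le] at hy2
    rcases le_or_gt y x with h7 | h7
    · exact Or.inr (Or.inl ⟨by linarith, h7⟩)
    · rcases le_or_gt (x + δ) y with h8 | h8
      · exact Or.inr (Or.inr ⟨h8, by linarith⟩)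
      · exact Or.inl ⟨hy, h7, h8⟩
  have h9 : volume (A ∩ Metric.closedBall g δ) ≤ volume (A ∩ Ioo x (x + δ)) + ENNReal.ofReal δ := by
    refine (measure_mono h6).trans ((measure_union_le _ _).trans ?_)
    gcongr
    refine (measure_union_le _ _).trans ?_
    rw [Real.volume_Icc, Real.volume_Icc, ← ENNReal.ofReal_add (by linarith) (by linarith)]
    refine ENNReal.ofReal_le_ofReal ?_
    linarith
  have h10 : ENNReal.ofReal (δ * (1 - 2 * η)) + ENNReal.ofReal δ ≤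
      volume (A ∩ Ioo x (x + δ)) + ENNReal.ofReal δ := by
    refine le_trans ?_ (h4.trans h9)
    rw [← ENNReal.ofReal_mul (by linarith)]
    have h11 : 0 ≤ δ * (1 - 2 * η) := mul_nonneg hδ.le (by linarith)
    rw [← ENNReal.ofReal_add h11 hδ.le]
    exact ENNReal.ofReal_le_ofReal (le_of_eq (by ring))
  exact (ENNReal.add_le_add_iff_right ENNReal.ofReal_ne_top).1 h10

/-- Positive measure of the pairs of good windows. -/
theorem pairs_pos {G : Set ℝ} (hG : MeasurableSet G) {g : ℝ}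
    (hW : Tendsto (fun r => volume (G ∩ Metric.closedBall g r) / volume (Metric.closedBall g r))
      (𝓝[>] 0) (𝓝 1)) :
    ∃ t₀ : ℝ, 0 < t₀ ∧ ∀ δ : ℝ, 0 < δ → δ < t₀ →
      0 < volume {x : ℝ | g - 3 * δ / 4 < x ∧ x < g - δ / 4 ∧ x ∈ G ∧ x + δ ∈ G} := by
  have h1 : ∀ᶠ r in 𝓝[>] (0 : ℝ), ENNReal.ofReal (1 - 1 / 16) <
      volume (G ∩ Metric.closedBall g r) / volume (Metric.closedBall g r) := by
    refine hW.eventually_const_lt ?_
    rw [ENNReal.ofReal_lt_one]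
    linarith
  obtain ⟨r₂, hr₂, h2⟩ := mem_nhdsGT_iff_exists_Ioo_subset.1 h1
  have hr₂' : (0 : ℝ) < r₂ := hr₂
  refine ⟨r₂, hr₂', fun δ hδ hδ' => ?_⟩
  have h3 := h2 (show δ ∈ Ioo 0 r₂ from ⟨hδ, hδ'⟩)
  simp only [Set.mem_ofPred_eq, Real.volume_closedBall] at h3
  have h4 : ENNReal.ofReal (1 - 1 / 16) * ENNReal.ofReal (2 * δ) ≤
      volume (G ∩ Metric.closedBall g δ) := by
    have h5 := h3.le
    rwa [ENNReal.le_div_iff_mul_le (Or.inl (by simpa using hδ)) (Or.inl ENNReal.ofReal_ne_top)]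
      at h5
  -- the complement
  have h5 : volume (Metric.closedBall g δ \ G) ≤ ENNReal.ofReal (δ / 8) := by
    have h6 : volume (G ∩ Metric.closedBall g δ) + volume (Metric.closedBall g δ \ G) =
        volume (Metric.closedBall g δ) := by
      rw [Set.inter_comm]
      exact measure_inter_add_sdiff _ hG
    rw [Real.volume_closedBall] at h6
    have h7 : ENNReal.ofReal (15 / 8 * δ) + volume (Metric.closedBall g δ \ G) ≤
        ENNReal.ofReal (15 / 8 * δ) + ENNReal.ofReal (δ / 8) := by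
      rw [← ENNReal.ofReal_add (by positivity) (by positivity)]
      have e1 : 15 / 8 * δ + δ / 8 = 2 * δ := by ring
      rw [e1, ← h6]
      gcongr
      rw [← ENNReal.ofReal_mul (by norm_num)] at h4
      refine le_trans (le_of_eq ?_) h4
      congr 1
      ring
    exact (ENNReal.add_le_add_iff_left ENNReal.ofReal_ne_top).1 h7
  by_contra hcon
  rw [not_lt, nonpos_iff_eq_zero] at hcon
  have h6 : Ioo (g - 3 * δ / 4) (g - δ / 4) ⊆
      {x : ℝ | g - 3 * δ / 4 < x ∧ x < g - δ / 4 ∧ x ∈ G ∧ x + δ ∈ G} ∪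
        ((Metric.closedBall g δ \ G) ∪ (fun x => x + δ) ⁻¹' (Metric.closedBall g δ \ G)) := by
    intro x hx
    by_cases h7 : x ∈ G
    · by_cases h8 : x + δ ∈ G
      · exact Or.inl ⟨hx.1, hx.2, h7, h8⟩
      · refine Or.inr (Or.inr ⟨?_, h8⟩)
        rw [Metric.mem_closedBall, Real.dist_eq, abs_le]
        constructor <;> linarith [hx.1, hx.2]
    · refine Or.inr (Or.inl ⟨?_, h7⟩)
      rw [Metric.mem_closedBall, Real.dist_eq, abs_le]
      constructor <;> linarith [hx.1, hx.2]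
  have h7 := (measure_mono (μ := volume) h6).trans ((measure_union_le _ _).trans
    (add_le_add_right (measure_union_le _ _) _))
  rw [hcon, zero_add, Real.volume_Ioo, measure_preimage_add_right] at h7
  have h8 : ENNReal.ofReal (g - δ / 4 - (g - 3 * δ / 4)) ≤
      ENNReal.ofReal (δ / 8) + ENNReal.ofReal (δ / 8) := h7.trans (add_le_add h5 h5)
  rw [← ENNReal.ofReal_add (by positivity) (by positivity),
    ENNReal.ofReal_le_ofReal_iff (by positivity)] at h8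
  linarith

/-- The increment of a function around a point of differentiability. -/
theorem inc_of {D : ℝ → ℝ} {g : ℝ} (hd : DifferentiableAt ℝ D g) {e : ℝ} (he : 0 < e) :
    ∃ t₀ : ℝ, 0 < t₀ ∧ ∀ δ : ℝ, 0 < δ → δ < t₀ → ∀ x : ℝ, g - δ ≤ x → x ≤ g →
      |D (x + δ) - D x - deriv D g * δ| ≤ e * δ := by
  obtain ⟨t₀, ht₀, h1⟩ := affB_of hd (M := 1) (e := e / 2) one_pos (by linarith)
  refine ⟨t₀, ht₀, fun δ hδ hδ' x hx1 hx2 => ?_⟩
  have h2 := h1 δ hδ hδ'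
  have a1 := abs_le.1 (h2 x (by rw [abs_le]; constructor <;> linarith))
  have a2 := abs_le.1 (h2 (x + δ) (by rw [abs_le]; constructor <;> linarith))
  have e1 : deriv D g * (x + δ - g) = deriv D g * (x - g) + deriv D g * δ := by ring
  rw [e1] at a2
  rw [abs_le]
  constructor <;> linarith [a1.1, a1.2, a2.1, a2.2]

/-- **The count.** -/
theorem zcount {D P r : ℝ → ℝ} {A G : Set ℝ} (hG : MeasurableSet G) (hAG : A ⊆ G)
    {h₀ : ℝ} (hh : h₀ < 1) (hh0 : 0 ≤ h₀)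
    (hA : ∀ g ∈ A, 0 < g ∧ g < 1 ∧ DifferentiableAt ℝ D g ∧ 1 < deriv D g ∧
      DifferentiableAt ℝ P g ∧ DifferentiableAt ℝ r (P g))
    (hZ : ∀ g ∈ A, ∃ ϱ : ℝ, 0 < ϱ ∧ ∀ δ : ℚ, 0 < δ → ∀ᵐ w₁ : ℝ, w₁ ∈ G → w₁ + δ ∈ G → g - ϱ < w₁ →
      w₁ < g → g < w₁ + δ → w₁ + δ < g + ϱ → ∀ s₀ : ℝ, 1 < s₀ →
      ENNReal.ofReal ((1 - h₀) * s₀) *
        volume ({w | w ∈ A ∧ s₀ ≤ deriv D w} ∩ Ioo w₁ (w₁ + δ)) ≤
        ENNReal.ofReal (D (w₁ + δ) - D w₁ - (P (w₁ + δ) - P w₁ - (r (P (w₁ + δ)) - r (P w₁))))) :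
    ∀ᵐ g : ℝ, g ∈ A → deriv P g * (1 - deriv r (P g)) ≤ h₀ * deriv D g := by
  have hall : ∀ᵐ g : ℝ, ∀ s₀ : ℚ, g ∈ {w | w ∈ A ∧ (s₀ : ℝ) ≤ deriv D w} → Tendsto
      (fun r => volume ({w | w ∈ A ∧ (s₀ : ℝ) ≤ deriv D w} ∩ Metric.closedBall g r) /
        volume (Metric.closedBall g r)) (𝓝[>] 0) (𝓝 1) := by
    rw [ae_all_iff]
    exact fun s₀ => ae_imp_of_ae_restrict (Besicovitch.ae_tendsto_measure_inter_div volume _)
  have hallG : ∀ᵐ g : ℝ, g ∈ G → Tendsto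
      (fun r => volume (G ∩ Metric.closedBall g r) /
        volume (Metric.closedBall g r)) (𝓝[>] 0) (𝓝 1) :=
    ae_imp_of_ae_restrict (Besicovitch.ae_tendsto_measure_inter_div volume _)
  filter_upwards [hall, hallG] with g h1 h2 hg
  obtain ⟨g0, g1, dD, s1, dP, dr⟩ := hA g hg
  by_contra hcon
  push Not at hcon
  obtain ⟨Su, hSu⟩ : ∃ Su, Su = deriv D g := ⟨_, rfl⟩
  obtain ⟨SN, hSN⟩ : ∃ SN, SN = deriv P g := ⟨_, rfl⟩
  obtain ⟨d, hd⟩ : ∃ d, d = deriv r (P g) := ⟨_, rfl⟩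
  rw [← hSN, ← hSu, ← hd] at hcon
  rw [← hSu] at s1
  -- the gap
  obtain ⟨x, hx⟩ : ∃ x, x = SN * (1 - d) - h₀ * Su := ⟨_, rfl⟩
  have hx0 : 0 < x := by rw [hx]; linarith
  have h1h : 0 < 1 - h₀ := by linarith
  -- the slope
  obtain ⟨s₀, hs1, hs2⟩ := exists_rat_btwn (show max 1 (Su - x / 8) < Su from
    max_lt s1 (by linarith))
  have hs3 : 1 < (s₀ : ℝ) := lt_of_le_of_lt (le_max_left _ _) hs1
  have hs4 : Su - x / 8 < s₀ := lt_of_le_of_lt (le_max_right _ _) hs1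
  have hs0 : (0 : ℝ) < s₀ := by linarith
  -- the density
  obtain ⟨η, hη⟩ : ∃ η, η = min (1 / 4) (x / (16 * Su)) := ⟨_, rfl⟩
  have hη0 : 0 < η := by rw [hη]; exact lt_min (by norm_num) (by positivity)
  have hη1 : η ≤ 1 / 4 := by rw [hη]; exact min_le_left _ _
  have hη2 : Su * η ≤ x / 16 := by
    have h3 : η ≤ x / (16 * Su) := by rw [hη]; exact min_le_right _ _
    rw [le_div_iff₀ (by linarith)] at h3
    linarith
  obtain ⟨ϱ, hϱ, hz⟩ := hZ g hg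
  obtain ⟨t₁, ht₁, k1⟩ := dens_Ioo (h1 s₀ ⟨hg, by rw [← hSu]; exact hs2.le⟩) hη0 hη1
  obtain ⟨t₂, ht₂, k2⟩ := pairs_pos hG (h2 (hAG hg))
  obtain ⟨t₃, ht₃, k3⟩ := inc_of dD (e := x / 16) (by positivity)
  obtain ⟨t₄, ht₄, k4⟩ := inc_of dP (e := x / (16 * (|d| + 2))) (by positivity)
  -- the rate
  have hrP : ∃ t₅ : ℝ, 0 < t₅ ∧ ∀ δ : ℝ, 0 < δ → δ < t₅ → ∀ y : ℝ, g - δ ≤ y → y ≤ g →
      |(fun z => r (P z)) (y + δ) - (fun z => r (P z)) y - deriv (fun z => r (P z)) g * δ| ≤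
        x / 16 * δ := inc_of (D := fun z => r (P z))
          (DifferentiableAt.comp (g := r) (f := P) g dr dP) (by positivity)
  obtain ⟨t₅, ht₅, k5⟩ := hrP
  have hder : deriv (fun z => r (P z)) g = d * SN := by
    have h3 := (dr.hasDerivAt.comp g dP.hasDerivAt).deriv
    rw [hd, hSN]
    exact h3
  -- the pair
  obtain ⟨δ, hδ1, hδ2⟩ := exists_rat_btwn (show (0 : ℝ) < min (min (min t₁ t₂) (min t₃ t₄))
    (min t₅ ϱ) from lt_min (lt_min (lt_min ht₁ ht₂) (lt_min ht₃ ht₄)) (lt_min ht₅ hϱ))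
  simp only [lt_min_iff] at hδ2
  obtain ⟨⟨⟨m1, m2⟩, m3, m4⟩, m5, m6⟩ := hδ2
  have hδq : (0 : ℚ) < δ := by exact_mod_cast hδ1
  have hpos := k2 δ hδ1 m2
  have hae := hz δ hδq
  obtain ⟨w₁, hw⟩ : ∃ w₁ : ℝ, (g - 3 * δ / 4 < w₁ ∧ w₁ < g - δ / 4 ∧ w₁ ∈ G ∧ w₁ + δ ∈ G) ∧
      (w₁ ∈ G → w₁ + δ ∈ G → g - ϱ < w₁ → w₁ < g → g < w₁ + δ → w₁ + δ < g + ϱ → ∀ s₀ : ℝ, 1 < s₀ →
      ENNReal.ofReal ((1 - h₀) * s₀) *
        volume ({w | w ∈ A ∧ s₀ ≤ deriv D w} ∩ Ioo w₁ (w₁ + δ)) ≤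
        ENNReal.ofReal (D (w₁ + δ) - D w₁ -
          (P (w₁ + δ) - P w₁ - (r (P (w₁ + δ)) - r (P w₁))))) := by
    by_contra hno
    push Not at hno
    refine hpos.ne' ?_
    refine measure_mono_null (t := {w₁ : ℝ | ¬ (w₁ ∈ G → w₁ + δ ∈ G → g - ϱ < w₁ → w₁ < g →
      g < w₁ + δ → w₁ + δ < g + ϱ → ∀ s₀ : ℝ, 1 < s₀ →
      ENNReal.ofReal ((1 - h₀) * s₀) *
        volume ({w | w ∈ A ∧ s₀ ≤ deriv D w} ∩ Ioo w₁ (w₁ + δ)) ≤
        ENNReal.ofReal (D (w₁ + δ) - D w₁ -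
          (P (w₁ + δ) - P w₁ - (r (P (w₁ + δ)) - r (P w₁)))))}) ?_ (ae_iff.1 hae)
    intro w₁ hw₁ hcon2
    obtain ⟨a1, a2, a3, a4, a5, a6, s, a7, a8⟩ := hno w₁ hw₁
    exact absurd (hcon2 a1 a2 a3 a4 a5 a6 s a7) (not_le.2 a8)
  obtain ⟨⟨w1, w2, w3, w4⟩, hw5⟩ := hw
  have hmain := hw5 w3 w4 (by linarith) (by linarith) (by linarith) (by linarith) s₀ hs3
  have c1 := k1 δ hδ1 m1 w₁ (by linarith) (by linarith)
  have c3 := abs_le.1 (k3 δ hδ1 m3 w₁ (by linarith) (by linarith))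
  have c4 := abs_le.1 (k4 δ hδ1 m4 w₁ (by linarith) (by linarith))
  have c5 := abs_le.1 (k5 δ hδ1 m5 w₁ (by linarith) (by linarith))
  rw [← hSu] at c3
  rw [← hSN] at c4
  rw [hder] at c5
  simp only at c5
  have hxx : x / (16 * (|d| + 2)) ≤ x / 16 := by
    refine div_le_div_of_nonneg_left hx0.le (by norm_num) ?_
    have := abs_nonneg d
    linarith
  have hxx' : x / (16 * (|d| + 2)) * δ ≤ x / 16 * δ := mul_le_mul_of_nonneg_right hxx hδ1.le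
  -- the two sides
  have hfin : ENNReal.ofReal ((1 - h₀) * s₀ * (δ * (1 - 2 * η))) ≤
      ENNReal.ofReal (D (w₁ + δ) - D w₁ - (P (w₁ + δ) - P w₁ - (r (P (w₁ + δ)) - r (P w₁)))) := by
    rw [ENNReal.ofReal_mul (by positivity)]
    exact (mul_le_mul_right c1 _).trans hmain
  have hL0 : 0 < (1 - h₀) * s₀ * (δ * (1 - 2 * η)) := by
    have : 0 < 1 - 2 * η := by linarith
    positivity
  have hfin' : (1 - h₀) * s₀ * (δ * (1 - 2 * η)) ≤
      D (w₁ + δ) - D w₁ - (P (w₁ + δ) - P w₁ - (r (P (w₁ + δ)) - r (P w₁))) := by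
    by_contra h3
    push Not at h3
    exact absurd hfin (not_le.2 ((ENNReal.ofReal_lt_ofReal_iff hL0).2 h3))
  -- the contradiction
  have f1 : (1 - h₀) * s₀ * (δ * (1 - 2 * η)) ≥ ((1 - h₀) * Su - x / 4) * δ := by
    have f2 : (1 - h₀) * s₀ * (1 - 2 * η) ≥ (1 - h₀) * Su - x / 4 := by
      have f3 : (1 - h₀) * s₀ ≥ (1 - h₀) * Su - x / 8 := by
        have f4 : (1 - h₀) * (Su - s₀) ≤ 1 * (Su - s₀) :=
          mul_le_mul_of_nonneg_right (by linarith) (by linarith)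
        linarith
      have f5 : (1 - h₀) * s₀ * (2 * η) ≤ x / 8 := by
        have f6 : (1 - h₀) * s₀ ≤ 1 * Su := mul_le_mul (by linarith) hs2.le hs0.le zero_le_one
        have f7 : (1 - h₀) * s₀ * (2 * η) ≤ 1 * Su * (2 * η) :=
          mul_le_mul_of_nonneg_right f6 (by positivity)
        linarith
      linarith
    have f8 := mul_le_mul_of_nonneg_right f2 hδ1.le
    linarith
  have f9 : D (w₁ + δ) - D w₁ - (P (w₁ + δ) - P w₁ - (r (P (w₁ + δ)) - r (P w₁))) ≤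
      (Su - SN * (1 - d) + 3 * (x / 16)) * δ := by
    have e1 : (Su - SN * (1 - d) + 3 * (x / 16)) * δ = Su * δ + x / 16 * δ - SN * δ + x / 16 * δ +
        (d * SN * δ + x / 16 * δ) := by ring
    rw [e1]
    linarith [c3.2, c4.1, c5.2]
  have f10 : ((1 - h₀) * Su - x / 4) * δ ≤ (Su - SN * (1 - d) + 3 * (x / 16)) * δ := by linarith
  have f11 := le_of_mul_le_mul_right f10 hδ1
  have f12 : (1 - h₀) * Su = Su - h₀ * Su := by ring
  linarith

end Pool.Z4
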