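import Pool.Agent.H77.Z4.Bun
import Pool.Agent.H77.Z4.Gd
import Pool.Agent.H80.ZC.Lbq

/-!
# (Phi1) and (Phi2) from the data

`VdG`: the requests at the nodes of the grid are valid. `phi1_core`: (Phi1) with the requirement of
finitely many nodes. `phi1_A`, `phi1_B`, `phi2_A`, `phi2_B`: (Phi1) and (Phi2) with the requirements
of the two cases. `zbun_A`, `zbun_B`: the statements on the zooms together.
-/

set_option autoImplicit false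

namespace Pool.Z4

open MeasureTheory Set Filter Topology
open Finset (range univ)
open Pool.Agent.H49.Ent Pool.Agent.H32.Dense Pool.STK Pool.KA Pool.KSAT Pool.K2S Pool.PB Pool.S6C
open Pool.GEN Pool.ONE Pool.EXW Pool.TOP Pool.ZCL Pool.ZLC Pool.ZFN Pool.ZCO Pool.PKG Pool.CHT
open Pool.Z3
open Pool.ZLB (SlD)

variable {n : ℕ}

/-- **The requests at the nodes of the grid are valid.** -/
def VdG (w₁ : ℝ) (δ : ℚ) (M : MDat) (lamf : ℝ → ℝ → ℝ) (Vd : Rq → Prop) : Prop :=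
  ∀ r s : ℚ, 0 ≤ s → s ≤ r → r ≤ δ → ∀ (Dr : ℕ) (η σ : ℝ), 0 < η → 0 < σ → σ ≤ M.ϱ →
    Vd ⟨w₁ + r, w₁ + s, lamf (w₁ + r) (w₁ + s), Dr, η, σ⟩

/-- **The numbers of the path** to a node of the grid. -/
def LUG (w₁ : ℝ) (δ : ℚ) (β lamf LU : ℝ → ℝ → ℝ) : Prop :=
  ∀ r s k : ℚ, 0 < s → s ≤ r → r ≤ δ → 0 ≤ k → k ≤ r →
    0 ≤ lamf (w₁ + k) (w₁ + (min s k : ℚ)) ∧ 0 ≤ β (w₁ + k) (w₁ + (min s k : ℚ)) ∧
    β (w₁ + k) (w₁ + (min s k : ℚ)) + lamf (w₁ + k) (w₁ + (min s k : ℚ)) + (r - k) ≤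
      LU (w₁ + r) (w₁ + s)

section

variable {hn : 2 ≤ n} {σ : Equiv.Perm (Fin (n - 1))} {l : ℕ} {hl : l < n - 1} {M : MDat}
  {w₁ : ℝ} {δ : ℚ} {β : ℕ → ℝ → ℝ → ℝ} {Vd : Rq → Prop} {lamf LU : ℝ → ℝ → ℝ}

/-- Finitely many requirements and the bound of the coordinates, case A. -/
theorem gdA_fin {N : ℕ} {R : ℕ → DtP n} (h : ∀ k ≤ N, GdA hn σ hl M w₁ β Vd (R k)) :
    GdA hn σ hl M w₁ β Vd (fun J F A V C z' => C.Bd 0 2 ∧ ∀ k ≤ N, R k J F A V C z') := by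
  obtain ⟨L, h₀, hh₀, J₀, h1⟩ := gdA_all hn σ
    ((List.finRange (N + 1)).map fun k : Fin (N + 1) =>
      (⟨R k, h k (by have := k.2; omega)⟩ : {R : DtP n // GdA hn σ hl M w₁ β Vd R}))
  refine ⟨L, h₀, hh₀, J₀, fun h' hh' hh'' J hJ F A V z z' cb hc hM => ⟨shC_bd _ _ _ _ _,
    fun k hk => ?_⟩⟩
  exact h1 h' hh' hh'' J hJ F A V z z' cb hc hM ⟨R k, h k hk⟩
    (List.mem_map.2 ⟨⟨k, by omega⟩, List.mem_finRange _, rfl⟩)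

/-- Finitely many requirements and the bound of the coordinates, case B. -/
theorem gdB_fin {xs : ℝ} {N : ℕ} {R : ℕ → DtP n} (h : ∀ k ≤ N, GdB hn σ hl M w₁ xs β Vd (R k)) :
    GdB hn σ hl M w₁ xs β Vd (fun J F A V C z' => C.Bd 0 2 ∧ ∀ k ≤ N, R k J F A V C z') := by
  obtain ⟨L, h₀, hh₀, J₀, h1⟩ := gdB_all hn σ
    ((List.finRange (N + 1)).map fun k : Fin (N + 1) =>
      (⟨R k, h k (by have := k.2; omega)⟩ : {R : DtP n // GdB hn σ hl M w₁ xs β Vd R}))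
  refine ⟨L, h₀, hh₀, J₀, fun h' hh' hh'' J hJ F A V z z' cb hc hM => ⟨swC_bd _ _ _ _
    (Lts_le (cc_injOn hn σ) (by omega) (by omega) le_rfl) _ _, fun k hk => ?_⟩⟩
  exact h1 h' hh' hh'' J hJ F A V z z' cb hc hM ⟨R k, h k hk⟩
    (List.mem_map.2 ⟨⟨k, by omega⟩, List.mem_finRange _, rfl⟩)

/-- **(Phi1)** with the requirement of finitely many nodes. -/
theorem phi1_core (hl : l < n - 1) {S : PCl n} (hV : VdG w₁ δ M lamf Vd)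
    (hϱ : 0 < M.ϱ) (hE : 0 ≤ M.E)
    (hE1 : M.E + M.ϱ ≤ 1) (hψ : ∀ q, 0 < M.ψ q) (hd : ∀ q, Vd q → 0 ≤ M.d q l) (hw0 : 0 < w₁)
    (hwδ : w₁ + δ < 1) (hLU : LUG w₁ δ (β l) lamf LU) {p : ℝ × ℝ} (hp : p ∈ Ngr w₁ δ) {a w : ℚ}
    (hw : 0 < w) (hwa : w ≤ a) (h1 : rho w₁ a < p.1) (h2 : rho w₁ w < p.2) (K : ℕ)
    {U h q₀ : ℝ} (hU : 0 ≤ U) (hh : 0 < h)
    (hq : LU p.1 p.2 - w₁ - q₀ ≤ (1 - w₁) * (U + h / 2)) :
    ∃ (N : ℕ) (rq : ℕ → Rq), (∀ k ≤ N, Vd (rq k)) ∧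
      ZPr S w₁ (ez hn σ l) (fun J F A V C z' => C.Bd 0 2 ∧ ∀ k ≤ N,
        NdY (M.p (rq k)) (rq k).lam w₁ (cc hn σ) (n - 1) l β (ez hn σ l) (lst hn) q₀ J F A V C z')
        (fun J G B => ¬ (tgs (lst hn)).T () K ⌊(a : ℝ) * J⌋₊ ⌊(w : ℝ) * J⌋₊ ⌊(U + h) * J⌋₊
          J G B) := by
  obtain ⟨r, s, hs0, hsr, hrδ, rfl⟩ := hp
  simp only at h1 h2 hq
  have hr' : (r : ℝ) ≤ δ := by exact_mod_cast hrδ
  have hsr' : (s : ℝ) ≤ r := by exact_mod_cast hsr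
  have hs0' : (0 : ℝ) < s := by exact_mod_cast hs0
  have hw' : (0 : ℝ) < w := by exact_mod_cast hw
  have hwa' : (w : ℝ) ≤ a := by exact_mod_cast hwa
  have hδ0 : (0 : ℝ) < δ := by linarith
  have hw1 : w₁ < 1 := by linarith
  obtain ⟨N, hN1, hD⟩ := phi1_y (n := n) (m := n) (r := n - 1) (l₀ := l) (c := cc hn σ)
    (e := ez hn σ l) (lt := lst hn) (ez_inj hn σ hl.le) (cc_cov hn σ) (by omega) (cc_injOn hn σ)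
    (β := β) (w₁ := w₁) (a' := a) (w' := w) (q := q₀) (U := U) (h := h) (aₜ := w₁ + r)
    (wₜ := w₁ + s) hw0 hw1 (hw'.le.trans hwa') hw'.le hh h1 h2 (by linarith) (by linarith) K
  obtain ⟨rk, hrk⟩ : ∃ rk : ℕ → ℚ, rk = fun k : ℕ => (k : ℚ) / N * r := ⟨_, rfl⟩
  have hN0 : (0 : ℚ) < N := by exact_mod_cast hN1
  have hr0 : 0 < r := hs0.trans_le hsr
  have hrk0 : ∀ k, 0 ≤ rk k := fun k => by
    rw [hrk]
    positivity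
  have hrk1 : ∀ k ≤ N, rk k ≤ r := fun k hk => by
    rw [hrk]
    have h3 : (k : ℚ) / N ≤ 1 := by
      rw [div_le_one hN0]
      exact_mod_cast hk
    have := mul_le_mul_of_nonneg_right h3 hr0.le
    simp only
    linarith
  obtain ⟨Dr, η₀, hη₀, hDk, hp⟩ := hD (fun k => M.D (w₁ + rk k) (w₁ + (min s (rk k) : ℚ)))
  obtain ⟨rq, hrq⟩ : ∃ rq : ℕ → Rq, rq = fun k => ⟨w₁ + rk k, w₁ + (min s (rk k) : ℚ),
    lamf (w₁ + rk k) (w₁ + (min s (rk k) : ℚ)), Dr, η₀, M.ϱ⟩ := ⟨_, rfl⟩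
  have hVd : ∀ k ≤ N, Vd (rq k) := fun k hk => by
    rw [hrq]
    exact hV _ _ (le_min hs0.le (hrk0 k)) (min_le_right _ _) ((hrk1 k hk).trans hrδ) _ _ _ hη₀ hϱ
      le_rfl
  have hea : ∀ k, w₁ + (rk k : ℝ) = w₁ + k * ((w₁ + r - w₁) / N) := fun k => by
    rw [hrk]
    push_cast
    ring
  have hem : ∀ k, w₁ + ((min s (rk k) : ℚ) : ℝ) = min (w₁ + s) (w₁ + rk k) := fun k => by
    rw [min_add_add_left]
    congr 1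
    exact Rat.cast_min s (rk k)
  obtain ⟨ψ, hψ', J₀, hfin⟩ := hp (fun k => M.p (rq k)) (fun k => (rq k).lam) (fun k hk => by
      rw [hrq]
      refine ⟨hea k, ?_, rfl, rfl, hη₀.le, le_rfl, ?_, ?_, hϱ, ?_, hE1⟩
      · exact hem k
      · have : 0 < M.ψ (rq k) := hψ _
        rw [hrq] at this
        change 0 < 1 / 2 * M.ψ _
        linarith
      · have := hd _ (hVd k hk)
        rw [hrq] at this
        exact this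
      · change M.ϱ ≤ M.E + M.ϱ
        linarith) (fun k hk => by
      rw [hrq]
      obtain ⟨h3, h4, h5⟩ := hLU r s (rk k) hs0 hsr hrδ (hrk0 k) (hrk1 k hk)
      refine ⟨h3, h4, ?_⟩
      change β l (w₁ + rk k) (w₁ + (min s (rk k) : ℚ)) +
        lamf (w₁ + rk k) (w₁ + (min s (rk k) : ℚ)) + (w₁ + r - (w₁ + rk k)) - w₁ - q₀ ≤ _
      linarith)
  refine ⟨N, rq, hVd, ψ, hψ', 1, one_pos, J₀, ?_⟩
  intro J hJ F A _ V C z z' hc hR hlw J' hJJ B hBA hPB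
  exact hfin J hJ F A V C z z' hR.1 hc hR.2 hlw J' hJJ B hBA hPB

/-- **(Phi1), case A.** -/
theorem phi1_A {S : PCl n} (hV : VdG w₁ δ M lamf Vd) (hϱ : 0 < M.ϱ) (hE : 0 ≤ M.E)
    (hE1 : M.E + M.ϱ ≤ 1) (hψ : ∀ q, 0 < M.ψ q) (hd : ∀ q, Vd q → 0 ≤ M.d q l) (hw0 : 0 < w₁)
    (hwδ : w₁ + δ < 1) (hLU : LUG w₁ δ (β l) lamf LU) {p : ℝ × ℝ} (hp : p ∈ Ngr w₁ δ) {a w : ℚ}
    (hw : 0 < w) (hwa : w ≤ a) (h1 : rho w₁ a < p.1) (h2 : rho w₁ w < p.2) (K : ℕ)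
    {U h : ℝ} (hU : 0 ≤ U) (hh : 0 < h) (hq : nmz w₁ 0 (LU p.1 p.2) ≤ U + h / 4) :
    ∃ q : {R : DtP n // GdA hn σ hl M w₁ β Vd R}, ZPr S w₁ (ez hn σ l) q.1 (fun J G B =>
      ¬ (tgs (lst hn)).T () K ⌊(a : ℝ) * J⌋₊ ⌊(w : ℝ) * J⌋₊ ⌊(U + h) * J⌋₊ J G B) := by
  obtain ⟨r, s, hs0, hsr, hrδ, hpe⟩ := id hp
  have hr' : (r : ℝ) ≤ δ := by exact_mod_cast hrδ
  have hs' : (0 : ℝ) < s := by exact_mod_cast hs0
  have hsr' : (s : ℝ) ≤ r := by exact_mod_cast hsr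
  have h01 : 0 < 1 - w₁ := by linarith
  unfold nmz at hq
  rw [div_le_iff₀ h01] at hq
  obtain ⟨N, rq, h3, h4⟩ := phi1_core (hn := hn) (σ := σ) (β := β) hl (S := S) hV hϱ hE hE1 hψ hd
    hw0 hwδ hLU hp hw hwa h1 h2 K (U := U) (h := h) (q₀ := 0) hU hh (by
      have h5 : 0 < h * (1 - w₁) := mul_pos hh h01
      linarith)
  exact ⟨⟨_, gdA_fin fun k hk => gdA_nd hn σ hϱ hE (h3 k hk) le_rfl⟩, h4⟩

/-- **(Phi1), case B.** -/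
theorem phi1_B {S : PCl n} {xs : ℝ} (hV : VdG w₁ δ M lamf Vd) (hϱ : 0 < M.ϱ) (hE : 0 ≤ M.E)
    (hE1 : M.E + M.ϱ ≤ 1) (hψ : ∀ q, 0 < M.ψ q) (hd : ∀ q, Vd q → 0 ≤ M.d q l) (hw0 : 0 < w₁)
    (hwδ : w₁ + δ < 1) (hLU : LUG w₁ δ (β l) lamf LU) {p : ℝ × ℝ} (hp : p ∈ Ngr w₁ δ) {a w : ℚ}
    (hw : 0 < w) (hwa : w ≤ a) (h1 : rho w₁ a < p.1) (h2 : rho w₁ w < p.2) (K : ℕ)
    {U h : ℝ} (hU : 0 ≤ U) (hh : 0 < h) (hq : nmz w₁ xs (LU p.1 p.2) ≤ U + h / 4) :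
    ∃ q : {R : DtP n // GdB hn σ hl M w₁ xs β Vd R}, ZPr S w₁ (ez hn σ l) q.1 (fun J G B =>
      ¬ (tgs (lst hn)).T () K ⌊(a : ℝ) * J⌋₊ ⌊(w : ℝ) * J⌋₊ ⌊(U + h) * J⌋₊ J G B) := by
  obtain ⟨r, s, hs0, hsr, hrδ, hpe⟩ := id hp
  have hr' : (r : ℝ) ≤ δ := by exact_mod_cast hrδ
  have hs' : (0 : ℝ) < s := by exact_mod_cast hs0
  have hsr' : (s : ℝ) ≤ r := by exact_mod_cast hsr
  have h01 : 0 < 1 - w₁ := by linarith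
  have h5 : 0 < h * (1 - w₁) := mul_pos hh h01
  unfold nmz at hq
  rw [div_le_iff₀ h01] at hq
  obtain ⟨N, rq, h3, h4⟩ := phi1_core (hn := hn) (σ := σ) (β := β) hl (S := S) hV hϱ hE hE1 hψ hd
    hw0 hwδ hLU hp hw hwa h1 h2 K (U := U) (h := h) (q₀ := xs - h * (1 - w₁) / 4) hU hh (by
      linarith)
  exact ⟨⟨_, gdB_fin fun k hk => gdB_nd hn σ hϱ hE (h3 k hk) (by linarith)⟩, h4⟩

end

section

variable {hn : 2 ≤ n} {S : PCl n} {P : ℝ → ℝ → ℝ} {r : ℝ → ℝ}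
  {P' : ℕ → List (Fin n) × Fin n → ℝ → ℝ → ℝ} {Λ : Finset (Fin n) → Fin n → ℝ → ℝ → ℝ}
  {o : Od n} {l : ℕ} {hl : l < n - 1} {M : MDat} {w₁ : ℝ} {β : ℕ → ℝ → ℝ → ℝ} {Vd : Rq → Prop}

/-- **(Phi2), case A.** -/
theorem phi2_A (H : Pk hn S P r P' Λ) (hF : FZX (n - 1)) (hg : w₁ ∈ Gs P r P' Λ o)
    (hR : ∀ δ : ℝ, 0 < δ → ∃ v ∈ Gs P r P' Λ o, w₁ < v ∧ v < w₁ + δ) (i : Fin n)
    (hi : (i : ℕ) < n - 1) {h : ℝ} (hh : 0 < h) (hq0 : 0 ≤ Qz hn P P' o l w₁ 0 i)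
    (hq1 : Qz hn P P' o l w₁ 0 i + h ≤ 1) :
    ∃ d : ℝ, 0 < d ∧ ∀ K : ℕ, ∃ q : {R : DtP n // GdA hn o.1.1 hl M w₁ β Vd R},
      ZPr S w₁ (ez hn o.1.1 l) q.1 (fun J G B =>
        ¬ LbR 8 G (Finset.univ.filter fun j : Fin n => (j : ℕ) < i) i K ⌊d * J⌋₊
          ⌊(Qz hn P P' o l w₁ 0 i + h) * J⌋₊ B) := by
  have h01 : 0 < 1 - w₁ := by linarith [hg.1.1.2.1]
  have h5 : 0 < h * (1 - w₁) := mul_pos hh h01
  have hε : 0 < h * (1 - w₁) / 2 := by linarith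
  obtain ⟨d, hd, -, h1⟩ := H.phi2_zpr hF (l := l) (ε := h * (1 - w₁) / 2) 2 hg hR
    (by linarith) hq1 hε.le (ez hn o.1.1 l) i hi (by
      have e1 : (Qz hn P P' o l w₁ 0 i + h) * (1 - w₁) = (1 - w₁) * Qz hn P P' o l w₁ 0 i +
        h * (1 - w₁) := by ring
      rw [e1]
      unfold Qz
      rw [nmz_mul hg.1.1.2.1]
      split_ifs <;> linarith)
  exact ⟨d, hd, fun K => ⟨⟨_, gdA_sl hn o.1.1 hi hε⟩, h1 K⟩⟩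

/-- **(Phi2), case B.** -/
theorem phi2_B (H : Pk hn S P r P' Λ) (hF : FZX (n - 1)) (hg : w₁ ∈ Gs P r P' Λ o)
    (hR : ∀ δ : ℝ, 0 < δ → ∃ v ∈ Gs P r P' Λ o, w₁ < v ∧ v < w₁ + δ) {xs : ℝ} (hxs : 0 ≤ xs)
    (i : Fin n) (hi : (i : ℕ) < n - 1) {h : ℝ} (hh : 0 < h) (hq0 : 0 ≤ Qz hn P P' o l w₁ xs i)
    (hq1 : Qz hn P P' o l w₁ xs i + h ≤ 1) :
    ∃ d : ℝ, 0 < d ∧ ∀ K : ℕ, ∃ q : {R : DtP n // GdB hn o.1.1 hl M w₁ xs β Vd R},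
      ZPr S w₁ (ez hn o.1.1 l) q.1 (fun J G B =>
        ¬ LbR 8 G (Finset.univ.filter fun j : Fin n => (j : ℕ) < i) i K ⌊d * J⌋₊
          ⌊(Qz hn P P' o l w₁ xs i + h) * J⌋₊ B) := by
  have h01 : 0 < 1 - w₁ := by linarith [hg.1.1.2.1]
  have h5 : 0 < h * (1 - w₁) := mul_pos hh h01
  obtain ⟨ε, hε⟩ : ∃ ε : ℝ, ε = (if (i : ℕ) = n - 2 then xs else 0) + h * (1 - w₁) / 2 := ⟨_, rfl⟩
  have hε0 : 0 < ε := by
    rw [hε]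
    split_ifs <;> linarith
  have hε2 : (i : ℕ) = n - 2 → xs < ε := fun h6 => by
    rw [hε, if_pos h6]
    linarith
  obtain ⟨d, hd, -, h1⟩ := H.phi2_zpr hF (l := l) (ε := ε) 2 hg hR
    (by linarith) hq1 hε0.le (ez hn o.1.1 l) i hi (by
      have e1 : (Qz hn P P' o l w₁ xs i + h) * (1 - w₁) = (1 - w₁) * Qz hn P P' o l w₁ xs i +
        h * (1 - w₁) := by ring
      rw [e1, hε]
      unfold Qz
      rw [nmz_mul hg.1.1.2.1]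
      split_ifs <;> linarith)
  exact ⟨d, hd, fun K => ⟨⟨_, gdB_sl hn o.1.1 hxs hi hε0 hε2⟩, h1 K⟩⟩

end

end Pool.Z4
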