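import Pool.Agent.H77.Z4.Ph

/-!
# The inequality between two windows from the data

`MOk`: the properties of the data of the nodes. `Zwd`: the numbers and the requests at the windows
`w₁`, `w₁ + δ`. `zbun_A`, `zbun_B`: the statements on the zooms in the two cases. `zw_of`: the
inequality for the windows between `w₁` and `w₁ + δ`, from the data on the events of the class.
-/

set_option autoImplicit false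

namespace Pool.Z4

open MeasureTheory Set Filter Topology
open Finset (range univ)
open Pool.Agent.H49.Ent Pool.Agent.H32.Dense Pool.STK Pool.KA Pool.KSAT Pool.K2S Pool.PB Pool.S6C
open Pool.GEN Pool.ONE Pool.EXW Pool.TOP Pool.ZCL Pool.ZLC Pool.ZFN Pool.ZCO Pool.PKG Pool.CHT
open Pool.LBT (ThrOf)
open Pool.LEV (Law)
open Pool.ALL (RateOf)

variable {n : ℕ}

/-- **The properties of the data of the nodes.** -/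
structure MOk (n : ℕ) (M : MDat) (Vd : Rq → Prop) : Prop where
  ϱ0 : 0 < M.ϱ
  E0 : 0 ≤ M.E
  E1 : M.E + M.ϱ ≤ 1
  ψ0 : ∀ q, 0 < M.ψ q
  d0 : ∀ q, Vd q → ∀ i ≤ n - 1, 0 ≤ M.d q i ∧ M.d q i ≤ q.σ

variable {hn : 2 ≤ n} {S : PCl n} {P : ℝ → ℝ → ℝ} {r : ℝ → ℝ}
  {P' : ℕ → List (Fin n) × Fin n → ℝ → ℝ → ℝ} {Λ : Finset (Fin n) → Fin n → ℝ → ℝ → ℝ}
  {o : Od n} {l : ℕ}

/-- **The numbers and the requests** at the windows `w₁`, `w₁ + δ`. -/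
structure Zwd (hn : 2 ≤ n) (P : ℝ → ℝ → ℝ) (r : ℝ → ℝ)
    (P' : ℕ → List (Fin n) × Fin n → ℝ → ℝ → ℝ) (Λ : Finset (Fin n) → Fin n → ℝ → ℝ → ℝ)
    (o : Od n) (l : ℕ) (w₁ : ℝ) (δ : ℚ) (M : MDat) (Vd : Rq → Prop) (β : ℕ → ℝ → ℝ → ℝ)
    (lamf LU : ℝ → ℝ → ℝ) : Prop where
  l1 : 1 ≤ l
  ln : l < n - 1
  δ0 : 0 < δ
  g1 : w₁ ∈ Gs P r P' Λ o
  gR : ∀ ε : ℝ, 0 < ε → ∃ v ∈ Gs P r P' Λ o, w₁ < v ∧ v < w₁ + ε
  gb : w₁ + δ ∈ Gs P r P' Λ o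
  /-- the numbers -/
  bet : ∀ i ≤ n - 1, ∀ a w : ℝ, β i a w = LL hn P P' o (i + 1) a w
  /-- the data -/
  ok : MOk n M Vd
  /-- room -/
  num : ∀ w : ℝ, w = w₁ ∨ w = w₁ + δ → ∀ i ≤ n - 1, β i w w + M.E + 2 * M.ϱ ≤ 1
  /-- the requests at the nodes of the grid are valid -/
  vd : VdG w₁ δ M lamf Vd
  /-- the losses vanish at the two windows -/
  lam : lamf w₁ w₁ = 0 ∧ lamf (w₁ + δ) (w₁ + δ) = 0
  /-- the numbers of the path -/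
  lu : LUG w₁ δ (β l) lamf LU
  /-- the numbers near the window `w₁` -/
  near : ∀ ε : ℝ, 0 < ε → ∃ t : ℝ, 0 < t ∧ ∀ a w : ℝ, w₁ < w → w ≤ a → a < w₁ + t →
    LU a w ≤ LL hn P P' o (l + 1) w₁ w₁ + ε

variable {w₁ : ℝ} {δ : ℚ} {M : MDat} {Vd : Rq → Prop} {β : ℕ → ℝ → ℝ → ℝ} {lamf LU : ℝ → ℝ → ℝ}

/-- The levels are at least the window. -/
theorem ll_ge (H : Pk hn S P r P' Λ) {w : ℝ} (h0 : 0 ≤ w) (h1 : w ≤ 1) {i : ℕ} (hi : i ≤ n - 1) :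
    w ≤ LL hn P P' o (i + 1) w w := by
  rcases hi.lt_or_eq with h2 | h2
  · rw [LL_low (by omega) (by omega)]
    exact (H.cht o.2).low _ w w h0 le_rfl h1
  · rw [h2, LL_lst]
    exact H.tgs.low () w w h0 le_rfl h1

/-- The numbers in the exclusion of the labels are not negative. -/
theorem qz_nn (H : Pk hn S P r P' Λ) (hg : w₁ ∈ Gs P r P' Λ o) {xs : ℝ}
    (hx : 0 ≤ xs) {i : ℕ} (hi : i < n - 1) : 0 ≤ Qz hn P P' o l w₁ xs i := by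
  have h0 := hg.1.1.1
  have h1 := hg.1.1.2.1
  have h2 := ll_ge (o := o) H h0.le h1.le (ix_le (l := l) hi)
  unfold Qz nmz
  refine div_nonneg ?_ (by linarith)
  split_ifs <;> linarith

/-- **The statements on the zooms in case A.** -/
theorem zbun_A (Z : Zwd hn P r P' Λ o l w₁ δ M Vd β lamf LU) (H : Pk hn S P r P' Λ)
    (hF : FZX (n - 1))
    (hZ : ZReq S w₁ (cc hn o.1.1 0) 2
      (fun R : {R : DtP n // GdA hn o.1.1 Z.ln M w₁ β Vd R} => R.1))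
    (hΨ₁ : ∀ v : ℚ, 0 < v → rho w₁ v < w₁ + δ → ∀ D : ℝ, 0 < D → D ≤ 1 →
      (∀ h : ℝ, 0 < h → ∃ w ∈ Gs P r P' Λ o, w < rho w₁ v ∧
        D - h < nmz w₁ 0 (LL hn P P' o (l + 1) w w)) → ∀ h : ℝ, 0 < h →
      ∃ K : ℕ, ∀ τ : ℝ, 0 < τ → ∃ q : {R : DtP n // GdA hn o.1.1 Z.ln M w₁ β Vd R},
        ZPr S w₁ (ez hn o.1.1 l) q.1 (fun J G A =>
        ∃ B : G.Ω → Prop, Sub B A ∧ Real.exp (-(τ * J)) * Pe G.p A ≤ Pe G.p B ∧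
        (tgs (lst hn)).T () K ⌊(v : ℝ) * J⌋₊ ⌊(v : ℝ) * J⌋₊ ⌊(D - h) * J⌋₊ J G B))
    (hΨ₂ : ∀ h : ℝ, 0 < h → ∃ q : {R : DtP n // GdA hn o.1.1 Z.ln M w₁ β Vd R},
      ZPr S w₁ (ez hn o.1.1 l) q.1 (fun J G A =>
      CH (Pool.Agent.H49.Ent.cond G.p A True)
        (fun ω => (G.X ⌊nmz w₁ 0 (LL hn P P' o (l + 1) (w₁ + δ) (w₁ + δ)) * J⌋₊ ω (lst hn),
          fun i : Fin (n - 1) => G.X J ω (bse i))) G.W ≤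
        (ebz hn P r P' o l w₁ (w₁ + δ) 0 + h) * Real.log 2 * J)) :
    ZBun hn S P r P' Λ o l w₁ (w₁ + δ) 0
      (fun R : {R : DtP n // GdA hn o.1.1 Z.ln M w₁ β Vd R} => R.1) (Ngr w₁ δ) LU where
  req := hZ
  phi2 i h1 h2 h hh hq := phi2_A (hl := Z.ln) H hF Z.g1 Z.gR i h2 hh
    (qz_nn H Z.g1 le_rfl h2) hq
  phi1 p hp a w hw hwa h1 h2 K U h hU hh hq := phi1_A (hl := Z.ln) Z.vd Z.ok.ϱ0 Z.ok.E0 Z.ok.E1
    Z.ok.ψ0 (fun q hq => (Z.ok.d0 q hq l (by have := Z.ln; omega)).1) Z.g1.1.1.1 Z.gb.1.1.2.1 Z.lu hp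
    hw hwa h1 h2 K hU hh hq
  psi1 := hΨ₁
  psi2 := hΨ₂

/-- **The statements on the zooms in case B.** -/
theorem zbun_B (Z : Zwd hn P r P' Λ o l w₁ δ M Vd β lamf LU) (H : Pk hn S P r P' Λ)
    (hF : FZX (n - 1)) {xs : ℝ} (hxs : 0 ≤ xs)
    (hZ : ZReq S w₁ (cc hn o.1.1 0) 2
      (fun R : {R : DtP n // GdB hn o.1.1 Z.ln M w₁ xs β Vd R} => R.1))
    (hΨ₁ : ∀ v : ℚ, 0 < v → rho w₁ v < w₁ + δ → ∀ D : ℝ, 0 < D → D ≤ 1 →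
      (∀ h : ℝ, 0 < h → ∃ w ∈ Gs P r P' Λ o, w < rho w₁ v ∧
        D - h < nmz w₁ xs (LL hn P P' o (l + 1) w w)) → ∀ h : ℝ, 0 < h →
      ∃ K : ℕ, ∀ τ : ℝ, 0 < τ → ∃ q : {R : DtP n // GdB hn o.1.1 Z.ln M w₁ xs β Vd R},
        ZPr S w₁ (ez hn o.1.1 l) q.1 (fun J G A =>
        ∃ B : G.Ω → Prop, Sub B A ∧ Real.exp (-(τ * J)) * Pe G.p A ≤ Pe G.p B ∧
        (tgs (lst hn)).T () K ⌊(v : ℝ) * J⌋₊ ⌊(v : ℝ) * J⌋₊ ⌊(D - h) * J⌋₊ J G B))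
    (hΨ₂ : ∀ h : ℝ, 0 < h → ∃ q : {R : DtP n // GdB hn o.1.1 Z.ln M w₁ xs β Vd R},
      ZPr S w₁ (ez hn o.1.1 l) q.1 (fun J G A =>
      CH (Pool.Agent.H49.Ent.cond G.p A True)
        (fun ω => (G.X ⌊nmz w₁ xs (LL hn P P' o (l + 1) (w₁ + δ) (w₁ + δ)) * J⌋₊ ω (lst hn),
          fun i : Fin (n - 1) => G.X J ω (bse i))) G.W ≤
        (ebz hn P r P' o l w₁ (w₁ + δ) xs + h) * Real.log 2 * J)) :
    ZBun hn S P r P' Λ o l w₁ (w₁ + δ) xs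
      (fun R : {R : DtP n // GdB hn o.1.1 Z.ln M w₁ xs β Vd R} => R.1) (Ngr w₁ δ) LU where
  req := hZ
  phi2 i h1 h2 h hh hq := phi2_B (hl := Z.ln) H hF Z.g1 Z.gR hxs i h2 hh
    (qz_nn H Z.g1 hxs h2) hq
  phi1 p hp a w hw hwa h1 h2 K U h hU hh hq := phi1_B (hl := Z.ln) Z.vd Z.ok.ϱ0 Z.ok.E0 Z.ok.E1
    Z.ok.ψ0 (fun q hq => (Z.ok.d0 q hq l (by have := Z.ln; omega)).1) Z.g1.1.1.1 Z.gb.1.1.2.1 Z.lu hp
    hw hwa h1 h2 K hU hh hq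
  psi1 := hΨ₁
  psi2 := hΨ₂

/-- The numbers at the nodes of the grid are not negative. -/
theorem Zwd.lu0 (Z : Zwd hn P r P' Λ o l w₁ δ M Vd β lamf LU) : ∀ p ∈ Ngr w₁ δ, 0 ≤ LU p.1 p.2 := by
  rintro p ⟨r', s, hs0, hsr, hrδ, rfl⟩
  obtain ⟨h1, h2, h3⟩ := Z.lu r' s r' hs0 hsr hrδ (hs0.le.trans hsr) le_rfl
  simp only
  linarith

/-- **The inequality between the windows** `w₁` and `w₁ + δ`, from the statements on the zooms. -/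
theorem zw_of (Z : Zwd hn P r P' Λ o l w₁ δ M Vd β lamf LU) (H : Pk hn S P r P' Λ)
    (hF : FZX 1) (hW : ∀ k, 2 ≤ k → k < n → RW k)
    {s : Fin n → ℝ} {d : ℕ → ℝ} {al : ℝ} {g₀ : ℝ → ℝ} {e₀ : ℝ} {K₀ : ℕ} {N : ℚ → ℚ → ℝ}
    (hal : 0 < al) (hg₀ : ∀ ε : ℝ, 0 < ε → 0 < g₀ ε) (hC : ClX s d al g₀ e₀ K₀ N S) {xs : ℝ}
    (hxs : 0 ≤ xs) {Req : Type*} {R : Req → DtP n}
    (B : ZBun hn S P r P' Λ o l w₁ (w₁ + δ) xs R (Ngr w₁ δ) LU)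
    {A : Set ℝ} {σ : ℝ → ℝ} {s₀ h₀ : ℝ} (hs : 1 < s₀) (hh₀ : h₀ ≤ 1)
    (hA : ∀ x ∈ A, w₁ < x → x < w₁ + δ → s₀ ≤ σ x ∧ LL hn P P' o (l + 1) x x < 1 ∧
      RgUp LU x (LL hn P P' o (l + 1) x x) (σ x) ∧
      DgLo (LL hn P P' o (l + 1)) x (LL hn P P' o (l + 1) x x) (σ x) ∧
      ContinuousAt (fun v => LL hn P P' o (l + 1) v v) x ∧ Nogap (Gs P r P' Λ o) x)
    (hM : ∀ (S' : PCl n) (P : ℝ → ℝ → ℝ) (r : ℝ → ℝ), ClX (fun _ => 0) (fun _ => 1) al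
      (fun x => min (g₀ (x / 2)) 1) 2 0 (NZR S (cc hn o.1.1 0) (al + 1) w₁) S' →
      ThrOf (tgs (lst hn)) S' (fun _ => P) → RateOf S' (lst hn) r → ∀ E, RgFull P r h₀ E) :
    ENNReal.ofReal ((1 - h₀) * s₀) * volume (A ∩ Ioo w₁ (w₁ + δ)) ≤
      ENNReal.ofReal (LL hn P P' o (l + 1) (w₁ + δ) (w₁ + δ) - LL hn P P' o (l + 1) w₁ w₁ -
        (P (w₁ + δ) (w₁ + δ) - P w₁ w₁ - (r (P (w₁ + δ) (w₁ + δ)) - r (P w₁ w₁)))) :=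
  B.ineq H hF hW hal hg₀ hC Z.l1 Z.ln Z.g1 (by
    have : (0 : ℝ) < δ := by exact_mod_cast Z.δ0
    linarith) Z.gb.1.1.2.1 hxs Z.near Z.lu0 (fun a w ε => ngr_dense a w ε) hs hh₀ hA hM

end Pool.Z4
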