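import Pool.Agent.H77.Z4.Res
import Pool.Agent.H80.ZC.Zfh
import Pool.Agent.H80.ZC.Lbp

/-!
# The inequality between two windows

`zin`: the statements on the zooms at the window `w₁` in the numbers of the family, for nodes above
(with numbers `LU`) and good windows below, give the inequality for the rough windows between `w₁`
and `wb`.
-/

set_option autoImplicit false

namespace Pool.Z4

open MeasureTheory Set Filter Topology
open Finset (range univ)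
open Pool.Agent.H49.Ent Pool.Agent.H32.Dense Pool.STK Pool.KA Pool.KSAT Pool.K2S Pool.PB Pool.S6C
open Pool.GEN Pool.ONE Pool.EXW Pool.TOP Pool.ZCL Pool.ZLC Pool.ZFN Pool.ZCO Pool.PKG Pool.CHT
open Pool.LBT (ThrOf)
open Pool.LEV (Law)
open Pool.ALL (RateOf)
open Pool.LBN (Tch)

variable {n : ℕ}

/-- The sum over the coordinates without one. -/
theorem sum_ix (f : ℕ → ℝ) {l k : ℕ} (hl : l ≤ k) :
    ∑ i ∈ range k, f (ix l i) + f l = ∑ j ∈ range (k + 1), f j := by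
  induction k, hl using Nat.le_induction with
  | base =>
    rw [Finset.sum_range_succ]
    congr 1
    refine Finset.sum_congr rfl fun i hi => ?_
    unfold ix
    rw [if_pos (Finset.mem_range.1 hi)]
  | succ k hk ih =>
    rw [Finset.sum_range_succ, Finset.sum_range_succ _ (k + 1), ← ih]
    have e1 : ix l k = k + 1 := by
      unfold ix
      rw [if_neg (by omega)]
    rw [e1]
    ring

variable {hn : 2 ≤ n} {S : PCl n} {P : ℝ → ℝ → ℝ} {r : ℝ → ℝ}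
  {P' : ℕ → List (Fin n) × Fin n → ℝ → ℝ → ℝ} {Λ : Finset (Fin n) → Fin n → ℝ → ℝ → ℝ}

/-- The numbers in the exclusion of the labels of the list coordinates. -/
noncomputable def Qz (hn : 2 ≤ n) (P : ℝ → ℝ → ℝ) (P' : ℕ → List (Fin n) × Fin n → ℝ → ℝ → ℝ)
    (o : Od n) (l : ℕ) (w₁ xs : ℝ) (i : ℕ) : ℝ :=
  nmz w₁ (if i = n - 2 then -xs else 0) (LL hn P P' o (ix l i + 1) w₁ w₁)

/-- The entropy bound. -/
noncomputable def ebz (hn : 2 ≤ n) (P : ℝ → ℝ → ℝ) (r : ℝ → ℝ)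
    (P' : ℕ → List (Fin n) × Fin n → ℝ → ℝ → ℝ) (o : Od n) (l : ℕ) (w₁ wb xs : ℝ) : ℝ :=
  (∑ j ∈ range (n - 1), (1 - LL hn P P' o (j + 1) w₁ w₁) + (r (P wb wb) - r (P w₁ w₁)) +
    (1 - xs - P wb wb) - (1 - LL hn P P' o (l + 1) wb wb)) / (1 - w₁)

/-- The count of the numbers. -/
theorem count_z {o : Od n} {l : ℕ} (hl1 : 1 ≤ l) (hl : l < n - 1) {w₁ wb xs : ℝ} (h1 : w₁ < 1)
    (h0 : w₁ ≤ LL hn P P' o 1 w₁ w₁) :
    (1 - w₁) * (ebz hn P r P' o l w₁ wb xs -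
      (1 + ∑ i ∈ range (n - 2), (1 - Qz hn P P' o l w₁ xs (i + 1)))) ≤
      LL hn P P' o (l + 1) wb wb - LL hn P P' o (l + 1) w₁ w₁ -
        (P wb wb - P w₁ w₁ - (r (P wb wb) - r (P w₁ w₁))) := by
  have h1w : 0 < 1 - w₁ := by linarith
  obtain ⟨f, hf⟩ : ∃ f : ℕ → ℝ, f = fun j => if j = n - 1 then 1 - P w₁ w₁ - xs
    else 1 - LL hn P P' o (j + 1) w₁ w₁ := ⟨_, rfl⟩
  have hfl : f l = 1 - LL hn P P' o (l + 1) w₁ w₁ := by
    rw [hf]
    exact if_neg (by omega)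
  have hfn : f (n - 1) = 1 - P w₁ w₁ - xs := by
    rw [hf]
    exact if_pos rfl
  have hn1 : n - 1 = (n - 2) + 1 := by omega
  -- the sum of the numbers
  have e1 : (1 - w₁) * (1 + ∑ i ∈ range (n - 2), (1 - Qz hn P P' o l w₁ xs (i + 1))) =
      (1 - w₁) + ∑ i ∈ range (n - 2), f (ix l (i + 1)) := by
    rw [mul_add, mul_one, Finset.mul_sum]
    congr 1
    refine Finset.sum_congr rfl fun i hi => ?_
    have hi' := Finset.mem_range.1 hi
    unfold Qz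
    rw [mul_sub, mul_one, nmz_mul h1, hf]
    by_cases h2 : i + 1 = n - 2
    · have h3 : ix l (i + 1) = n - 1 := by
        unfold ix
        rw [if_neg (by omega)]
        omega
      simp only [h2, if_true]
      rw [← h2, h3, LL_lst]
      simp only [if_true]
      ring
    · have h3 : ix l (i + 1) ≠ n - 1 := by
        unfold ix
        split_ifs <;> omega
      simp only [h2, h3, if_false]
      ring
  have e2 : ∑ i ∈ range (n - 1), f (ix l i) = f (ix l 0) + ∑ i ∈ range (n - 2), f (ix l (i + 1)) := by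
    rw [hn1, Finset.sum_range_succ', add_comm]
  have e3 := sum_ix f (show l ≤ n - 1 by omega)
  have e4 : f (ix l 0) ≤ 1 - w₁ := by
    have : ix l 0 = 0 := by
      unfold ix
      rw [if_pos (by omega)]
    rw [this, hf]
    simp only
    rw [if_neg (by omega)]
    linarith
  have e5 : ∑ j ∈ range (n - 1 + 1), f j = ∑ j ∈ range (n - 1),
      (1 - LL hn P P' o (j + 1) w₁ w₁) + (1 - P w₁ w₁ - xs) := by
    rw [Finset.sum_range_succ, hfn]
    congr 1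
    refine Finset.sum_congr rfl fun j hj => ?_
    have := Finset.mem_range.1 hj
    rw [hf]
    exact if_neg (by omega)
  have e6 : (1 - w₁) * ebz hn P r P' o l w₁ wb xs =
      ∑ j ∈ range (n - 1), (1 - LL hn P P' o (j + 1) w₁ w₁) + (r (P wb wb) - r (P w₁ w₁)) +
      (1 - xs - P wb wb) - (1 - LL hn P P' o (l + 1) wb wb) := by
    unfold ebz
    field_simp
  rw [mul_sub, e6, e1]
  linarith

/-- **The inequality between two windows.** -/
theorem zin (H : Pk hn S P r P' Λ) (hF : FZX 1) (hW : ∀ k, 2 ≤ k → k < n → RW k)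
    {s : Fin n → ℝ} {d : ℕ → ℝ} {al : ℝ} {g₀ : ℝ → ℝ} {e₀ : ℝ} {K₀ : ℕ} {N : ℚ → ℚ → ℝ}
    (hal : 0 < al) (hg₀ : ∀ ε : ℝ, 0 < ε → 0 < g₀ ε) (hC : ClX s d al g₀ e₀ K₀ N S)
    {o : Od n} {l : ℕ} (hl1 : 1 ≤ l) (hl : l < n - 1) {w₁ wb xs : ℝ} (hw0 : 0 < w₁)
    (hwb : w₁ < wb) (hwb1 : wb < 1) (hx0 : 0 ≤ xs) (hx1 : w₁ + xs ≤ LL hn P P' o (l + 1) w₁ w₁)
    {cL : ℝ} {Req : Type*} {R : Req → DtP n} (hD : ZReq S w₁ (cc hn o.1.1 0) cL R)
    {Nd : Set (ℝ × ℝ)} {Wd : Set ℝ} {LU : ℝ → ℝ → ℝ} (hLU0 : ∀ p ∈ Nd, 0 ≤ LU p.1 p.2)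
    (hNd : ∀ a w δ : ℝ, 0 < δ → w₁ < w → w ≤ a → a < wb → ∃ p ∈ Nd, a < p.1 ∧ p.1 < a + δ ∧
      w < p.2 ∧ p.2 < w + δ ∧ p.2 ≤ p.1)
    (hWd0 : ∀ w ∈ Wd, 0 ≤ w ∧ w ≤ 1) (hWd : w₁ ∈ Wd)
    {Rr : ℝ} (hRr : 0 ≤ Rr)
    (hΦ₂ : ∀ i : Fin n, 1 ≤ (i : ℕ) → (i : ℕ) < n - 1 → ∀ h : ℝ, 0 < h →
      Qz hn P P' o l w₁ xs i + h ≤ 1 →
      ∃ d : ℝ, 0 < d ∧ ∀ K : ℕ, ∃ q : Req, ZPr S w₁ (ez hn o.1.1 l) (R q) (fun J G B =>
        ¬ LbR Rr G (Finset.univ.filter fun j : Fin n => (j : ℕ) < i) i K ⌊d * J⌋₊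
          ⌊(Qz hn P P' o l w₁ xs i + h) * J⌋₊ B))
    (hΦ₁ : ∀ p ∈ Nd, ∀ a w : ℚ, 0 < w → w ≤ a → rho w₁ a < p.1 → rho w₁ w < p.2 →
      ∀ (K : ℕ) (U h : ℝ), 0 ≤ U → 0 < h → nmz w₁ xs (LU p.1 p.2) ≤ U + h / 4 →
      ∃ q : Req, ZPr S w₁ (ez hn o.1.1 l) (R q) (fun J G B =>
        ¬ (tgs (lst hn)).T () K ⌊(a : ℝ) * J⌋₊ ⌊(w : ℝ) * J⌋₊ ⌊(U + h) * J⌋₊ J G B))
    (hΨ₁ : ∀ v : ℚ, 0 < v → rho w₁ v < wb → ∀ D : ℝ, 0 < D → D ≤ 1 →
      (∀ h : ℝ, 0 < h → ∃ w ∈ Wd, w < rho w₁ v ∧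
        D - h < nmz w₁ xs (LL hn P P' o (l + 1) w w)) → ∀ h : ℝ, 0 < h →
      ∃ K : ℕ, ∀ τ : ℝ, 0 < τ → ∃ q : Req, ZPr S w₁ (ez hn o.1.1 l) (R q) (fun J G A =>
        ∃ B : G.Ω → Prop, Sub B A ∧ Real.exp (-(τ * J)) * Pe G.p A ≤ Pe G.p B ∧
        (tgs (lst hn)).T () K ⌊(v : ℝ) * J⌋₊ ⌊(v : ℝ) * J⌋₊ ⌊(D - h) * J⌋₊ J G B))
    (hΨ₂ : ∀ h : ℝ, 0 < h → ∃ q : Req, ZPr S w₁ (ez hn o.1.1 l) (R q) (fun J G A =>
      CH (Pool.Agent.H49.Ent.cond G.p A True)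
        (fun ω => (G.X ⌊nmz w₁ xs (LL hn P P' o (l + 1) wb wb) * J⌋₊ ω (lst hn),
          fun i : Fin (n - 1) => G.X J ω (bse i))) G.W ≤
        (ebz hn P r P' o l w₁ wb xs + h) * Real.log 2 * J))
    {A : Set ℝ} {σ : ℝ → ℝ} {s₀ h₀ : ℝ} (hs : 1 < s₀) (hh₀ : h₀ ≤ 1)
    (hA : ∀ x ∈ A, w₁ < x → x < wb → s₀ ≤ σ x ∧ LL hn P P' o (l + 1) x x < 1 ∧
      RgUp LU x (LL hn P P' o (l + 1) x x) (σ x) ∧
      DgLo (LL hn P P' o (l + 1)) x (LL hn P P' o (l + 1) x x) (σ x) ∧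
      ContinuousAt (fun v => LL hn P P' o (l + 1) v v) x ∧ Nogap Wd x)
    (hM : ∀ (S' : PCl n) (P : ℝ → ℝ → ℝ) (r : ℝ → ℝ), ClX (fun _ => 0) (fun _ => 1) al
      (fun x => min (g₀ (x / 2)) 1) 2 0 (NZR S (cc hn o.1.1 0) (al + 1) w₁) S' →
      ThrOf (tgs (lst hn)) S' (fun _ => P) → RateOf S' (lst hn) r → ∀ E, RgFull P r h₀ E) :
    ENNReal.ofReal ((1 - h₀) * s₀) * volume (A ∩ Ioo w₁ wb) ≤
      ENNReal.ofReal (LL hn P P' o (l + 1) wb wb - LL hn P P' o (l + 1) w₁ w₁ -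
        (P wb wb - P w₁ w₁ - (r (P wb wb) - r (P w₁ w₁)))) := by
  have h1 : w₁ < 1 := by linarith
  have h1w : 0 < 1 - w₁ := by linarith
  -- the laws
  have hlaw : ∀ i < n - 1, Law (LL hn P P' o (i + 1)) ∧
      (∀ a w : ℝ, 0 ≤ w → w ≤ a → a ≤ 1 → a ≤ LL hn P P' o (i + 1) a w ∧
        LL hn P P' o (i + 1) a w ≤ 1) := by
    intro i hi
    rw [LL_low (by omega) (by omega)]
    exact ⟨(H.cht o.2).law _, fun a w h0 h1 h2 =>
      ⟨(H.cht o.2).low _ a w h0 h1 h2, (H.cht o.2).up _ a w h0 h1 h2⟩⟩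
  obtain ⟨L, hL⟩ : ∃ L, L = LL hn P P' o (l + 1) := ⟨_, rfl⟩
  obtain ⟨hLL, hLb⟩ := hlaw l hl
  rw [← hL] at hLL hLb hx1 hA hΨ₁ hΨ₂ ⊢
  have hsl : ∀ x y : ℝ, 0 ≤ x → x < y → y ≤ 1 → L x x < 1 → L x x + (y - x) ≤ L y y ∨
      L y y = 1 := by
    intro x y h2 h3 h4 h5
    have h6 := hLL.slope x x (y - x) h2 le_rfl (by linarith) (by linarith)
    rw [add_sub_cancel] at h6
    have h7 := hLL.mono_w y x y h2 h3.le le_rfl h4
    rcases min_choice 1 (L x x + (y - x)) with h8 | h8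
    · right
      rw [h8] at h6
      exact le_antisymm (hLb y y (by linarith) le_rfl h4).2 (h6.trans h7)
    · left
      rw [h8] at h6
      exact h6.trans h7
  have hinc : ∀ x y : ℝ, 0 ≤ x → x < y → y ≤ 1 → L x x < 1 → L x x < L y y := by
    intro x y h2 h3 h4 h5
    rcases hsl x y h2 h3 h4 h5 with h6 | h6
    · linarith
    · rw [h6]
      exact h5
  have hL1 : L w₁ w₁ < 1 ∨ A ∩ Ioo w₁ wb = ∅ := by
    by_contra hcon
    push Not at hcon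
    obtain ⟨h2, x, hx, hx2⟩ := hcon
    have h3 := (hA x hx hx2.1 hx2.2).2.1
    have h4 := hLL.mono hw0.le le_rfl hx2.1.le hx2.1.le le_rfl (by linarith [hx2.2])
    linarith
  rcases hL1 with hL1 | hL1
  swap
  · rw [hL1, measure_empty, mul_zero]
    exact zero_le
  have hxpos : ∀ x : ℝ, w₁ < x → x ≤ 1 → 0 < nmz w₁ xs (L x x) := by
    intro x h2 h3
    have h4 := hinc w₁ x hw0.le h2 h3 hL1
    unfold nmz
    exact div_pos (by linarith) h1w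
  have hnm1 : ∀ y : ℝ, y ≤ 1 → nmz w₁ xs y ≤ 1 := by
    intro y hy
    unfold nmz
    rw [div_le_one h1w]
    linarith
  have hrb : ∀ a : ℝ, a < rin w₁ wb → rho w₁ a < wb := by
    intro a ha
    unfold rin at ha
    rw [lt_div_iff₀ h1w] at ha
    unfold rho
    linarith
  have hWd1 : ∀ w ∈ Wd, (fun v => L v v) w ≤ 1 := fun w hw =>
    (hLb w w (hWd0 w hw).1 le_rfl (hWd0 w hw).2).2
  have hmain := zcof_fin hn hF hW hal hg₀ hC.actm (S := S) (C₀ := 6) (by norm_num) H.tmc hw0 h1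
    (e := ez hn o.1.1 l) (kap := cc hn o.1.1 0) (fun k hk => ez_zero hn _ hl1 hk)
    (hC.actb _ (by
      rw [cc_lt hn _ (show 0 < n - 1 by omega)]
      exact o.1.2 _ rfl)) hD (Q := Qz hn P P' o l w₁ xs) ?_ hRr hΦ₂
    (U := upz LU Nd w₁ xs) (D := loz (fun v => L v v) Wd w₁ xs) (σ := fun v => σ (rho w₁ v))
    (b₁ := rin w₁ wb) ?_ ?_ ?_ (Qb := nmz w₁ xs (L wb wb)) (eb := ebz hn P r P' o l w₁ wb xs)
    (hxpos wb hwb hwb1.le).le (hnm1 _ (hLb wb wb (by linarith) le_rfl hwb1.le).2) hΨ₂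
    (E := {v | rho w₁ v ∈ A ∩ Ioo w₁ wb}) hs hh₀ ?_
    (fun S' P₁ r₁ hC₁ hT₁ hr₁ => hM S' P₁ r₁ hC₁ hT₁ hr₁ _)
  · -- the inequality
    have h0 : w₁ ≤ LL hn P P' o 1 w₁ w₁ := ((hlaw 0 (by omega)).2 w₁ w₁ hw0.le le_rfl h1.le).1
    have hcnt := count_z (r := r) hl1 hl (wb := wb) (xs := xs) h1 h0
    rw [← hL] at hcnt
    rw [← vol_rin h1 (A ∩ Ioo w₁ wb)]
    calc ENNReal.ofReal ((1 - h₀) * s₀) * (ENNReal.ofReal (1 - w₁) *
          volume {v | rho w₁ v ∈ A ∩ Ioo w₁ wb}) =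
        ENNReal.ofReal (1 - w₁) * (ENNReal.ofReal ((1 - h₀) * s₀) *
          volume {v | rho w₁ v ∈ A ∩ Ioo w₁ wb}) := by ring
      _ ≤ ENNReal.ofReal (1 - w₁) * ENNReal.ofReal (ebz hn P r P' o l w₁ wb xs -
          (1 + ∑ i ∈ range (n - 2), (1 - Qz hn P P' o l w₁ xs (i + 1)))) := by gcongr
      _ = ENNReal.ofReal ((1 - w₁) * (ebz hn P r P' o l w₁ wb xs -
          (1 + ∑ i ∈ range (n - 2), (1 - Qz hn P P' o l w₁ xs (i + 1))))) :=
        (ENNReal.ofReal_mul h1w.le).symm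
      _ ≤ _ := ENNReal.ofReal_le_ofReal hcnt
  · -- the numbers are not negative
    intro i
    unfold Qz nmz
    refine div_nonneg ?_ h1w.le
    have hge : w₁ ≤ LL hn P P' o (ix l i + 1) w₁ w₁ := by
      rcases Nat.lt_trichotomy (ix l i) (n - 1) with h2 | h2 | h2
      · exact ((hlaw _ h2).2 w₁ w₁ hw0.le le_rfl h1.le).1
      · rw [h2, LL_lst]
        exact H.tgs.low () w₁ w₁ hw0.le le_rfl h1.le
      · unfold PKG.LL
        rw [if_neg (by omega), if_neg (by omega), if_neg (by omega)]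
    split_ifs <;> linarith
  · -- b₁
    unfold rin
    rw [div_le_one h1w]
    linarith
  · -- Phi1
    intro a w hw hwa ha K h hh
    have hwa' : (w : ℝ) ≤ a := by exact_mod_cast hwa
    have hw' : (0 : ℝ) < w := by exact_mod_cast hw
    have hρw : w₁ < rho w₁ w := by
      unfold rho
      have : 0 < (1 - w₁) * (w : ℝ) := by positivity
      linarith
    have hρa := hrb a ha
    obtain ⟨p, hp, p1, -, p3, -, p5⟩ := hNd (rho w₁ a) (rho w₁ w) 1 one_pos hρw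
      (rho_mono h1 hwa') hρa
    obtain ⟨q, hq, q1, q2, q3, q4⟩ := upz_ex (L := LU) (x := xs) (h := h / 4) (by linarith)
      ⟨p, hp, p1, p3, p5⟩
    exact hΦ₁ q hq a w hw hwa q1 q2 K _ h (le_max_left _ _) hh q4
  · -- Psi1
    intro v hv hvb
    have hv' : (0 : ℝ) < v := by exact_mod_cast hv
    have hρv : w₁ < rho w₁ v := by
      unfold rho
      have : 0 < (1 - w₁) * (v : ℝ) := by positivity
      linarith
    have hρb := hrb v hvb
    have hne : ∃ w ∈ Wd, w < rho w₁ v := ⟨w₁, hWd, hρv⟩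
    have hle1 : loz (fun v => L v v) Wd w₁ xs v ≤ 1 := by
      unfold loz
      refine csSup_le ⟨_, w₁, hWd, hρv, rfl⟩ ?_
      rintro _ ⟨w', hw', -, rfl⟩
      exact hnm1 _ (hWd1 w' hw')
    refine ⟨hle1, fun h hh => ?_⟩
    rcases lt_or_ge 0 (loz (fun v => L v v) Wd w₁ xs v) with hpos | hpos
    · refine hΨ₁ v hv hρb _ hpos hle1 (fun h' hh' => ?_) h hh
      obtain ⟨w', hw', k1, k2⟩ := loz_ex (D := fun v => L v v) (x := xs) (h := h' / 2)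
        (by linarith) hne
      exact ⟨w', hw', k1, by linarith⟩
    · -- trivial labels
      refine ⟨0, fun τ hτ => ?_⟩
      obtain ⟨q, ψ, hψ, τ₀, hτ₀, J₀, -⟩ := hΨ₂ 1 one_pos
      obtain ⟨J₂, hJ₂⟩ := Pool.GEN.lin (1 : ℝ) (show 0 < (1 - w₁) * (v : ℝ) by positivity)
      refine ⟨q, ψ, hψ, τ₀, hτ₀, max J₀ J₂, ?_⟩
      intro J hJ F A' hS κ C' z z' hcl hDt hlw J' hJJ B hBA hPB
      have hJ2 := hJ₂ J ((le_max_right _ _).trans hJ)
      have hv1 : (v : ℝ) ≤ 1 := by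
        by_contra hcon
        push Not at hcon
        have h3 := mul_lt_mul_of_pos_left hcon h1w
        unfold rho at hρb
        linarith
      have hWr : (⌊w₁ * (J : ℝ)⌋₊ : ℝ) ≤ w₁ * J := Nat.floor_le (by positivity)
      have hsum : (⌊w₁ * (J : ℝ)⌋₊ : ℝ) + J' = J := by exact_mod_cast hJJ
      have hvJ : 1 ≤ (v : ℝ) * J' := by
        have h3 : (1 - w₁) * (J : ℝ) ≤ J' := by
          have : (1 - w₁) * (J : ℝ) = J - w₁ * J := by ring
          linarith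
        have h4 := mul_le_mul_of_nonneg_left h3 hv'.le
        have e1 : (v : ℝ) * ((1 - w₁) * J) = (1 - w₁) * v * J := by ring
        linarith
      have htr : ∀ (G : Fam n J') (B : G.Ω → Prop), (tgs (lst hn)).T () 0 ⌊(v : ℝ) * J'⌋₊
          ⌊(v : ℝ) * J'⌋₊ ⌊(loz (fun v => L v v) Wd w₁ xs v - h) * J'⌋₊ J' G B := by
        intro G B
        refine ⟨[], List.nodup_nil, List.not_mem_nil, Tch.trivial ?_ ?_ le_rfl B⟩
        · rw [Nat.floor_of_nonpos (mul_nonpos_of_nonpos_of_nonneg (by linarith)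
            (Nat.cast_nonneg J')), zero_add]
          exact Nat.le_floor (by exact_mod_cast hvJ)
        · refine Nat.floor_le_of_le ?_
          have := mul_le_mul_of_nonneg_right hv1 (Nat.cast_nonneg (α := ℝ) J')
          linarith
      refine ⟨B, fun _ h => h, ?_, ?_⟩
      swap
      · exact htr _ _
      refine mul_le_of_le_one_left ?_ ?_
      · exact Pe_nonneg (Fam.isLaw _) _
      rw [Real.exp_le_one_iff]
      have : 0 ≤ τ * (J' : ℝ) := by positivity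
      linarith
  · -- the windows
    rintro v ⟨hvA, hv1, hv2⟩
    obtain ⟨x, hx⟩ : ∃ x, x = rho w₁ v := ⟨_, rfl⟩
    have hvx : v = rin w₁ x := by rw [hx, rin_rho h1]
    rw [← hx] at hvA hv1 hv2 ⊢
    obtain ⟨a1, a2, a3, a4, a5, a6⟩ := hA x hvA hv1 hv2
    have hσ : 0 < σ x := by linarith
    have hx0' : 0 ≤ x := by linarith
    have hDv : loz (fun v => L v v) Wd w₁ xs v = nmz w₁ xs (L x x) := by
      rw [hvx]
      exact loz_eq (D := fun v => L v v) h1 (fun w hw hwx =>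
        hLL.mono (hWd0 w hw).1 le_rfl hwx.le hwx.le le_rfl (by linarith)) hWd1 a6 a5
    have hDx := hxpos x hv1 (by linarith)
    have hxb := hinc x wb hx0' hv2 hwb1.le a2
    refine ⟨?_, ?_, a1, ?_, ?_, ?_, ?_⟩
    · rw [hvx]
      unfold rin
      exact div_pos (by linarith) h1w
    · rw [hvx]
      unfold rin
      exact div_lt_div_of_pos_right (by linarith) h1w
    · rw [hDv, hvx]
      exact upz_rg hw0.le h1 hv1 hv2 hLU0 hNd a3 hσ hDx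
    · rw [hDv, hvx]
      refine loz_dg (D := fun v => L v v) hw0.le h1 hv1 hv2 hWd1 a6 ?_ hσ
      intro e he
      exact a4 e he
    · rw [hDv]
      exact hDx
    · rw [hDv]
      unfold nmz
      exact div_lt_div_of_pos_right (by linarith) h1w

end Pool.Z4
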