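import Pool.Agent.H39.GEN.Zfn

/-!
# The numbers of the zooms

`upz L Nd w₁ x`: the upper bound of the thresholds in the zooms at the window `w₁`, from the numbers
`L` at the nodes `Nd`. `loz D Wd w₁ x`: the lower bound of the diagonal, from the good windows `Wd`.
`upz_rg`, `loz_dg`: they are rough from above and at least the line at the windows where `L` is
rough.
-/

set_option autoImplicit false

namespace Pool.Z4

open MeasureTheory Set Filter Topology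
open Pool.ZFN (RgUp DgLo)

/-- The window of the family. -/
def rho (w₁ v : ℝ) : ℝ := w₁ + (1 - w₁) * v

theorem rho_mono {w₁ : ℝ} (h : w₁ < 1) {v v' : ℝ} (hv : v ≤ v') : rho w₁ v ≤ rho w₁ v' := by
  unfold rho
  have := mul_le_mul_of_nonneg_left hv (show (0 : ℝ) ≤ 1 - w₁ by linarith)
  linarith

/-- The window of the zoom. -/
noncomputable def rin (w₁ x : ℝ) : ℝ := (x - w₁) / (1 - w₁)

theorem rho_rin {w₁ : ℝ} (h : w₁ < 1) (x : ℝ) : rho w₁ (rin w₁ x) = x := by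
  have : (1 - w₁) ≠ 0 := by linarith
  unfold rho rin
  field_simp
  ring

theorem rin_rho {w₁ : ℝ} (h : w₁ < 1) (v : ℝ) : rin w₁ (rho w₁ v) = v := by
  have : (1 - w₁) ≠ 0 := by linarith
  unfold rho rin
  field_simp
  ring

/-- The number of the zoom. -/
noncomputable def nmz (w₁ x y : ℝ) : ℝ := (y - x - w₁) / (1 - w₁)

theorem nmz_mono {w₁ x : ℝ} (h : w₁ < 1) {y y' : ℝ} (hy : y ≤ y') : nmz w₁ x y ≤ nmz w₁ x y' :=
  div_le_div_of_nonneg_right (by linarith) (by linarith)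

theorem nmz_mul {w₁ x : ℝ} (h : w₁ < 1) (y : ℝ) : (1 - w₁) * nmz w₁ x y = y - x - w₁ := by
  have : (1 - w₁) ≠ 0 := by linarith
  unfold nmz
  field_simp

/-- The numbers at the nodes above. -/
def upS (L : ℝ → ℝ → ℝ) (Nd : Set (ℝ × ℝ)) (w₁ x a w : ℝ) : Set ℝ :=
  {y | ∃ p ∈ Nd, rho w₁ a < p.1 ∧ rho w₁ w < p.2 ∧ p.2 ≤ p.1 ∧ y = nmz w₁ x (L p.1 p.2)}

/-- **The upper bound of the thresholds.** -/
noncomputable def upz (L : ℝ → ℝ → ℝ) (Nd : Set (ℝ × ℝ)) (w₁ x a w : ℝ) : ℝ :=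
  max 0 (sInf (upS L Nd w₁ x a w))

/-- The numbers at the good windows below. -/
def loS (D : ℝ → ℝ) (Wd : Set ℝ) (w₁ x v : ℝ) : Set ℝ :=
  {y | ∃ w ∈ Wd, w < rho w₁ v ∧ y = nmz w₁ x (D w)}

/-- **The lower bound of the diagonal.** -/
noncomputable def loz (D : ℝ → ℝ) (Wd : Set ℝ) (w₁ x v : ℝ) : ℝ := sSup (loS D Wd w₁ x v)

theorem upS_bdd {L : ℝ → ℝ → ℝ} {Nd : Set (ℝ × ℝ)} {w₁ x : ℝ} (h1 : w₁ < 1)
    (hL : ∀ p ∈ Nd, 0 ≤ L p.1 p.2) (a w : ℝ) : BddBelow (upS L Nd w₁ x a w) := by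
  refine ⟨nmz w₁ x 0, ?_⟩
  rintro _ ⟨p, hp, -, -, -, rfl⟩
  exact nmz_mono h1 (hL p hp)

theorem loS_bdd {D : ℝ → ℝ} {Wd : Set ℝ} {w₁ x : ℝ} (h1 : w₁ < 1)
    (hD : ∀ w ∈ Wd, D w ≤ 1) (v : ℝ) : BddAbove (loS D Wd w₁ x v) := by
  refine ⟨nmz w₁ x 1, ?_⟩
  rintro _ ⟨w, hw, -, rfl⟩
  exact nmz_mono h1 (hD w hw)

/-- A node near the upper bound. -/
theorem upz_ex {L : ℝ → ℝ → ℝ} {Nd : Set (ℝ × ℝ)} {w₁ x a w h : ℝ} (hh : 0 < h)
    (hne : ∃ p ∈ Nd, rho w₁ a < p.1 ∧ rho w₁ w < p.2 ∧ p.2 ≤ p.1) :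
    ∃ p ∈ Nd, rho w₁ a < p.1 ∧ rho w₁ w < p.2 ∧ p.2 ≤ p.1 ∧
      nmz w₁ x (L p.1 p.2) ≤ upz L Nd w₁ x a w + h := by
  obtain ⟨p, hp, h1, h2, h3⟩ := hne
  have h4 : (upS L Nd w₁ x a w).Nonempty := ⟨_, p, hp, h1, h2, h3, rfl⟩
  obtain ⟨y, ⟨q, hq, k1, k2, k3, rfl⟩, k4⟩ := exists_lt_of_csInf_lt h4
    (show sInf (upS L Nd w₁ x a w) < sInf (upS L Nd w₁ x a w) + h by linarith)
  refine ⟨q, hq, k1, k2, k3, ?_⟩
  have := le_max_right 0 (sInf (upS L Nd w₁ x a w))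
  unfold upz
  linarith

/-- A good window near the lower bound. -/
theorem loz_ex {D : ℝ → ℝ} {Wd : Set ℝ} {w₁ x v h : ℝ} (hh : 0 < h)
    (hne : ∃ w ∈ Wd, w < rho w₁ v) :
    ∃ w ∈ Wd, w < rho w₁ v ∧ loz D Wd w₁ x v - h ≤ nmz w₁ x (D w) := by
  obtain ⟨w, hw, h1⟩ := hne
  have h4 : (loS D Wd w₁ x v).Nonempty := ⟨_, w, hw, h1, rfl⟩
  obtain ⟨y, ⟨q, hq, k1, rfl⟩, k4⟩ := exists_lt_of_lt_csSup h4
    (show sSup (loS D Wd w₁ x v) - h < sSup (loS D Wd w₁ x v) by linarith)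
  exact ⟨q, hq, k1, k4.le⟩

/-- **The upper bound is rough** where `L` is rough. -/
theorem upz_rg {L : ℝ → ℝ → ℝ} {Nd : Set (ℝ × ℝ)} {w₁ wb xs x Dx σ : ℝ} (h0 : 0 ≤ w₁)
    (h1 : w₁ < 1) (hx1 : w₁ < x) (hx2 : x < wb) (hL0 : ∀ p ∈ Nd, 0 ≤ L p.1 p.2)
    (hNd : ∀ a w δ : ℝ, 0 < δ → w₁ < w → w ≤ a → a < wb → ∃ p ∈ Nd, a < p.1 ∧ p.1 < a + δ ∧
      w < p.2 ∧ p.2 < w + δ ∧ p.2 ≤ p.1)
    (hL : RgUp L x Dx σ) (hσ : 0 < σ) (hpos : 0 < nmz w₁ xs Dx) :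
    RgUp (upz L Nd w₁ xs) (rin w₁ x) (nmz w₁ xs Dx) σ := by
  have h1w : 0 < 1 - w₁ := by linarith
  intro e he
  obtain ⟨r₁, hr₁, k1⟩ := hL (e / 8) (by linarith)
  obtain ⟨D, hD⟩ : ∃ D, D = nmz w₁ xs Dx := ⟨_, rfl⟩
  rw [← hD] at hpos ⊢
  refine ⟨min (min (r₁ / 2) ((x - w₁) / 2)) (min ((wb - x) / 2) (D / (σ + 1))),
    lt_min (lt_min (by linarith) (by linarith)) (lt_min (by linarith) (by positivity)),
    fun r hr hr' a w hw hwa ha => ?_⟩
  have m1 : r < r₁ / 2 := (hr'.trans_le (min_le_left _ _)).trans_le (min_le_left _ _)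
  have m2 : r < (x - w₁) / 2 := (hr'.trans_le (min_le_left _ _)).trans_le (min_le_right _ _)
  have m3 : r < (wb - x) / 2 := (hr'.trans_le (min_le_right _ _)).trans_le (min_le_left _ _)
  have m4 : r < D / (σ + 1) := (hr'.trans_le (min_le_right _ _)).trans_le (min_le_right _ _)
  rw [lt_div_iff₀ (by linarith)] at m4
  obtain ⟨g, hg⟩ : ∃ g, g = rin w₁ x := ⟨_, rfl⟩
  have hxg : w₁ + (1 - w₁) * g = x := by
    rw [hg]
    exact rho_rin h1 x
  rw [← hg] at hw ha ⊢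
  obtain ⟨R, hR⟩ : ∃ R, R = (1 - w₁) * r := ⟨_, rfl⟩
  have hR0 : 0 < R := by rw [hR]; positivity
  have hRr : R ≤ r := by
    rw [hR]
    have : 0 ≤ w₁ * r := by positivity
    linarith
  have hw' := mul_le_mul_of_nonneg_left hw h1w.le
  have ha' := mul_le_mul_of_nonneg_left ha h1w.le
  have hwa' := mul_le_mul_of_nonneg_left hwa h1w.le
  have e1 : (1 - w₁) * (g - r) = (1 - w₁) * g - R := by rw [hR]; ring
  have e2 : (1 - w₁) * (g + r) = (1 - w₁) * g + R := by rw [hR]; ring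
  rw [e1] at hw'
  rw [e2] at ha'
  obtain ⟨δ, hδ⟩ : ∃ δ, δ = min R (e * R / (4 * (σ + 1))) := ⟨_, rfl⟩
  have hδ0 : 0 < δ := by rw [hδ]; exact lt_min hR0 (by positivity)
  have hδ1 : δ ≤ R := by rw [hδ]; exact min_le_left _ _
  have hδ2 : (σ + 1) * δ ≤ e * R / 4 := by
    have h3 : δ ≤ e * R / (4 * (σ + 1)) := by rw [hδ]; exact min_le_right _ _
    rw [le_div_iff₀ (by linarith)] at h3
    linarith
  obtain ⟨p, hp, p1, p2, p3, p4, p5⟩ := hNd (rho w₁ a) (rho w₁ w) δ hδ0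
    (by unfold rho; linarith) (rho_mono h1 hwa) (by unfold rho; linarith)
  have k2 := k1 (2 * R) (by linarith) (by linarith) p.1 p.2 (by unfold rho at p3; linarith) p5
    (by unfold rho at p2; linarith)
  have k3 : nmz w₁ xs (L p.1 p.2) ≤ D + σ * (w - g) + (a - w) + e * r / 2 := by
    have k4 : L p.1 p.2 ≤ Dx + (1 - w₁) * (σ * (w - g) + (a - w) + e * r / 2) := by
      have k5 : σ * (p.2 - x) ≤ (1 - w₁) * (σ * (w - g)) + σ * δ := by
        have k6 : p.2 - x ≤ (1 - w₁) * (w - g) + δ := by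
          unfold rho at p4
          linarith
        have k7 := mul_le_mul_of_nonneg_left k6 hσ.le
        have e3 : σ * ((1 - w₁) * (w - g) + δ) = (1 - w₁) * (σ * (w - g)) + σ * δ := by ring
        linarith
      have k8 : p.1 - p.2 ≤ (1 - w₁) * (a - w) + δ := by
        unfold rho at p2 p3
        linarith
      have e4 : (1 - w₁) * (σ * (w - g) + (a - w) + e * r / 2) = (1 - w₁) * (σ * (w - g)) +
        (1 - w₁) * (a - w) + e * R / 2 := by rw [hR]; ring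
      rw [e4]
      linarith
    have k9 := nmz_mono (x := xs) h1 k4
    refine k9.trans (le_of_eq ?_)
    rw [hD]
    unfold nmz
    field_simp
    ring
  unfold upz
  refine max_le ?_ ?_
  · have k10 : σ * (g - r - g) ≤ σ * (w - g) := mul_le_mul_of_nonneg_left (by linarith) hσ.le
    have k11 : 0 < e * r := mul_pos he hr
    linarith
  · refine (csInf_le (upS_bdd h1 hL0 a w) ⟨p, hp, p1, p3, p5, rfl⟩).trans ?_
    have k11 : 0 < e * r := mul_pos he hr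
    linarith

/-- **No gaps** of the set near the point. -/
def Nogap (Wd : Set ℝ) (x : ℝ) : Prop :=
  ∀ e : ℝ, 0 < e → ∃ r₁ : ℝ, 0 < r₁ ∧ ∀ r : ℝ, 0 < r → r < r₁ → ∀ v : ℝ, x - r ≤ v → v ≤ x + r →
    ∃ w ∈ Wd, v - e * r < w ∧ w < v

theorem Nogap.mono {Wd Wd' : Set ℝ} {x : ℝ} (h : Nogap Wd x) (hs : Wd ⊆ Wd') : Nogap Wd' x := by
  intro e he
  obtain ⟨r₁, hr₁, h1⟩ := h e he
  refine ⟨r₁, hr₁, fun r hr hr' v h2 h3 => ?_⟩
  obtain ⟨w, hw, h4⟩ := h1 r hr hr' v h2 h3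
  exact ⟨w, hs hw, h4⟩

/-- There are points below the point. -/
theorem Nogap.low {Wd : Set ℝ} {x : ℝ} (h : Nogap Wd x) {δ : ℝ} (hδ : 0 < δ) :
    ∃ w ∈ Wd, x - δ < w ∧ w < x := by
  obtain ⟨r₁, hr₁, h1⟩ := h 1 one_pos
  obtain ⟨r, hr⟩ : ∃ r, r = min (r₁ / 2) δ := ⟨_, rfl⟩
  have hr0 : 0 < r := by rw [hr]; exact lt_min (by linarith) hδ
  have hr1 : r ≤ r₁ / 2 := by rw [hr]; exact min_le_left _ _
  have hr2 : r ≤ δ := by rw [hr]; exact min_le_right _ _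
  obtain ⟨w, hw, h2, h3⟩ := h1 r hr0 (by linarith) x (by linarith) (by linarith)
  exact ⟨w, hw, by linarith, h3⟩

/-- **Almost every point of a set** has no gaps. -/
theorem nogap_ae {Wd : Set ℝ} (hm : MeasurableSet Wd) : ∀ᵐ x : ℝ, x ∈ Wd → Nogap Wd x := by
  have h0 := Besicovitch.ae_tendsto_measure_inter_div_of_measurableSet volume hm
  filter_upwards [h0] with x h1 hx e he
  rw [Set.indicator_of_mem hx, Pi.one_apply] at h1
  obtain ⟨η, hη⟩ : ∃ η, η = min (e / 16) (1 / 16) := ⟨_, rfl⟩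
  have hη0 : 0 < η := by rw [hη]; exact lt_min (by linarith) (by norm_num)
  have hη1 : η ≤ e / 16 := by rw [hη]; exact min_le_left _ _
  have hη2 : η ≤ 1 / 16 := by rw [hη]; exact min_le_right _ _
  have h2 : ∀ᶠ r in 𝓝[>] (0 : ℝ), ENNReal.ofReal (1 - η) <
      volume (Wd ∩ Metric.closedBall x r) / volume (Metric.closedBall x r) := by
    refine h1.eventually_const_lt ?_
    rw [ENNReal.ofReal_lt_one]
    linarith
  obtain ⟨r₂, hr₂, h2⟩ := mem_nhdsGT_iff_exists_Ioo_subset.1 h2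
  have hr₂' : (0 : ℝ) < r₂ := hr₂
  refine ⟨r₂ / 2, by linarith, fun r hr hr' v hv1 hv2 => ?_⟩
  by_contra hcon
  push Not at hcon
  obtain ⟨e', he'⟩ : ∃ e', e' = min e 1 := ⟨_, rfl⟩
  have he'0 : 0 < e' := by rw [he']; exact lt_min he one_pos
  have he'1 : e' ≤ 1 := by rw [he']; exact min_le_right _ _
  have he'2 : e' ≤ e := by rw [he']; exact min_le_left _ _
  have hηe : 16 * η ≤ e' := by
    rw [he']
    exact le_min (by linarith) (by linarith)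
  have h3 := h2 (show 2 * r ∈ Ioo 0 r₂ from ⟨by linarith, by linarith⟩)
  simp only [Set.mem_ofPred_eq, Real.volume_closedBall] at h3
  have h4 : ENNReal.ofReal (1 - η) * ENNReal.ofReal (2 * (2 * r)) ≤
      volume (Wd ∩ Metric.closedBall x (2 * r)) := by
    have h5 := h3.le
    rwa [ENNReal.le_div_iff_mul_le (Or.inl (by simpa using hr)) (Or.inl ENNReal.ofReal_ne_top)]
      at h5
  have h5 : Wd ∩ Metric.closedBall x (2 * r) ⊆ Icc (x - 2 * r) (v - e' * r) ∪ Icc v (x + 2 * r) := by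
    rintro y ⟨hy, hy2⟩
    rw [Metric.mem_closedBall, Real.dist_eq, abs_le] at hy2
    rcases le_or_gt y (v - e' * r) with h7 | h7
    · exact Or.inl ⟨by linarith, h7⟩
    · refine Or.inr ⟨hcon y hy ?_, by linarith⟩
      have := mul_le_mul_of_nonneg_right he'2 hr.le
      linarith
  have h6 := h4.trans ((measure_mono h5).trans (measure_union_le _ _))
  have h7 : e' * r ≤ 1 * r := mul_le_mul_of_nonneg_right he'1 hr.le
  rw [Real.volume_Icc, Real.volume_Icc, ← ENNReal.ofReal_add (by linarith) (by linarith),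
    ← ENNReal.ofReal_mul (by linarith), ENNReal.ofReal_le_ofReal_iff (by nlinarith)] at h6
  have h8 := mul_le_mul_of_nonneg_right hηe hr.le
  have h9 : 0 < e' * r := mul_pos he'0 hr
  nlinarith

/-- The value of the lower bound at a window of continuity. -/
theorem loz_eq {D : ℝ → ℝ} {Wd : Set ℝ} {w₁ xs x : ℝ} (h1 : w₁ < 1)
    (hmono : ∀ w ∈ Wd, w < x → D w ≤ D x)
    (hD1 : ∀ w ∈ Wd, D w ≤ 1) (hg : Nogap Wd x)
    (hc : ContinuousAt D x) : loz D Wd w₁ xs (rin w₁ x) = nmz w₁ xs (D x) := by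
  have h1w : 0 < 1 - w₁ := by linarith
  have hρ : rho w₁ (rin w₁ x) = x := rho_rin h1 x
  refine le_antisymm ?_ ?_
  · unfold loz
    refine csSup_le ?_ ?_
    · obtain ⟨w, hw, -, h2⟩ := hg.low one_pos
      exact ⟨_, w, hw, by rw [hρ]; exact h2, rfl⟩
    · rintro _ ⟨w, hw, h2, rfl⟩
      rw [hρ] at h2
      exact nmz_mono h1 (hmono w hw h2)
  · refine le_of_forall_pos_le_add fun ε hε => ?_
    obtain ⟨δ, hδ, h2⟩ := Metric.continuousAt_iff.1 hc ((1 - w₁) * ε) (by positivity)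
    obtain ⟨w, hw, h3, h4⟩ := hg.low hδ
    have h5 := h2 (x := w) (by rw [Real.dist_eq, abs_lt]; constructor <;> linarith)
    rw [Real.dist_eq, abs_lt] at h5
    have h6 : nmz w₁ xs (D w) ≤ loz D Wd w₁ xs (rin w₁ x) :=
      le_csSup (loS_bdd h1 hD1 _) ⟨w, hw, by rw [hρ]; exact h4, rfl⟩
    have h7 : nmz w₁ xs (D x) ≤ nmz w₁ xs (D w) + ε := by
      have h8 := nmz_mono (x := xs) h1 (show D x ≤ D w + (1 - w₁) * ε by linarith)
      refine h8.trans (le_of_eq ?_)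
      unfold nmz
      field_simp
      ring
    linarith

/-- **The lower bound is at least the line.** -/
theorem loz_dg {D : ℝ → ℝ} {Wd : Set ℝ} {w₁ wb xs x σ : ℝ} (h0 : 0 ≤ w₁) (h1 : w₁ < 1)
    (hx1 : w₁ < x) (hx2 : x < wb) (hD1 : ∀ w ∈ Wd, D w ≤ 1)
    (hgap : Nogap Wd x)
    (hL : ∀ e : ℝ, 0 < e → ∃ r₁ : ℝ, 0 < r₁ ∧ ∀ r : ℝ, 0 < r → r < r₁ → ∀ v : ℝ, x - r ≤ v →
      v ≤ x + r → D x + σ * (v - x) - e * r ≤ D v) (hσ : 0 < σ) :
    DgLo (fun _ v => loz D Wd w₁ xs v) (rin w₁ x) (nmz w₁ xs (D x)) σ := by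
  have h1w : 0 < 1 - w₁ := by linarith
  intro e he
  obtain ⟨r₁, hr₁, k1⟩ := hL (e / 8) (by linarith)
  obtain ⟨e₂, he₂⟩ : ∃ e₂, e₂ = min 1 (e / (4 * (σ + 1))) := ⟨_, rfl⟩
  have he₂0 : 0 < e₂ := by rw [he₂]; exact lt_min one_pos (by positivity)
  obtain ⟨r₂, hr₂, kg⟩ := hgap e₂ he₂0
  refine ⟨min (min (r₁ / 2) r₂) (min ((x - w₁) / 2) ((wb - x) / 2)),
    lt_min (lt_min (by linarith) hr₂) (lt_min (by linarith) (by linarith)),
    fun r hr hr' v hv1 hv2 => ?_⟩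
  have m1 : r < r₁ / 2 := (hr'.trans_le (min_le_left _ _)).trans_le (min_le_left _ _)
  have m1' : r < r₂ := (hr'.trans_le (min_le_left _ _)).trans_le (min_le_right _ _)
  have m2 : r < (x - w₁) / 2 := (hr'.trans_le (min_le_right _ _)).trans_le (min_le_left _ _)
  have m3 : r < (wb - x) / 2 := (hr'.trans_le (min_le_right _ _)).trans_le (min_le_right _ _)
  obtain ⟨g, hg⟩ : ∃ g, g = rin w₁ x := ⟨_, rfl⟩
  have hxg : w₁ + (1 - w₁) * g = x := by
    rw [hg]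
    exact rho_rin h1 x
  rw [← hg] at hv1 hv2 ⊢
  obtain ⟨R, hR⟩ : ∃ R, R = (1 - w₁) * r := ⟨_, rfl⟩
  have hR0 : 0 < R := by rw [hR]; positivity
  have hRr : R ≤ r := by
    rw [hR]
    have : 0 ≤ w₁ * r := by positivity
    linarith
  have hv1' := mul_le_mul_of_nonneg_left hv1 h1w.le
  have hv2' := mul_le_mul_of_nonneg_left hv2 h1w.le
  have e1 : (1 - w₁) * (g - r) = (1 - w₁) * g - R := by rw [hR]; ring
  have e2 : (1 - w₁) * (g + r) = (1 - w₁) * g + R := by rw [hR]; ring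
  rw [e1] at hv1'
  rw [e2] at hv2'
  obtain ⟨δ, hδ⟩ : ∃ δ, δ = e₂ * R := ⟨_, rfl⟩
  have hδ0 : 0 < δ := by rw [hδ]; positivity
  have hδ1 : δ ≤ R := by
    rw [hδ]
    have h3 : e₂ ≤ 1 := by rw [he₂]; exact min_le_left _ _
    have := mul_le_mul_of_nonneg_right h3 hR0.le
    linarith
  have hδ2 : (σ + 1) * δ ≤ e * R / 4 := by
    have h3 : e₂ ≤ e / (4 * (σ + 1)) := by rw [he₂]; exact min_le_right _ _
    rw [le_div_iff₀ (by linarith)] at h3
    have h4 := mul_le_mul_of_nonneg_right h3 hR0.le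
    rw [hδ]
    linarith
  obtain ⟨w, hw, p1, p2⟩ := kg R hR0 (by linarith) (rho w₁ v) (by unfold rho; linarith)
    (by unfold rho; linarith)
  rw [← hδ] at p1
  have k2 := k1 (2 * R) (by linarith) (by linarith) w (by unfold rho at p1; linarith)
    (by unfold rho at p2; linarith)
  have k3 : nmz w₁ xs (D w) ≤ loz D Wd w₁ xs v := le_csSup (loS_bdd h1 hD1 v) ⟨w, hw, p2, rfl⟩
  refine le_trans ?_ k3
  have k4 : D x + (1 - w₁) * (σ * (v - g) - e * r) ≤ D w := by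
    have k5 : (1 - w₁) * (σ * (v - g)) - σ * δ ≤ σ * (w - x) := by
      have k6 : (1 - w₁) * (v - g) - δ ≤ w - x := by
        unfold rho at p1
        linarith
      have k7 := mul_le_mul_of_nonneg_left k6 hσ.le
      have e3 : σ * ((1 - w₁) * (v - g) - δ) = (1 - w₁) * (σ * (v - g)) - σ * δ := by ring
      linarith
    have e4 : (1 - w₁) * (σ * (v - g) - e * r) = (1 - w₁) * (σ * (v - g)) - e * R := by
      rw [hR]; ring
    rw [e4]
    have k8 : 0 < e * R := mul_pos he hR0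
    linarith
  have k9 := nmz_mono (x := xs) h1 k4
  refine le_trans (le_of_eq ?_) k9
  unfold nmz
  field_simp
  ring

/-- The measure of the windows of the zoom. -/
theorem vol_rin {w₁ : ℝ} (h1 : w₁ < 1) (B : Set ℝ) :
    ENNReal.ofReal (1 - w₁) * volume {v | rho w₁ v ∈ B} = volume B := by
  have h1w : 0 < 1 - w₁ := by linarith
  have h2 : {v | rho w₁ v ∈ B} = (fun v => (1 - w₁) * v) ⁻¹' ((fun y => w₁ + y) ⁻¹' B) := rfl
  rw [h2, Real.volume_preimage_mul_left h1w.ne', measure_preimage_add, ← mul_assoc,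
    ← ENNReal.ofReal_mul h1w.le, abs_inv, abs_of_pos h1w, mul_inv_cancel₀ h1w.ne',
    ENNReal.ofReal_one, one_mul]

end Pool.Z4
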