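import Pool.Agent.H60.GEN.KpK
import Pool.Agent.H90.ISO.StF
import Pool.Agent.H87.GEN.Row1
import Pool.Agent.H77.Z4.Res

/-!
# The static chains from the count

`sta_of_one`: a threshold with the slope one is static. `sta_of_wfu`: the target is static at the
windows of the rows which are free from the window; `PkT.sta_mic`. `Cfg`: the coordinate `l` is
rough, and the later coordinates and the target are static. `nore_of`: the static chains from the
counts at the windows with `Cfg`.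
-/

set_option autoImplicit false

namespace Pool.Z4

open MeasureTheory Set Filter Topology
open Pool.Agent.H49.Ent Pool.Agent.H32.Dense Pool.STK Pool.KA Pool.KSAT Pool.K2S Pool.PB
open Pool.GEN Pool.S6C Pool.STAT Pool.CHT Pool.GRW Pool.ONE Pool.STA Pool.PKG Pool.ZFN
open Pool.LBT (LSys ThrOf)
open Pool.LEV
open Pool.ALL (RateOf)
open Pool.TOP (TopS)
open Pool.STR (NumI StaAt ThinAt SteepAt WfU MicW ae_dia StaD)
open Pool.QNT (affB_of)

/-- **A threshold with the slope one is static.** -/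
theorem sta_of_one {P : ℝ → ℝ → ℝ} (hP : Law P) {g : ℝ} (hg0 : 0 < g) (hg1 : g < 1)
    (hup : ∀ a : ℝ, 0 ≤ a → a ≤ 1 → P a a ≤ 1) (hd : DifferentiableAt ℝ (fun a => P a a) g)
    (h1 : deriv (fun a => P a a) g ≤ 1) : StaAt P g := by
  intro e he
  obtain ⟨r₁, hr₁, k1⟩ := affB_of hd (M := 8) (e := e / 2) (by norm_num) (by linarith)
  refine ⟨min r₁ (min (g / 8) ((1 - g) / 8)), lt_min hr₁ (lt_min (by linarith) (by linarith)),
    fun r hr hr' a w hw hwa ha => ?_⟩
  have m1 : r < r₁ := hr'.trans_le (min_le_left _ _)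
  have m2 : r < g / 8 := (hr'.trans_le (min_le_right _ _)).trans_le (min_le_left _ _)
  have m3 : r < (1 - g) / 8 := (hr'.trans_le (min_le_right _ _)).trans_le (min_le_right _ _)
  have c1 := (abs_le.1 (k1 r hr m1 a (by rw [abs_le]; constructor <;> linarith))).2
  have c2 := (abs_le.1 (k1 r hr m1 w (by rw [abs_le]; constructor <;> linarith))).1
  have c3 := hP.slope w w (a - w) (by linarith) le_rfl (by linarith) (by linarith)
  rw [add_sub_cancel] at c3
  have c4 : deriv (fun a => P a a) g * (a - w) ≤ 1 * (a - w) :=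
    mul_le_mul_of_nonneg_right h1 (by linarith)
  have c5 := hup a (by linarith) (by linarith)
  have her : 0 < e * r := mul_pos he hr
  have c6 : P a a ≤ P w w + (a - w) + e * r := by
    have e1 : deriv (fun a => P a a) g * (a - g) - deriv (fun a => P a a) g * (w - g) =
        deriv (fun a => P a a) g * (a - w) := by ring
    have e2 : e / 2 * r + e / 2 * r = e * r := by ring
    linarith
  rcases min_choice 1 (P w w + (a - w)) with h2 | h2
  · rw [h2] at c3
    linarith
  · rw [h2] at c3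
    linarith

/-- **The target is static** at the window of a row which is free from the window. -/
theorem sta_of_wfu {P : ℝ → ℝ → ℝ} (hP : Law P) {g : ℝ} (hg0 : 0 < g) (hg1 : g < 1)
    (hQ0 : 0 < P g g) (hQ1 : P g g < 1) (hd : DifferentiableAt ℝ (fun a => P a a) g)
    (hW : WfU P (P g g)) : StaAt P g := by
  intro e he
  obtain ⟨S, hS⟩ : ∃ S, S = |deriv (fun a => P a a) g| := ⟨_, rfl⟩
  have hS0 : 0 ≤ S := by rw [hS]; exact abs_nonneg _
  obtain ⟨M, hM⟩ : ∃ M, M = 16 * (S + 2) := ⟨_, rfl⟩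
  obtain ⟨e', he'⟩ : ∃ e', e' = min (e / (8 * (S + 1))) 1 := ⟨_, rfl⟩
  have e0 : 0 < e' := by rw [he']; exact lt_min (by positivity) one_pos
  have e1 : e' ≤ 1 := by rw [he']; exact min_le_right _ _
  have e2 : (S + 1) * (2 * e') ≤ e / 4 := by
    have h3 : e' ≤ e / (8 * (S + 1)) := by rw [he']; exact min_le_left _ _
    rw [le_div_iff₀ (by positivity)] at h3
    linarith
  have hM0 : 0 < M := by rw [hM]; linarith
  obtain ⟨r₁, hr₁, k1⟩ := affB_of hd (M := 16) (e := min (e / 4) 1) (by norm_num)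
    (lt_min (by linarith) one_pos)
  obtain ⟨r₂, hr₂, k2⟩ := hW (e' / M) (by positivity)
  refine ⟨min (min r₁ (r₂ / M)) (min (min (g / 16) ((1 - g) / 16))
    (min (P g g / (4 * M)) ((1 - P g g) / (4 * M)))), ?_, fun r hr hr' a w hw hwa ha => ?_⟩
  · refine lt_min (lt_min hr₁ (div_pos hr₂ hM0)) (lt_min (lt_min (by linarith) (by linarith))
      (lt_min (by positivity) (div_pos (by linarith) (by positivity))))
  have m1 : r < r₁ := (hr'.trans_le (min_le_left _ _)).trans_le (min_le_left _ _)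
  have m2 : r < r₂ / M := (hr'.trans_le (min_le_left _ _)).trans_le (min_le_right _ _)
  have m := hr'.trans_le (min_le_right _ _)
  have m3 : r < g / 16 := (m.trans_le (min_le_left _ _)).trans_le (min_le_left _ _)
  have m4 : r < (1 - g) / 16 := (m.trans_le (min_le_left _ _)).trans_le (min_le_right _ _)
  have m5 : r < P g g / (4 * M) := (m.trans_le (min_le_right _ _)).trans_le (min_le_left _ _)
  have m6 : r < (1 - P g g) / (4 * M) :=
    (m.trans_le (min_le_right _ _)).trans_le (min_le_right _ _)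
  rw [lt_div_iff₀ hM0] at m2
  rw [lt_div_iff₀ (by positivity)] at m5 m6
  have her : 0 < e * r := mul_pos he hr
  have her' : 0 < e' * r := mul_pos e0 hr
  have her2 : e' * r ≤ 1 * r := mul_le_mul_of_nonneg_right e1 hr.le
  have hSr : 0 ≤ S * r := mul_nonneg hS0 hr.le
  have hdiag : ∀ x : ℝ, |x - g| ≤ 16 * r → |P x x - P g g| ≤ 16 * (S + 1) * r := by
    intro x hx
    have h3 := k1 r hr m1 x hx
    have h4 : |deriv (fun a => P a a) g * (x - g)| ≤ S * (16 * r) := by
      rw [abs_mul, ← hS]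
      exact mul_le_mul_of_nonneg_left hx hS0
    have h5 : min (e / 4) 1 * r ≤ 1 * r := mul_le_mul_of_nonneg_right (min_le_right _ _) hr.le
    have h6 : |P x x - P g g| ≤ |P x x - P g g - deriv (fun a => P a a) g * (x - g)| +
        |deriv (fun a => P a a) g * (x - g)| := by
      have := abs_add_le (P x x - P g g - deriv (fun a => P a a) g * (x - g))
        (deriv (fun a => P a a) g * (x - g))
      rwa [sub_add_cancel] at this
    have h7 : 16 * (S + 1) * r = S * (16 * r) + 16 * r := by ring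
    linarith
  obtain ⟨a', ha'⟩ : ∃ a', a' = a - 2 * (e' * r) := ⟨_, rfl⟩
  have b1 : |a' - g| ≤ 16 * r := by
    rw [abs_le]
    constructor <;> linarith
  have b2 : |a - g| ≤ 16 * r := by
    rw [abs_le]
    constructor <;> linarith
  -- the diagonal between `a'` and `a`
  have b3 : P a a ≤ P a' a' + e * r := by
    have h3 := (abs_le.1 (k1 r hr m1 a b2)).2
    have h4 := (abs_le.1 (k1 r hr m1 a' b1)).1
    have h5 : deriv (fun a => P a a) g * (a - a') ≤ (S + 1) * (2 * e') * r := by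
      have h6 : a - a' = 2 * e' * r := by rw [ha']; ring
      rw [h6]
      have h7 : deriv (fun a => P a a) g ≤ S + 1 := by
        rw [hS]
        linarith [le_abs_self (deriv (fun a => P a a) g)]
      have h8 := mul_le_mul_of_nonneg_right h7 (show 0 ≤ 2 * e' * r by positivity)
      have h9 : (S + 1) * (2 * e') * r = (S + 1) * (2 * e' * r) := by ring
      linarith
    have h6 : (S + 1) * (2 * e') * r ≤ e / 4 * r := mul_le_mul_of_nonneg_right e2 hr.le
    have h7 : min (e / 4) 1 * r ≤ e / 4 * r := mul_le_mul_of_nonneg_right (min_le_left _ _) hr.le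
    have h8 : deriv (fun a => P a a) g * (a - g) - deriv (fun a => P a a) g * (a' - g) =
        deriv (fun a => P a a) g * (a - a') := by ring
    have h9 : e / 4 * r + e / 4 * r + e / 4 * r ≤ e * r := by linarith
    linarith
  have b4 := abs_le.1 (hdiag a' b1)
  have hQa : |P a' a' - P g g| ≤ M * r := by
    have h3 := hdiag a' b1
    have h4 : 16 * (S + 1) * r ≤ M * r := by
      rw [hM]
      exact mul_le_mul_of_nonneg_right (by linarith) hr.le
    linarith
  have b5 := abs_le.1 hQa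
  have hMr : 0 < M * r := mul_pos hM0 hr
  have b6 := k2 (M * r) hMr (by linarith) (P a' a') hQa
  have b7 : e' / M * (M * r) = e' * r := by field_simp
  rw [b7] at b6
  have c0 : 0 ≤ P a' a' := by linarith
  have c1 : P a' a' ≤ 1 := by linarith
  have c2 : Lv P (P a' a', 0) ≤ a' := by
    refine lev_le (P := P) (Q := cl (P a' a')) (q := cl 0) ⟨?_, by linarith, Or.inl ?_⟩
    · rw [cl_of_mem le_rfl zero_le_one]
      linarith
    · rw [cl_of_mem c0 c1, cl_of_mem le_rfl zero_le_one, sub_zero]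
  have hMg : M * r ≤ 1 := by linarith
  have c3 : cl (P a' a') ≤ P a (a - cl (M * r)) :=
    le_of_lev_lt hP (cl_nonneg _) (cl_le_one _) (show Lv P (P a' a', M * r) < a by linarith)
      (by linarith)
  rw [cl_of_mem c0 c1] at c3
  by_cases hgM : M * r ≤ a
  · rw [cl_of_mem hMr.le hMg] at c3
    have c4 : a - M * r ≤ w := by
      have : 32 * r ≤ M * r := by
        rw [hM]
        exact mul_le_mul_of_nonneg_right (by linarith) hr.le
      linarith
    have c5 := hP.mono_w a (a - M * r) w (by linarith) c4 hwa (by linarith)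
    linarith
  · exfalso
    -- the level at depth larger than `a` is at least the depth
    have hl : cl (M * r) ≤ Lv P (P a' a', M * r) :=
      le_lev (P := P) (Q := cl (P a' a')) (q := cl (M * r)) (cl_le_one _)
    rw [cl_of_mem hMr.le hMg] at hl
    linarith

/-- **The rows of the windows**: at almost every window where the diagonal has a positive
derivative. -/
theorem lv_ae {P : ℝ → ℝ → ℝ} (hP : Law P)
    (hP01 : ∀ a : ℝ, 0 ≤ a → a ≤ 1 → a ≤ P a a ∧ P a a ≤ 1) :
    ∀ᵐ g : ℝ, 0 < g → g < 1 → DifferentiableAt ℝ (fun a => P a a) g →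
      0 < deriv (fun a => P a a) g → P g g < 1 → Lv P (P g g, 0) = g ∧
      DifferentiableAt ℝ (fun Q => Lv P (Q, 0)) (P g g) ∧
      0 < deriv (fun Q => Lv P (Q, 0)) (P g g) := by
  have hfl : LipschitzWith 1 fun Q => Lv P (Q, 0) := by
    refine LipschitzWith.of_dist_le_mul fun x y => ?_
    refine ((Lv_lip hP).dist_le_mul _ _).trans ?_
    rw [Prod.dist_eq]
    simp
  filter_upwards [ae_dia hP hfl.ae_differentiableAt_real] with g h1 h0 hg1 hd hs hlt
  have h2 := h1 h0 hg1 hd hs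
  have hmono : ∀ x y : ℝ, 0 < x → x ≤ y → y ≤ 1 → P x x ≤ P y y := fun x y hx hxy hy =>
    (hP.mono_a x y x hx.le le_rfl hxy hy).trans (hP.mono_w y x y hx.le hxy le_rfl hy)
  have hle : ∀ x : ℝ, 0 < x → x < 1 → Lv P (P x x, 0) ≤ x := fun x hx0 hx1 => by
    obtain ⟨p1, p2⟩ := hP01 x hx0.le hx1.le
    refine lev_le (P := P) (Q := cl (P x x)) (q := cl 0) ⟨?_, hx1.le, Or.inl ?_⟩
    · rw [cl_of_mem le_rfl zero_le_one]
      exact hx0.le
    · rw [cl_of_mem (by linarith) p2, cl_of_mem le_rfl zero_le_one, sub_zero]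
  obtain ⟨p1, p2⟩ := hP01 g h0.le hg1.le
  -- equality at `g`
  have heq : Lv P (P g g, 0) = g := by
    refine le_antisymm (hle g h0 hg1) ?_
    by_contra hcon
    push Not at hcon
    -- all points between have the same value
    obtain ⟨x₀, hx₀⟩ : ∃ x₀, x₀ = max (Lv P (P g g, 0)) (g / 2) := ⟨_, rfl⟩
    have hx1 : x₀ < g := by rw [hx₀]; exact max_lt hcon (by linarith)
    have hconst : ∀ x : ℝ, x₀ < x → x < g → P g g ≤ P x x := fun x hx hxg => by
      have hx2 : g / 2 < x := lt_of_le_of_lt (by rw [hx₀]; exact le_max_right _ _) hx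
      have hx3 : Lv P (P g g, 0) < x := lt_of_le_of_lt (by rw [hx₀]; exact le_max_left _ _) hx
      have b1 : cl (P g g) ≤ P x (x - cl 0) :=
        le_of_lev_lt hP (cl_nonneg _) (cl_le_one _) hx3 (by linarith)
      rwa [cl_of_mem (by linarith) p2, cl_of_mem le_rfl zero_le_one, sub_zero] at b1
    have h3 := hd.hasDerivAt.isLittleO.def (show 0 < deriv (fun a => P a a) g / 2 by linarith)
    obtain ⟨η, hη, h4⟩ := Metric.eventually_nhds_iff.1 h3
    obtain ⟨x, hx, hx'⟩ := exists_between (show max x₀ (g - η) < g from max_lt hx1 (by linarith))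
    have k1 : x₀ < x := (le_max_left _ _).trans_lt hx
    have k2 : g - η < x := (le_max_right _ _).trans_lt hx
    have k3 := h4 (y := x) (by rw [Real.dist_eq, abs_lt]; constructor <;> linarith)
    rw [Real.norm_eq_abs, Real.norm_eq_abs, smul_eq_mul] at k3
    have k4 := (abs_le.1 k3).2
    rw [abs_of_neg (show x - g < 0 by linarith)] at k4
    have k5 := hconst x k1 hx'
    nlinarith
  refine ⟨heq, h2, ?_⟩
  -- the composition has the derivative one
  have hc : HasDerivAt (fun x => Lv P (P x x, 0))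
      (deriv (fun Q => Lv P (Q, 0)) (P g g) * deriv (fun a => P a a) g) g :=
    HasDerivAt.comp (h₂ := fun Q => Lv P (Q, 0)) (h := fun a => P a a) g h2.hasDerivAt
      hd.hasDerivAt
  have hmin : IsLocalMin (fun x => x - Lv P (P x x, 0)) g := by
    filter_upwards [Ioo_mem_nhds h0 hg1] with x hx
    rw [heq]
    have := hle x hx.1 hx.2
    linarith
  have hc2 : HasDerivAt (fun x => x - Lv P (P x x, 0))
      (1 - deriv (fun Q => Lv P (Q, 0)) (P g g) * deriv (fun a => P a a) g) g :=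
    (hasDerivAt_id g).sub hc
  have h5 := hmin.hasDerivAt_eq_zero hc2
  by_contra hcon
  push Not at hcon
  have h6 : deriv (fun Q => Lv P (Q, 0)) (P g g) * deriv (fun a => P a a) g ≤ 0 :=
    mul_nonpos_of_nonpos_of_nonneg hcon hs.le
  linarith

section

variable {n : ℕ} {hn : 2 ≤ n} {S : PCl n} {P : ℝ → ℝ → ℝ} {r : ℝ → ℝ}
  {P' : ℕ → List (Fin n) × Fin n → ℝ → ℝ → ℝ} {Λ : Finset (Fin n) → Fin n → ℝ → ℝ → ℝ}
  {PB : ℕ → List (Fin n) × Fin n → ℝ → ℝ → ℝ}

/-- **The target is static** at the windows of the rows with deficit more than `h`. -/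
theorem sta_mic (H : PkT hn S P r P' Λ PB) (hTop : TopS n) (hF : FZX (n - 1)) {h : ℝ}
    (hM : MicRt P r h) (o : Od n) : ∀ᵐ g : ℝ, RwH H hTop hF h o g → StaAt P g := by
  have hlaw := H.tgs.law ()
  have hP01 : ∀ a : ℝ, 0 ≤ a → a ≤ 1 → a ≤ P a a ∧ P a a ≤ 1 := fun a h0 h1 =>
    ⟨H.tgs.low () a a h0 le_rfl h1, H.tgs.up () a a h0 le_rfl h1⟩
  filter_upwards [lv_ae hlaw hP01, ae_dia hlaw hM,
    ae_dia hlaw (rt_deriv (h := h) H.rate.lip H.rate.mono)] with g h1 h2 h3 R
  have hdg : (H.nk hTop hF).dg o (n - 1) = fun a => P a a := (H.nk hTop hF).dg_m o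
  have hone : 1 ≤ deriv (fun a => P a a) g := by
    have h3 := R.rwd.one (n - 1) le_rfl
    rwa [hdg] at h3
  have hdif : DifferentiableAt ℝ (fun a => P a a) g := by
    have h3 := R.rwd.dif (n - 1) le_rfl
    rwa [hdg] at h3
  have g0 := R.rwd.g0
  have g1 := R.rwd.g1
  obtain ⟨k1, k2, k3⟩ := h1 g0 g1 hdif (by linarith) R.rwd.val
  have k4 := h2 g0 g1 hdif (by linarith)
  have k5 := h3 g0 g1 hdif (by linarith)
  have hQ0 : 0 < P g g := g0.trans_le (hP01 g g0.le g1.le).1
  refine sta_of_wfu hlaw g0 g1 hQ0 R.rwd.val hdif (k4 hQ0 R.rwd.val ?_ k2 k3 ?_ ?_)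
  · rw [k1]
    exact g0
  · exact k5.differentiableAt
  · rw [k5.deriv]
    unfold rtd
    rw [if_neg (not_le.2 R.defi)]
    exact R.rwd.rlt

/-- The laws of the levels. -/
theorem ll_law (H : Pk hn S P r P' Λ) (o : Od n) {i : ℕ} (hi : i ≤ n - 1) :
    Law (LL hn P P' o (i + 1)) := by
  rcases hi.lt_or_eq with h2 | h2
  · rw [LL_low (by omega) (by omega)]
    exact (H.cht o.2).law _
  · rw [h2, LL_lst]
    exact H.tgs.law ()

/-- The levels are at most one. -/
theorem ll_le1 (H : Pk hn S P r P' Λ) (o : Od n) {i : ℕ} (hi : i ≤ n - 1) (a : ℝ) (h0 : 0 ≤ a)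
    (h1 : a ≤ 1) : LL hn P P' o (i + 1) a a ≤ 1 := by
  rcases hi.lt_or_eq with h2 | h2
  · rw [LL_low (by omega) (by omega)]
    exact (H.cht o.2).up _ a a h0 le_rfl h1
  · rw [h2, LL_lst]
    exact H.tgs.up () a a h0 le_rfl h1

/-- **The active coordinate is static** at almost every good window. -/
theorem sta_zero (H : PkT hn S P r P' Λ PB) (hTop : TopS n) (hF : FZX (n - 1)) (o : Od n) :
    ∀ᵐ g : ℝ, g ∈ Gs P r P' Λ o → StaAt (LL hn P P' o 1) g := by
  have hlaw : Law (LL hn P P' o 1) := ll_law (H.toPk) o (i := 0) (by omega)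
  filter_upwards [nogap_ae (H.toPk.gs_meas o), STR.dia_ae hlaw] with g h1 h2 hg
  have g0 : 0 < g := hg.1.1.1
  have g1 : g < 1 := hg.1.1.2.1
  have hd := h2 g0 g1
  refine sta_of_one hlaw g0 g1 (ll_le1 (H.toPk) o (i := 0) (by omega)) hd ?_
  by_contra hcon
  push Not at hcon
  obtain ⟨s, hs⟩ : ∃ s, s = deriv (fun a => LL hn P P' o 1 a a) g := ⟨_, rfl⟩
  rw [← hs] at hcon
  have h3 := hd.hasDerivAt.isLittleO.def (show 0 < (s - 1) / 2 by linarith)
  obtain ⟨η, hη, h4⟩ := Metric.eventually_nhds_iff.1 h3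
  obtain ⟨w, hw, k1, k2⟩ := (h1 hg).low hη
  have k3 := h4 (y := w) (by rw [Real.dist_eq, abs_lt]; constructor <;> linarith)
  have e1 := H.toPk.act_diag hTop hF hg
  have e2 := H.toPk.act_diag hTop hF hw
  rw [Real.norm_eq_abs, Real.norm_eq_abs, smul_eq_mul, ← hs, e1, e2,
    abs_of_neg (show w - g < 0 by linarith)] at k3
  have k4 := (abs_le.1 k3).2
  nlinarith

/-- **The windows of the count**: the coordinate `l` is rough, and the later coordinates and the
target are static. -/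
structure Cfg (hn : 2 ≤ n) (P : ℝ → ℝ → ℝ) (P' : ℕ → List (Fin n) × Fin n → ℝ → ℝ → ℝ) (o : Od n)
    (l : ℕ) (g : ℝ) : Prop where
  l1 : 1 ≤ l
  ln : l < n - 1
  dif : ∀ i ≤ n - 1, DifferentiableAt ℝ (fun a => LL hn P P' o (i + 1) a a) g
  lt : ∀ i ≤ n - 1, LL hn P P' o (i + 1) g g < 1
  one : 1 < deriv (fun a => LL hn P P' o (l + 1) a a) g
  rg : RgUp (LL hn P P' o (l + 1)) g (LL hn P P' o (l + 1) g g)
    (deriv (fun a => LL hn P P' o (l + 1) a a) g)
  sta : ∀ i, l < i → i ≤ n - 1 → StaAt (LL hn P P' o (i + 1)) g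

/-- **The static chains from the counts.** -/
theorem nore_of (H : PkT hn S P r P' Λ PB) (hTop : TopS n) (hF : FZX (n - 1)) {h : ℝ}
    (hN : ∀ o : Od n, ∀ᵐ g : ℝ, RwH H hTop hF h o g → 1 < deriv (fun a => P a a) g → StaAt P g)
    (hb : ∀ o : Od n, ∀ᵐ g : ℝ, RwH H hTop hF h o g → 1 < deriv (fun a => P a a) g →
      ∀ l, 1 ≤ l → l < n - 1 → (∀ i, l < i → i ≤ n - 1 → StaAt (LL hn P P' o (i + 1)) g) →
      StaAt (LL hn P P' o (l + 1)) g ∨ RgUp (LL hn P P' o (l + 1)) g (LL hn P P' o (l + 1) g g)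
        (deriv (fun a => LL hn P P' o (l + 1) a a) g))
    (hc : ∀ (o : Od n) (l : ℕ), ∀ᵐ g : ℝ, RwH H hTop hF h o g → 1 < deriv (fun a => P a a) g →
      Cfg hn P P' o l g → False) : NoRE H hTop hF h := by
  intro o
  filter_upwards [hN o, hb o, ae_all_iff.2 (hc o), sta_zero H hTop hF o] with g k1 k2 k3 k4 R hS
  by_contra hcon
  push Not at hcon
  obtain ⟨i₀, hi₀, hi₀'⟩ := hcon
  have hdg : ∀ i ≤ n - 1, (H.nk hTop hF).dg o i = fun a => LL hn P P' o (i + 1) a a :=
    fun i hi => by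
      funext a
      exact H.dg_eq hTop hF o hi a
  -- the last coordinate which is not static
  obtain ⟨l, hl, hns, hmax⟩ : ∃ l, l < n - 1 ∧ ¬ StaAt (LL hn P P' o (l + 1)) g ∧
      ∀ i, l < i → i < n - 1 → StaAt (LL hn P P' o (i + 1)) g := by
    classical
    obtain ⟨s, hs⟩ : ∃ s : Finset ℕ, ∀ i, i ∈ s ↔ i < n - 1 ∧
        ¬ StaAt (LL hn P P' o (i + 1)) g :=
      ⟨(Finset.range (n - 1)).filter (fun i => ¬ StaAt (LL hn P P' o (i + 1)) g), by simp⟩
    have hne : s.Nonempty := ⟨i₀, (hs i₀).2 ⟨hi₀, hi₀'⟩⟩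
    have hm := (hs _).1 (s.max'_mem hne)
    refine ⟨s.max' hne, hm.1, hm.2, fun i h1 h2 => ?_⟩
    by_contra h3
    exact absurd (s.le_max' i ((hs i).2 ⟨h2, h3⟩)) (by omega)
  have hl1 : 1 ≤ l := by
    by_contra h0
    have : l = 0 := by omega
    rw [this] at hns
    exact hns (k4 R.rwd.mem)
  have hstN : StaAt P g := k1 R hS
  have hsta : ∀ i, l < i → i ≤ n - 1 → StaAt (LL hn P P' o (i + 1)) g := fun i h1 h2 => by
    rcases h2.lt_or_eq with h3 | h3
    · exact hmax i h1 h3
    · rw [h3, LL_lst]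
      exact hstN
  have hdif : ∀ i ≤ n - 1, DifferentiableAt ℝ (fun a => LL hn P P' o (i + 1) a a) g :=
    fun i hi => by
      rw [← hdg i hi]
      exact R.rwd.dif i hi
  rcases k2 R hS l hl1 hl hsta with h5 | h5
  · exact hns h5
  refine k3 l R hS ⟨hl1, hl, hdif, fun i hi => ?_, ?_, h5, hsta⟩
  · have := R.rwd.lt i hi
    rwa [hdg i hi] at this
  · by_contra h6
    push Not at h6
    exact hns (sta_of_one (ll_law (H.toPk) o (by omega)) R.rwd.g0 R.rwd.g1
      (ll_le1 (H.toPk) o (by omega)) (hdif l (by omega)) h6)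

end

/-! ### Thin, steep and static thresholds -/

/-- **Thin is rough from above.** -/
theorem rg_thin {PN B : ℝ → ℝ → ℝ} {g : ℝ} (hd : DifferentiableAt ℝ (fun a => B a a) g)
    (heq : PN g g = B g g) (hs : deriv (fun a => PN a a) g = deriv (fun a => B a a) g)
    (h : ThinAt PN B g) : RgUp PN g (PN g g) (deriv (fun a => PN a a) g) := by
  intro e he
  obtain ⟨r₁, hr₁, k1⟩ := h (e / 2) (by linarith)
  obtain ⟨r₂, hr₂, k2⟩ := affB_of hd (M := 1) (e := e / 2) one_pos (by linarith)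
  refine ⟨min r₁ r₂, lt_min hr₁ hr₂, fun r hr hr' a w hw hwa ha => ?_⟩
  have m1 : r < r₁ := hr'.trans_le (min_le_left _ _)
  have m2 : r < r₂ := hr'.trans_le (min_le_right _ _)
  have c1 := k1 r hr m1 a w (by linarith) hwa (by linarith)
  have c2 := (abs_le.1 (k2 r hr m2 w (by rw [abs_le]; constructor <;> linarith))).2
  rw [heq, hs]
  linarith

/-- Thin and static: the slope is at most one. -/
theorem slope_ts {PN B : ℝ → ℝ → ℝ} {g : ℝ} (hd : DifferentiableAt ℝ (fun a => B a a) g)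
    (hdN : DifferentiableAt ℝ (fun a => PN a a) g) (heq : PN g g = B g g)
    (hs : deriv (fun a => PN a a) g = deriv (fun a => B a a) g) (h : ThinAt PN B g)
    (hsta : StaAt PN g) : deriv (fun a => PN a a) g ≤ 1 := by
  by_contra hcon
  push Not at hcon
  obtain ⟨e, he⟩ : ∃ e, e = (deriv (fun a => PN a a) g - 1) / 4 := ⟨_, rfl⟩
  have he0 : 0 < e := by rw [he]; linarith
  obtain ⟨r₁, hr₁, k1⟩ := rg_thin hd heq hs h e he0
  obtain ⟨r₂, hr₂, k2⟩ := affB_of hdN (M := 1) (e := e) one_pos he0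
  obtain ⟨r₃, hr₃, k3⟩ := hsta e he0
  obtain ⟨r, hr⟩ : ∃ r, r = min (min r₁ r₂) r₃ / 2 := ⟨_, rfl⟩
  have hm : 0 < min (min r₁ r₂) r₃ := lt_min (lt_min hr₁ hr₂) hr₃
  have hr0 : 0 < r := by rw [hr]; linarith
  have m := min_le_left (min r₁ r₂) r₃
  have m1 : r < r₁ := by linarith [min_le_left r₁ r₂]
  have m2 : r < r₂ := by linarith [min_le_right r₁ r₂]
  have m3 : r < r₃ := by linarith [min_le_right (min r₁ r₂) r₃]
  have c1 := k1 r hr0 m1 (g + r) (g - r) (by linarith) (by linarith) le_rfl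
  have c2 := (abs_le.1 (k2 r hr0 m2 (g + r) (by
    rw [abs_le]
    constructor <;> linarith))).1
  have c3 := k3 r hr0 m3 (g + r) (g - r) (by linarith) (by linarith) (by linarith)
  have e1 : deriv (fun a => PN a a) g = 4 * e + 1 := by rw [he]; ring
  rw [e1] at c1 c2
  have e2 : 0 < e * r := mul_pos he0 hr0
  nlinarith

/-- Steep: the slope is at least two. -/
theorem slope_st {B : ℝ → ℝ → ℝ} {g : ℝ} (hB : Law B) (hg0 : 0 < g) (hg1 : g < 1)
    (hd : DifferentiableAt ℝ (fun a => B a a) g) (h : SteepAt 2 B g) :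
    2 ≤ deriv (fun a => B a a) g := by
  by_contra hcon
  push Not at hcon
  obtain ⟨e, he⟩ : ∃ e, e = (2 - deriv (fun a => B a a) g) / 4 := ⟨_, rfl⟩
  have he0 : 0 < e := by rw [he]; linarith
  obtain ⟨r₁, hr₁, k1⟩ := h e he0
  obtain ⟨r₂, hr₂, k2⟩ := affB_of hd (M := 1) (e := e) one_pos he0
  obtain ⟨r, hr⟩ : ∃ r, r = min (min r₁ r₂) (1 - g) / 2 := ⟨_, rfl⟩
  have hm : 0 < min (min r₁ r₂) (1 - g) := lt_min (lt_min hr₁ hr₂) (by linarith)
  have hr0 : 0 < r := by rw [hr]; linarith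
  have m := min_le_left (min r₁ r₂) (1 - g)
  have m1 : r < r₁ := by linarith [min_le_left r₁ r₂]
  have m2 : r < r₂ := by linarith [min_le_right r₁ r₂]
  have m3 : r < 1 - g := by linarith [min_le_right (min r₁ r₂) (1 - g)]
  have c1 := k1 r hr0 m1 (g + r) g (by linarith) (by linarith) (by linarith)
  have c2 := (abs_le.1 (k2 r hr0 m2 (g + r) (by
    rw [abs_le]
    constructor <;> linarith))).2
  have c3 := hB.mono_w (g + r) g (g + r) hg0.le (by linarith) le_rfl (by linarith)
  have e1 : deriv (fun a => B a a) g = 2 - 4 * e := by rw [he]; ring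
  rw [e1] at c2
  have e2 : 0 < e * r := mul_pos he0 hr0
  nlinarith

section

variable {n : ℕ} {hn : 2 ≤ n} {S : PCl n} {P : ℝ → ℝ → ℝ} {r : ℝ → ℝ}
  {P' : ℕ → List (Fin n) × Fin n → ℝ → ℝ → ℝ} {Λ : Finset (Fin n) → Fin n → ℝ → ℝ → ℝ}
  {PB : ℕ → List (Fin n) × Fin n → ℝ → ℝ → ℝ}

/-- The levels in the two notations. -/
theorem lvL_eq (o : Od n) {i : ℕ} (hi : i ≤ n - 1) : LvL hn P P' o i = LL hn P P' o (i + 1) := by
  rcases hi.lt_or_eq with h | h
  · rw [LL_low (by omega) (by omega), Nat.add_sub_cancel]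
    funext a w
    exact LvL_lt o h a w
  · rw [h, LL_lst]
    funext a w
    exact LvL_top o a w

/-- **The static chains** from the count at the windows with thin and static coordinates. -/
theorem nore_of2 (H : PkT hn S P r P' Λ PB) (hTop : TopS n) (hF : FZX (n - 1)) {h : ℝ}
    (hh : 0 ≤ h) (hM : MicRt P r h)
    (htwo : ∀ o : Od n, ∀ᵐ g : ℝ, RwH H hTop hF h o g → STR.Mac (PT hn PB o) g →
      deriv (fun a => P a a) g ≤ 2)
    (hbas : ∀ o : Od n, ∀ᵐ g : ℝ, RwH H hTop hF h o g → deriv (fun a => P a a) g ≤ 2 →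
      Bas2 H hTop hF o g)
    (hbig : ∀ o : Od n, ∀ᵐ g : ℝ, RwH H hTop hF h o g → 2 < deriv (fun a => P a a) g →
      StaAt P g → STR.IsoAt (PT hn PB o) g → ∀ i, 1 ≤ i → i < n - 1 →
      (∀ l < i, ThS hn P P' PB o l g) → 2 < deriv (fun a => LL hn P P' o (i + 1) a a) g →
      SteepAt 2 (LvT hn PB o i) g → StaAt (LL hn P P' o (i + 1)) g)
    (hc : ∀ (o : Od n) (l : ℕ), ∀ᵐ g : ℝ, RwH H hTop hF h o g → 1 < deriv (fun a => P a a) g →
      Cfg hn P P' o l g → deriv (fun a => P a a) g * (1 - deriv r (P g g)) ≤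
        h * deriv (fun a => LL hn P P' o (l + 1) a a) g) : NoRE H hTop hF h := by
  have hEv : ∀ Sb del : ℝ, 1 ≤ Sb → 0 < del → EvTC (n - 1) Sb del := fun Sb del h1 h2 =>
    evTC (n - 1) (by omega) Sb del h1 h2
  -- the windows
  have hw : ∀ o : Od n, ∀ᵐ g : ℝ, RwH H hTop hF h o g → 1 < deriv (fun a => P a a) g →
      deriv (fun a => P a a) g = 2 ∧ (∀ i < n - 1, ThS hn P P' PB o i g) ∧
      Bas2 H hTop hF o g := by
    intro o
    have hLT : Law (PT hn PB o) := (H.nk hTop hF).hPT o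
    filter_upwards [sta_mic H hTop hF hM o, htwo o, hbas o, hbig o, H.thin_bas2 hTop hF,
      H.mac_of H.pble hTop hF hEv, STR.isoS_or_mac hLT, H.dia_all H.pble hTop hF,
      H.thin_sta H.pble hTop hF hEv, sta_zero H hTop hF o]
      with g a1 a2 a3 a4 a5 a6 a7 a8 a9 a10 R hS
    have g0 := R.rwd.g0
    have g1 := R.rwd.g1
    have ho := R.rwd.mem
    have hsta := a1 R
    obtain ⟨d1, d2, d3⟩ := a8 o ho (n - 1) le_rfl
    have eL : LvL hn P P' o (n - 1) = P := by
      funext a w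
      exact LvL_top o a w
    have hle := H.leAt H.pble hTop hF ho (le_refl (n - 1))
    have hsl := Pool.NMS.slope_eq (D := fun a => LvT hn PB o (n - 1) a a)
      (D' := fun a => LvL hn P P' o (n - 1) a a) d2 d1 d3
      (Pool.NMS.dia_le (H.lawT o (n - 1)) (H.lawL o (n - 1)) g0 g1 hle)
    rw [LvT_top] at d2 d3 hsl
    rw [eL] at d1 d3 hsl
    -- the two cases of (C)
    have hC : ThinAt P (PT hn PB o) g ∨ SteepAt 2 (PT hn PB o) g → SteepAt 2 (PT hn PB o) g := by
      rintro (h1 | h1)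
      · exact absurd (slope_ts d2 d1 d3 hsl h1 hsta) (not_le.2 hS)
      · exact h1
    by_cases hS2 : deriv (fun a => P a a) g ≤ 2
    · have hB := a3 R hS2
      obtain ⟨b1, b2⟩ := a5 o ho hB
      have b3 := slope_st hLT g0 g1 d2 (hC b2)
      refine ⟨le_antisymm hS2 (hsl ▸ b3), fun i hi => ?_, hB⟩
      have e1 : LvL hn P P' o i = bet (P' o.2) (cc hn o.1.1) i := by
        funext a w
        exact LvL_lt o hi a w
      unfold ThS
      rw [e1]
      exact b1 i hi
    · exfalso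
      push Not at hS2
      have hlt : PT hn PB o g g < 1 := by
        rw [← d3]
        exact R.rwd.val
      rcases a7 g0 g1 hlt with h1 | h1
      · have b1 : ∀ i < n - 1, ThS hn P P' PB o i g := fun i hi =>
          a9 o ho (n - 2) (by omega) (fun j hj => by
            by_cases hs : deriv (fun a => LvL hn P P' o j a a) g ≤ 2
            · exact Or.inl hs
            · refine Or.inr fun b2 b3 => Or.inr ?_
              rw [lvL_eq o (by omega)] at hs ⊢
              rcases Nat.eq_zero_or_pos j with h0 | h0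
              · rw [h0]
                exact a10 ho
              · exact a4 R hS2 hsta h1 j h0 (by omega) b2 (not_le.1 hs) b3) i (by omega)
        exact STR.not_iso_of_steep (by norm_num) (hC (a6 o ho b1)) h1
      · exact absurd (a2 R h1) (not_le.2 hS2)
  refine nore_of H hTop hF (fun o => ?_) (fun o => ?_) fun o l => ?_
  · filter_upwards [sta_mic H hTop hF hM o] with g h1 R _
    exact h1 R
  · filter_upwards [hw o, H.dia_all H.pble hTop hF] with g h1 h2 R hS l hl1 hl _
    have ho := R.rwd.mem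
    obtain ⟨-, b1, -⟩ := h1 R hS
    rcases b1 l hl with h3 | h3
    · refine Or.inr ?_
      obtain ⟨d1, d2, d3⟩ := h2 o ho l hl.le
      have hle := H.leAt H.pble hTop hF ho hl.le
      have hsl := Pool.NMS.slope_eq (D := fun a => LvT hn PB o l a a)
        (D' := fun a => LvL hn P P' o l a a) d2 d1 d3
        (Pool.NMS.dia_le (H.lawT o l) (H.lawL o l) R.rwd.g0 R.rwd.g1 hle)
      have h4 := rg_thin d2 d3 hsl h3
      rwa [lvL_eq o hl.le] at h4
    · refine Or.inl ?_
      rwa [lvL_eq o hl.le] at h3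
  · filter_upwards [hw o, hc o l] with g h1 h2 R hS hC
    obtain ⟨b1, -, b3⟩ := h1 R hS
    have h3 := h2 R hS hC
    have h4 : deriv (fun a => LL hn P P' o (l + 1) a a) g ≤ 2 := by
      have h5 := b3 l hC.ln
      rwa [show (H.nk hTop hF).dg o l = fun a => LL hn P P' o (l + 1) a a by
        funext a
        exact H.dg_eq hTop hF o hC.ln.le a] at h5
    have h6 := mul_le_mul_of_nonneg_left h4 hh
    have h7 := R.defi
    rw [b1] at h3
    linarith

/-- **The static chains for `n = 2`.** -/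
theorem nore_two (H : PkT hn S P r P' Λ PB) (hTop : TopS n) (hF : FZX (n - 1)) {h : ℝ}
    (h2 : n = 2) : NoRE H hTop hF h := by
  intro o
  filter_upwards [sta_zero H hTop hF o] with g h1 R _ i hi
  have : i = 0 := by omega
  rw [this]
  exact h1 R.rwd.mem

end

end Pool.Z4
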