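import Pool.Agent.H77.Z4.Nor4

/-!
# The static chains: windows with one coordinate of slope one

`V0C`: at a row of large deficit with a static target, if a coordinate of the base besides the first
one has slope one, then all coordinates of the base are static. `Xv`: the windows at which the count
is used. `nore_ind5`: the static chains from `V0C` and the inputs at the windows where the slopes of
all the other coordinates are larger than one. `v0C_three`, `v0C_four`: `V0C` in dimension three,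
and in dimension four from its two cases.
-/

set_option autoImplicit false

namespace Pool.Z4

open MeasureTheory Set Filter Topology
open Pool.Agent.H49.Ent Pool.Agent.H32.Dense Pool.STK Pool.KA Pool.KSAT Pool.K2S Pool.PB
open Pool.GEN Pool.S6C Pool.STAT Pool.CHT Pool.GRW Pool.ONE Pool.STA Pool.PKG Pool.ZFN Pool.TOP
open Pool.LBT (LSys ThrOf)
open Pool.LEV (Law Lv)
open Pool.ALL (RateOf)
open Pool.STR (NumI StaAt ThinAt SteepAt MicW affB_of)

variable {n : ℕ} {hn : 2 ≤ n} {S : PCl n} {P : ℝ → ℝ → ℝ} {r : ℝ → ℝ}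
  {P' : ℕ → List (Fin n) × Fin n → ℝ → ℝ → ℝ} {Λ : Finset (Fin n) → Fin n → ℝ → ℝ → ℝ}
  {PB : ℕ → List (Fin n) × Fin n → ℝ → ℝ → ℝ}

/-- Static and rough from above: the slope is at most one. -/
theorem slope_sr {Q : ℝ → ℝ → ℝ} {g : ℝ} (hd : DifferentiableAt ℝ (fun a => Q a a) g)
    (hsta : StaAt Q g) (hrg : RgUp Q g (Q g g) (deriv (fun a => Q a a) g)) :
    deriv (fun a => Q a a) g ≤ 1 := by
  by_contra hcon
  push Not at hcon
  obtain ⟨e, he⟩ : ∃ e, e = (deriv (fun a => Q a a) g - 1) / 4 := ⟨_, rfl⟩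
  have he0 : 0 < e := by rw [he]; linarith
  obtain ⟨r₁, hr₁, k1⟩ := hrg e he0
  obtain ⟨r₂, hr₂, k2⟩ := hsta e he0
  obtain ⟨r₃, hr₃, k3⟩ := affB_of hd (M := 1) (e := e) one_pos he0
  obtain ⟨r, hr⟩ : ∃ r, r = min r₁ (min r₂ r₃) / 2 := ⟨_, rfl⟩
  have hm : 0 < min r₁ (min r₂ r₃) := lt_min hr₁ (lt_min hr₂ hr₃)
  have hr0 : 0 < r := by rw [hr]; linarith
  have hlt : r < min r₁ (min r₂ r₃) := by rw [hr]; linarith
  have c1 := k1 r hr0 (hlt.trans_le (min_le_left _ _)) (g + r) g (by linarith) (by linarith)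
    le_rfl
  have c2 := k2 r hr0 ((hlt.trans_le (min_le_right _ _)).trans_le (min_le_left _ _)) (g + r) g
    (by linarith) (by linarith) (by linarith)
  have c3 := (abs_le.1 (k3 r hr0 ((hlt.trans_le (min_le_right _ _)).trans_le (min_le_right _ _))
    (g + r) (by rw [abs_le]; constructor <;> linarith))).1
  have e1 : g + r - g = r := by ring
  rw [e1] at c1 c3
  have e2 : 4 * e * r = (deriv (fun a => Q a a) g - 1) * r := by rw [he]; ring
  nlinarith

/-- **A second coordinate of slope one**: the coordinates of the base are static. -/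
def V0C (H : PkT hn S P r P' Λ PB) (hTop : TopS n) (hF : FZX (n - 1)) (h : ℝ) : Prop :=
  ∀ o : Od n, ∀ᵐ g : ℝ, RwH H hTop hF h o g → 1 < deriv (fun a => P a a) g → StaAt P g →
    (∃ i, 1 ≤ i ∧ i < n - 1 ∧ deriv (fun a => LL hn P P' o (i + 1) a a) g ≤ 1) →
    ∀ i < n - 1, StaAt (LL hn P P' o (i + 1)) g

/-- The other coordinates of the base have slopes larger than one. -/
def One1 (hn : 2 ≤ n) (P : ℝ → ℝ → ℝ) (P' : ℕ → List (Fin n) × Fin n → ℝ → ℝ → ℝ) (o : Od n)
    (g : ℝ) : Prop :=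
  ∀ i, 1 ≤ i → i < n - 1 → 1 < deriv (fun a => LL hn P P' o (i + 1) a a) g

/-- **The windows at which the count is used.** -/
structure Xv (hn : 2 ≤ n) (P : ℝ → ℝ → ℝ) (P' PB : ℕ → List (Fin n) × Fin n → ℝ → ℝ → ℝ)
    (o : Od n) (l : ℕ) (g : ℝ) : Prop extends Xw hn P P' PB o l g where
  one1 : One1 hn P P' o g

/-- **The static chains**: the inputs for one coordinate of slope one, and `V0C`. -/
theorem nore_of5 (H : PkT hn S P r P' Λ PB) (hTop : TopS n) (hF : FZX (n - 1)) {h : ℝ}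
    (hh : 0 ≤ h) (hM : MicRt P r h) (hV : V0C H hTop hF h)
    (hbig : ∀ o : Od n, ∀ᵐ g : ℝ, RwH H hTop hF h o g → 1 < deriv (fun a => P a a) g →
      StaAt P g → One1 hn P P' o g → ∀ i, 1 ≤ i → i < n - 1 →
      (∀ l < i, ThS hn P P' PB o l g) →
      2 < deriv (fun a => LL hn P P' o (i + 1) a a) g →
      SteepAt 2 (LvT hn PB o i) g → StaAt (LL hn P P' o (i + 1)) g)
    (hc : ∀ (o : Od n) (l : ℕ), ∀ᵐ g : ℝ, RwH H hTop hF h o g → Xv hn P P' PB o l g →
      deriv (fun a => P a a) g * (1 - deriv r (P g g)) ≤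
        h * deriv (fun a => LL hn P P' o (l + 1) a a) g)
    (hc0 : ∀ (o : Od n) (l : ℕ), ∀ᵐ g : ℝ, RwH H hTop hF h o g → StaAt P g →
      2 ≤ deriv (fun a => P a a) g → One1 hn P P' o g →
      (∀ i < n - 1, ThS hn P P' PB o i g) → Cfg hn P P' o l g →
      deriv (fun a => P a a) g < deriv (fun a => LL hn P P' o (l + 1) a a) g → False) :
    NoRE H hTop hF h := by
  -- the windows
  have hw : ∀ o : Od n, ∀ᵐ g : ℝ, RwH H hTop hF h o g → 1 < deriv (fun a => P a a) g →
      StaAt P g ∧ ((∀ i < n - 1, StaAt (LL hn P P' o (i + 1)) g) ∨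
        (One1 hn P P' o g ∧ 2 ≤ deriv (fun a => P a a) g ∧
          ∀ i < n - 1, ThS hn P P' PB o i g)) := by
    intro o
    filter_upwards [sta_mic H hTop hF hM o, hV o, hbig o, ths_of H hTop hF, win2 H hTop hF]
      with g a1 a0 a2 a3 a4 R hS
    refine ⟨a1 R, ?_⟩
    by_cases hex : ∃ i, 1 ≤ i ∧ i < n - 1 ∧ deriv (fun a => LL hn P P' o (i + 1) a a) g ≤ 1
    · exact Or.inl (a0 R hS (a1 R) hex)
    · push Not at hex
      have h1 : One1 hn P P' o g := fun i h1 h2 => hex i h1 h2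
      have b1 := a3 o R.rwd.mem (a2 R hS (a1 R) h1)
      exact Or.inr ⟨h1, a4 o R.rwd.mem hS (a1 R) b1, b1⟩
  refine nore_of H hTop hF (fun o => ?_) (fun o => ?_) fun o l => ?_
  · filter_upwards [sta_mic H hTop hF hM o] with g h1 R _
    exact h1 R
  · filter_upwards [hw o, rg_ths H hTop hF] with g h1 h3 R hS l hl1 hl _
    rcases (h1 R hS).2 with h4 | h4
    · exact Or.inl (h4 l hl)
    · exact h3 o R.rwd.mem l hl.le (h4.2.2 l hl)
  · filter_upwards [hw o, hc o l, hc0 o l] with g h1 h2 h3 R hS hC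
    obtain ⟨b0, b4⟩ := h1 R hS
    rcases b4 with b4 | ⟨b3, b1, b2⟩
    · have h5 := slope_sr (hC.dif l hC.ln.le) (b4 l hC.ln) hC.rg
      exact absurd hC.one (not_lt.2 h5)
    refine h3 R b0 b1 b3 b2 hC ?_
    by_contra hcon
    push Not at hcon
    have h5 := h2 R ⟨⟨b0, b1, b2, hC, hcon⟩, b3⟩
    have h7 := R.defi
    have h8 : deriv (fun a => P a a) g * h < deriv (fun a => P a a) g * (1 - deriv r (P g g)) :=
      mul_lt_mul_of_pos_left (by linarith) (by linarith)
    have h10 := mul_le_mul_of_nonneg_left hcon hh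
    linarith

/-- **The static chains of a package**, inside the induction. -/
theorem nore_ind5 {η : ℝ → ℝ} (hMic : LocE n η MicRt) (hi : ∀ k, 2 ≤ k → k < n → Ext0 k)
    (hn : 2 ≤ n) (hZ : ∀ k, 1 ≤ k → k < n → FZX k) (hF : FZX (n - 1)) (hTop : TopS n)
    {D : ℝ} (hD : 0 < D) (hD1 : D ≤ 1) (hη : 0 < η D) (hη1 : η D ≤ 1)
    (hE : Ext n ((1 + η D) * D)) (H : PkT hn S P r P' Λ PB)
    (hV : V0C H hTop hF ((1 - η D) * D))
    (hbig : ∀ o : Od n, ∀ᵐ g : ℝ, RwH H hTop hF ((1 - η D) * D) o g →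
      1 < deriv (fun a => P a a) g → StaAt P g → One1 hn P P' o g → ∀ i, 1 ≤ i → i < n - 1 →
      (∀ l < i, ThS hn P P' PB o l g) →
      2 < deriv (fun a => LL hn P P' o (i + 1) a a) g →
      SteepAt 2 (LvT hn PB o i) g → StaAt (LL hn P P' o (i + 1)) g)
    (hc0 : ∀ (o : Od n) (l : ℕ), ∀ᵐ g : ℝ, RwH H hTop hF ((1 - η D) * D) o g → StaAt P g →
      2 ≤ deriv (fun a => P a a) g → One1 hn P P' o g →
      (∀ i < n - 1, ThS hn P P' PB o i g) → Cfg hn P P' o l g →
      deriv (fun a => P a a) g < deriv (fun a => LL hn P P' o (l + 1) a a) g → False)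
    (hMev : ∀ (o : Od n) (l : ℕ), 1 ≤ l → l < n - 1 → ∃ C : ℝ, 1 ≤ C ∧
      MevX hn S P r P' Λ o l
        (fun g => RwH H hTop hF ((1 - η D) * D) o g ∧ Xv hn P P' PB o l g) C) :
    NoRE H hTop hF ((1 - η D) * D) := by
  have h1 : (1 - η D) * D < 1 := by nlinarith
  have h0 : 0 ≤ (1 - η D) * D := mul_nonneg (by linarith) hD.le
  refine nore_of5 H hTop hF h0 (mic_pk hMic hn hZ hD hD1 hE H.toPk) hV hbig
    (fun o l => ?_) hc0
  filter_upwards [cnt_mevX H hTop (hZ 1 le_rfl (by omega)) hF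
    (rw_all hZ fun k k1 k2 => rowN_of_ext (hi k k1 k2)) h0 h1
    (fun al g₀ hal hg₀ N S' P r h2 h3 h4 E =>
      rgFull_locRt hMic hn hZ hD hD1 hη1 hE hal hg₀ h2 h3 h4 E) hMev o l] with g k1 R hX
  exact k1 R.rwd.mem hX.cfg ⟨R, hX⟩

/-- A coordinate of slope one is static. -/
theorem sta_one (H : PkT hn S P r P' Λ PB) (hTop : TopS n) (hF : FZX (n - 1)) {o : Od n} {g : ℝ}
    (R : (H.nk hTop hF).RwD o g) {i : ℕ} (hi : i ≤ n - 1)
    (h : deriv (fun a => LL hn P P' o (i + 1) a a) g ≤ 1) : StaAt (LL hn P P' o (i + 1)) g := by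
  refine sta_of_one (ll_law H.toPk o hi) R.g0 R.g1 (ll_le1 H.toPk o hi) ?_ h
  have h1 := R.dif i hi
  have h2 : (H.nk hTop hF).dg o i = fun a => LL hn P P' o (i + 1) a a := by
    funext a
    exact H.dg_eq hTop hF o hi a
  rwa [h2] at h1

/-- `V0C` with at most two coordinates in the base. -/
theorem v0C_three (H : PkT hn S P r P' Λ PB) (hTop : TopS n) (hF : FZX (n - 1)) {h : ℝ}
    (h3 : n ≤ 3) : V0C H hTop hF h := by
  intro o
  filter_upwards [sta_zero H hTop hF o] with g k1 R _ _ hex i hi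
  obtain ⟨j, hj1, hj, hs⟩ := hex
  rcases Nat.eq_zero_or_pos i with h0 | h0
  · rw [h0]
    exact k1 R.rwd.mem
  · have : i = j := by omega
    rw [this]
    exact sta_one H hTop hF R.rwd (by omega) hs

/-- `V0C` with three coordinates in the base, from the case `1, 1, s` and the case `1, s, 1`. -/
theorem v0C_four (H : PkT hn S P r P' Λ PB) (hTop : TopS n) (hF : FZX (n - 1)) {h : ℝ}
    (h4 : n = 4)
    (hA : ∀ o : Od n, ∀ᵐ g : ℝ, RwH H hTop hF h o g → 1 < deriv (fun a => P a a) g →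
      StaAt P g → deriv (fun a => LL hn P P' o 2 a a) g ≤ 1 →
      1 < deriv (fun a => LL hn P P' o 3 a a) g → StaAt (LL hn P P' o 3) g)
    (hB : ∀ o : Od n, ∀ᵐ g : ℝ, RwH H hTop hF h o g → 1 < deriv (fun a => P a a) g →
      StaAt P g → deriv (fun a => LL hn P P' o 3 a a) g ≤ 1 →
      1 < deriv (fun a => LL hn P P' o 2 a a) g → StaAt (LL hn P P' o 2) g) :
    V0C H hTop hF h := by
  intro o
  filter_upwards [sta_zero H hTop hF o, hA o, hB o] with g k1 k2 k3 R hS hP hex i hi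
  obtain ⟨j, hj1, hj, hs⟩ := hex
  have hi3 : i = 0 ∨ i = 1 ∨ i = 2 := by omega
  have hj3 : j = 1 ∨ j = 2 := by omega
  rcases hi3 with rfl | rfl | rfl
  · exact k1 R.rwd.mem
  · by_cases h1 : deriv (fun a => LL hn P P' o 2 a a) g ≤ 1
    · exact sta_one H hTop hF R.rwd (by omega) h1
    · rcases hj3 with rfl | rfl
      · exact absurd hs h1
      · exact k3 R hS hP hs (not_le.1 h1)
  · by_cases h1 : deriv (fun a => LL hn P P' o 3 a a) g ≤ 1
    · exact sta_one H hTop hF R.rwd (by omega) h1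
    · rcases hj3 with rfl | rfl
      · exact k2 R hS hP hs (not_le.1 h1)
      · exact absurd hs h1

end Pool.Z4
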