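import Pool.Agent.H77.Z4.Nor3

/-!
# The static chains: the windows at which the count is used

`MevX`: the data on the events near the windows `g` with a property `X g`. `Xw`: the windows at which
the count is used: the target is static with a slope at least two, the coordinates of the base are
thin or static, the coordinate `l` is the last rough one, and its slope is at most the slope of the
target. `nore_ind4`: the static chains with the data on the events only near such windows.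
-/

set_option autoImplicit false

namespace Pool.Z4

open MeasureTheory Set Filter Topology
open Pool.Agent.H49.Ent Pool.Agent.H32.Dense Pool.STK Pool.KA Pool.KSAT Pool.K2S Pool.PB
open Pool.GEN Pool.S6C Pool.STAT Pool.CHT Pool.GRW Pool.ONE Pool.STA Pool.PKG Pool.ZFN Pool.TOP
open Pool.LBT (LSys ThrOf)
open Pool.LEV (Law Lv)
open Pool.ALL (RateOf)
open Pool.STR (NumI StaAt ThinAt SteepAt MicW)
open Pool.ZL (AffA aff_rg)
open Pool.ZFI (MevH nore_cnt LF LF_lst gs_lt right_ae cnt_A aff_der aff_one ll_bd01 zwd_of)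
open Pool.ZL Pool.ZCO Pool.ZCL Pool.ZLC

variable {n : ℕ} {hn : 2 ≤ n} {S : PCl n} {P : ℝ → ℝ → ℝ} {r : ℝ → ℝ}
  {P' : ℕ → List (Fin n) × Fin n → ℝ → ℝ → ℝ} {Λ : Finset (Fin n) → Fin n → ℝ → ℝ → ℝ}
  {PB : ℕ → List (Fin n) × Fin n → ℝ → ℝ → ℝ} {o : Od n}

/-- **The final count**, with the inequality of the zooms only near the windows of the set. -/
theorem cntX (H : Pk hn S P r P' Λ) (hTop : Pool.TOP.TopS n) (hF : FZX (n - 1)) {l : ℕ}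
    (hl : l < n - 1) {C : ℝ} (hC : 1 ≤ C) {h₀ : ℝ} (hh0 : 0 ≤ h₀) (hh : h₀ < 1)
    {Φ : ℝ → (ℕ → ℝ) → (ℕ → ℝ) → Prop}
    (hI : ∀ (gap : ℝ) (lam T : ℕ → ℝ) (rho : ℝ), Vs l n lam T gap → 0 < rho →
      ∀ g ∈ Gs P r P' Λ o ∩ Eg (LF hn P P' o) l n lam T (epg n C gap) rho,
      (∃ la t : ℕ → ℝ, ZFI.Cfg hn P P' o l g la t ∧ Φ g la t) →
      ∃ ϱ : ℝ, 0 < ϱ ∧ ∀ δ : ℚ, 0 < δ → ∀ᵐ w₁ : ℝ,
        w₁ ∈ Gs P r P' Λ o ∩ Eg (LF hn P P' o) l n lam T (epg n C gap) rho →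
        w₁ + δ ∈ Gs P r P' Λ o ∩ Eg (LF hn P P' o) l n lam T (epg n C gap) rho →
        g - ϱ < w₁ → w₁ < g → g < w₁ + δ → w₁ + δ < g + ϱ →
        ∀ (A : Set ℝ) (s₀ : ℝ), 1 < s₀ →
        (∀ x ∈ A, x ∈ Eg (LF hn P P' o) l n lam T (epg n C gap) rho ∧
          x ∈ Gs P r P' Λ o ∧ Nogap (Gs P r P' Λ o) x ∧ LF hn P P' o l x x < 1 ∧
          s₀ ≤ deriv (fun v => LF hn P P' o l v v) x ∧
          ∃ la t : ℕ → ℝ, ZFI.Cfg hn P P' o l x la t ∧ Φ x la t) →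
        ENNReal.ofReal ((1 - h₀) * s₀) * volume (A ∩ Ioo w₁ (w₁ + δ)) ≤
        ENNReal.ofReal (LF hn P P' o l (w₁ + δ) (w₁ + δ) - LF hn P P' o l w₁ w₁ -
          (P (w₁ + δ) (w₁ + δ) - P w₁ w₁ - (r (P (w₁ + δ) (w₁ + δ)) - r (P w₁ w₁))))) :
    ∀ᵐ g : ℝ, g ∈ Gs P r P' Λ o → (∃ la t : ℕ → ℝ, ZFI.Cfg hn P P' o l g la t ∧ Φ g la t) →
      1 < deriv (fun v => LF hn P P' o l v v) g →
      deriv (fun v => P v v) g * (1 - deriv r (P g g)) ≤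
        h₀ * deriv (fun v => LF hn P P' o l v v) g := by
  have hPl := H.tgs.law ()
  have hrl : ∀ᵐ Q : ℝ, DifferentiableAt ℝ r Q := H.rate.lip.ae_differentiableAt_real
  -- one index
  have key : ∀ ι : Eix n, Vs l n (fx ι.2.1) (fx ι.2.2.1) ι.1 → (0 : ℝ) < ι.2.2.2 → ∀ᵐ g : ℝ,
      g ∈ {g | g ∈ Gs P r P' Λ o ∩ Eg (LF hn P P' o) l n (fx ι.2.1) (fx ι.2.2.1) (epg n C ι.1)
          ι.2.2.2 ∧ Nogap (Gs P r P' Λ o) g ∧ DifferentiableAt ℝ r (P g g) ∧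
          1 < deriv (fun v => LF hn P P' o l v v) g ∧
          ∃ la t : ℕ → ℝ, ZFI.Cfg hn P P' o l g la t ∧ Φ g la t} →
      deriv (fun v => P v v) g * (1 - deriv r (P g g)) ≤
        h₀ * deriv (fun v => LF hn P P' o l v v) g := by
    intro ι V hrho
    refine zcount (D := fun v => LF hn P P' o l v v) (P := fun v => P v v) (r := r)
      (G := Gs P r P' Λ o ∩ Eg (LF hn P P' o) l n (fx ι.2.1) (fx ι.2.2.1) (epg n C ι.1)
          ι.2.2.2)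
      ((H.gs_meas o).inter (eg_meas (fun i hi hin => ZFI.ll_law H hin) (ll_bd01 H l) (V.e0 hC).le))
      (fun g hg => hg.1) hh hh0 ?_ ?_
    · rintro g ⟨⟨h1, h2⟩, -, h3, h4, la, t, h5, -⟩
      refine ⟨h2.1, h2.2.1, (aff_der (h5.aff l le_rfl (by omega))).differentiableAt, h4, ?_, h3⟩
      have h6 := aff_der (h5.aff (n - 1) (by omega) (by omega))
      rw [LF_lst] at h6
      exact h6.differentiableAt
    · rintro g ⟨h1, -, -, -, hX⟩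
      obtain ⟨ϱ, hϱ, h2⟩ := hI ι.1 (fx ι.2.1) (fx ι.2.2.1) ι.2.2.2 V hrho g h1 hX
      refine ⟨ϱ, hϱ, fun δ hδ => ?_⟩
      filter_upwards [h2 δ hδ] with w₁ h3 k1 k2 k3 k4 k5 k6 s₀ hs₀
      refine h3 k1 k2 k3 k4 k5 k6 _ s₀ hs₀ ?_
      rintro x ⟨⟨⟨a1, a2⟩, a3, a4, a5, a6⟩, a7⟩
      exact ⟨a2, a1, a3, gs_lt H a1 (by omega) hTop hF, a7, a6⟩
  have hall : ∀ᵐ g : ℝ, ∀ ι : Eix n, Vs l n (fx ι.2.1) (fx ι.2.2.1) ι.1 → (0 : ℝ) < ι.2.2.2 →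
      g ∈ {g | g ∈ Gs P r P' Λ o ∩ Eg (LF hn P P' o) l n (fx ι.2.1) (fx ι.2.2.1) (epg n C ι.1)
          ι.2.2.2 ∧ Nogap (Gs P r P' Λ o) g ∧ DifferentiableAt ℝ r (P g g) ∧
          1 < deriv (fun v => LF hn P P' o l v v) g ∧
          ∃ la t : ℕ → ℝ, ZFI.Cfg hn P P' o l g la t ∧ Φ g la t} →
      deriv (fun v => P v v) g * (1 - deriv r (P g g)) ≤
        h₀ * deriv (fun v => LF hn P P' o l v v) g := by
    rw [ae_all_iff]
    intro ι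
    by_cases h1 : Vs l n (fx ι.2.1) (fx ι.2.2.1) ι.1 ∧ (0 : ℝ) < ι.2.2.2
    · filter_upwards [key ι h1.1 h1.2] with g h2 _ _ h3
      exact h2 h3
    · exact Filter.Eventually.of_forall fun g h2 h3 => absurd ⟨h2, h3⟩ h1
  have hrat : ∀ᵐ g : ℝ, DifferentiableAt ℝ (dgP P) g → 0 < deriv (dgP P) g →
      dgP P g ∉ {Q | ¬ DifferentiableAt ℝ r Q} :=
    Pool.STR.ae_notMem_of_null (dgP_mono hPl) (ae_iff.1 hrl)
  filter_upwards [hall, hrat, nogap_ae (H.gs_meas o)] with g h1 h2 h3 hg ⟨la, t, hcf, hΦ⟩ hs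
  obtain ⟨α, Q, c, Fc⟩ := H.fac hTop hF hg
  have hg0 := Fc.g0
  have hg1 := Fc.g1
  obtain ⟨ι, V, hrho, hE⟩ := eg_ex hC hg0 hg1 (show l < n by omega) hcf.aff hcf.la1 hcf.t0 hcf.ti
  refine h1 ι V hrho ⟨⟨hg, hE⟩, h3 hg, ?_, hs, la, t, hcf, hΦ⟩
  -- the rate
  have h4 := hcf.aff (n - 1) (by omega) (by omega)
  rw [LF_lst] at h4
  have hP1 : P g g < 1 := by
    have := gs_lt H hg (show n - 1 < n by omega) hTop hF
    rwa [LF_lst] at this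
  have h5 := aff_der h4
  have h6 : HasDerivAt (dgP P) (la (n - 1) + t (n - 1)) g := by
    refine h5.congr_of_eventuallyEq ?_
    filter_upwards [Ioo_mem_nhds hg0 hg1] with v hv
    exact dgP_eq P hv.1.le hv.2.le
  have h7 := aff_one hPl hg0 hg1 hP1 h4
  have h8 := h2 h6.differentiableAt (by rw [h6.deriv]; linarith)
  rw [dgP_eq P hg0.le hg1.le] at h8
  by_contra hcon
  exact h8 hcon

/-- **The data on the events** for almost all pairs of good windows near the windows with `X`. -/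
def MevX (hn : 2 ≤ n) (S : PCl n) (P : ℝ → ℝ → ℝ) (r : ℝ → ℝ)
    (P' : ℕ → List (Fin n) × Fin n → ℝ → ℝ → ℝ) (Λ : Finset (Fin n) → Fin n → ℝ → ℝ → ℝ)
    (o : Od n) (l : ℕ) (X : ℝ → Prop) (C : ℝ) : Prop :=
  ∀ (gap : ℝ) (lam T : ℕ → ℝ) (rho : ℝ), Vs l n lam T gap → 0 < rho →
    ∀ g ∈ Gs P r P' Λ o ∩ Eg (LF hn P P' o) l n lam T (epg n C gap) rho, X g →
    ∃ ϱ : ℝ, 0 < ϱ ∧ ∀ δ : ℚ, 0 < δ → ∀ᵐ w₁ : ℝ,
      w₁ ∈ Gs P r P' Λ o ∩ Eg (LF hn P P' o) l n lam T (epg n C gap) rho →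
      w₁ + δ ∈ Gs P r P' Λ o ∩ Eg (LF hn P P' o) l n lam T (epg n C gap) rho →
      g - ϱ < w₁ → w₁ < g → g < w₁ + δ → w₁ + δ < g + ϱ →
      ∃ a₀ w₀ b : ℝ, Bse (lam l) (Kg n gap) b a₀ w₀ w₁ ∧ w₀ < w₁ ∧ w₁ + δ < a₀ ∧
        a₀ - w₀ < rho ∧ ∃ (M : MDat) (Vd : Rq → Prop) (β : ℕ → ℝ → ℝ → ℝ) (E₁ : ℝ),
        (∀ i ≤ n - 1, β i = LF hn P P' o i) ∧ MOk n M Vd ∧
        (∀ w : ℝ, w = w₁ ∨ w = w₁ + δ → ∀ i ≤ n - 1, β i w w + M.E + 2 * M.ϱ ≤ 1) ∧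
        VdG w₁ δ M (fun a w => C * psi (LF hn P P' o) l n T a₀ w₀ b (Kg n gap) a w) Vd ∧
        0 ≤ E₁ ∧ β (n - 1) (w₁ + δ) (w₁ + δ) + E₁ < 1 ∧ (∀ q, Vd q → q.w ≤ q.a ∧ q.a ≤ 1) ∧
        MEvt S M w₁ E₁ (cc hn o.1.1) (n - 1) l β Vd

/-- **The slope of the target** at the windows with `X`. -/
theorem nore_cntX (H : Pk hn S P r P' Λ) (hTop : Pool.TOP.TopS n) (hF1 : FZX 1)
    (hF : FZX (n - 1)) (hW : ∀ k, 2 ≤ k → k < n → Pool.TOP.RW k)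
    {s : Fin n → ℝ} {d : ℕ → ℝ} {al : ℝ} {g₀ : ℝ → ℝ} {e₀ : ℝ} {K₀ : ℕ} {N : ℚ → ℚ → ℝ}
    (hal : 0 < al) (hg₀ : ∀ ε : ℝ, 0 < ε → 0 < g₀ ε) (hC : ClX s d al g₀ e₀ K₀ N S)
    {l : ℕ} (hl1 : 1 ≤ l) (hl : l < n - 1) {C : ℝ} (hC1 : 1 ≤ C) {X : ℝ → Prop}
    (hMev : MevX hn S P r P' Λ o l X C) {h₀ : ℝ} (hh0 : 0 ≤ h₀) (hh : h₀ < 1)
    (hM : ∀ w₁ ∈ Gs P r P' Λ o, ∀ (S' : PCl n) (P : ℝ → ℝ → ℝ) (r : ℝ → ℝ),
      ClX (fun _ => 0) (fun _ => 1) al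
      (fun x => min (g₀ (x / 2)) 1) 2 0 (NZR S (cc hn o.1.1 0) (al + 1) w₁) S' →
      ThrOf (tgs (lst hn)) S' (fun _ => P) → RateOf S' (lst hn) r → ∀ E, RgFull P r h₀ E) :
    ∀ᵐ g : ℝ, g ∈ Gs P r P' Λ o → (∃ la t : ℕ → ℝ, ZFI.Cfg hn P P' o l g la t ∧ la l = 1) →
      X g → deriv (fun v => P v v) g * (1 - deriv r (P g g)) ≤
        h₀ * deriv (fun v => LL hn P P' o (l + 1) v v) g := by
  have hmain := cntX H hTop hF hl hC1 hh0 hh (Φ := fun g la _ => la l = 1 ∧ X g) (o := o) ?_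
  · filter_upwards [hmain] with g h1 hg hcf hX
    obtain ⟨la, t, h2, h3⟩ := hcf
    refine h1 hg ⟨la, t, h2, h3, hX⟩ ?_
    have h4 := h2.t0
    rw [(aff_der (h2.aff l le_rfl (by omega))).deriv, h3]
    linarith
  · rintro gap lam T rho V hrho g hg ⟨_, _, _, _, hX⟩
    obtain ⟨ϱ, hϱ, h1⟩ := hMev gap lam T rho V hrho g hg hX
    refine ⟨ϱ, hϱ, fun δ hδ => ?_⟩
    filter_upwards [h1 δ hδ, right_ae (Gs P r P' Λ o)] with w₁ h2 hR k1 k2 k3 k4 k5 k6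
    obtain ⟨a₀, w₀, b, B, h01, hδa, har, M, Vd, β, E₁, hβ, hMO, hnum, hV, hE0, hE1, hVd, hME⟩ :=
      h2 k1 k2 k3 k4 k5 k6
    have Z := zwd_of H hl1 hl V hC1 hδ B hδa.le har k1.1 k1.2 k2.1 k2.2 (hR k1.1) hβ hMO hnum hV
    refine fun A s₀ hs₀ hA => cnt_A (hn := hn) (P := P) (P' := P') (Λ := Λ) (r := r) (o := o)
      (by omega) V hC1 hrho B h01 hδa har (Ψ := fun A s₀ => ENNReal.ofReal ((1 - h₀) * s₀) *
        volume (A ∩ Ioo w₁ (w₁ + δ)) ≤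
        ENNReal.ofReal (LF hn P P' o l (w₁ + δ) (w₁ + δ) - LF hn P P' o l w₁ w₁ -
          (P (w₁ + δ) (w₁ + δ) - P w₁ w₁ - (r (P (w₁ + δ) (w₁ + δ)) - r (P w₁ w₁)))))
      (fun A σ s₀ hs₀ hA => ?_) A s₀ hs₀ fun x hx => ?_
    · exact zw_mevt' Z H hTop hF1 hF hW hal hg₀ hC hE0 hE1 hVd hME hs₀ hh.le hA (hM w₁ k1.1)
    · obtain ⟨a1, a2, a3, a4, a5, la, t, a6, a7, -⟩ := hA x hx
      exact ⟨a1, a2, a3, a4, a5, la, t, a6, a7⟩

/-- **The windows at which the count is used.** -/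
structure Xw (hn : 2 ≤ n) (P : ℝ → ℝ → ℝ) (P' PB : ℕ → List (Fin n) × Fin n → ℝ → ℝ → ℝ)
    (o : Od n) (l : ℕ) (g : ℝ) : Prop where
  sta : StaAt P g
  two : 2 ≤ deriv (fun a => P a a) g
  ths : ∀ i < n - 1, ThS hn P P' PB o i g
  cfg : Cfg hn P P' o l g
  le : deriv (fun a => LL hn P P' o (l + 1) a a) g ≤ deriv (fun a => P a a) g

/-- The count from the data on the events near the windows with `X`. -/
theorem cnt_mevX (H : PkT hn S P r P' Λ PB) (hTop : TopS n) (hF1 : FZX 1) (hF : FZX (n - 1))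
    (hW : ∀ k, 2 ≤ k → k < n → Pool.TOP.RW k) {h : ℝ} (hh : 0 ≤ h) (hh1 : h < 1)
    (hRg : ∀ (al : ℝ) (g₀ : ℝ → ℝ), 0 < al → (∀ ε : ℝ, 0 < ε → 0 < g₀ ε) →
      ∀ (N : ℚ → ℚ → ℝ) (S' : PCl n) (P : ℝ → ℝ → ℝ) (r : ℝ → ℝ),
      ClX (fun _ => 0) (fun _ => 1) al g₀ 2 0 N S' →
      ThrOf (tgs (lst hn)) S' (fun _ => P) → RateOf S' (lst hn) r → ∀ E, RgFull P r h E)
    {X : Od n → ℕ → ℝ → Prop}
    (hMev : ∀ (o : Od n) (l : ℕ), 1 ≤ l → l < n - 1 →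
      ∃ C : ℝ, 1 ≤ C ∧ MevX hn S P r P' Λ o l (X o l) C) (o : Od n) (l : ℕ) :
    ∀ᵐ g : ℝ, g ∈ Gs P r P' Λ o → Cfg hn P P' o l g → X o l g →
      deriv (fun a => P a a) g * (1 - deriv r (P g g)) ≤
        h * deriv (fun a => LL hn P P' o (l + 1) a a) g := by
  by_cases hl : 1 ≤ l ∧ l < n - 1
  swap
  · exact Eventually.of_forall fun g _ hC => absurd ⟨hC.l1, hC.ln⟩ hl
  obtain ⟨hl1, hl2⟩ := hl
  obtain ⟨al, g₀, s, d, e, K₀, N, hal, hg₀, hC⟩ := H.toPk.cl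
  obtain ⟨C, hC1, hMe⟩ := hMev o l hl1 hl2
  have hg₀' : ∀ ε : ℝ, 0 < ε → 0 < (fun x => min (g₀ (x / 2)) 1) ε := fun ε hε =>
    lt_min (hg₀ _ (by linarith)) one_pos
  have hcnt := nore_cntX H.toPk hTop hF1 hF hW hal hg₀ hC hl1 hl2 hC1 hMe hh hh1
    fun w₁ _ S' P r h1 h2 h3 E => hRg al _ hal hg₀' _ S' P r h1 h2 h3 E
  filter_upwards [hcnt] with g h1 hg hCf hX
  have g0 : 0 < g := hg.1.1.1
  have g1 : g < 1 := hg.1.1.2.1
  obtain ⟨σ, hσ⟩ : ∃ σ, σ = deriv (fun a => LL hn P P' o (l + 1) a a) g := ⟨_, rfl⟩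
  have hσ1 : 1 < σ := by rw [hσ]; exact hCf.one
  refine h1 hg ⟨fun i => if i = l then 1 else deriv (fun v => LF hn P P' o i v v) g,
    fun i => if i = l then σ - 1 else 0, ⟨fun i hi hin => ?_, ?_, ?_, fun i hi hin => ?_⟩, ?_⟩ hX
  · by_cases h2 : i = l
    · rw [if_pos h2, if_pos h2, h2]
      refine aff_rg (ll_law H.toPk o hl2.le) g0 g1 (hCf.lt l hl2.le) ?_ ?_
      · rw [hσ]
        exact hCf.rg
      · rw [hσ]
        exact STR.dgLo_of (hCf.dif l hl2.le)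
    · rw [if_neg h2, if_neg h2]
      exact aff_sta (ll_law H.toPk o (by omega)) g0 g1 (hCf.dif i (by omega))
        (hCf.sta i (by omega) (by omega))
  · simp
  · simp only [if_true]
    linarith
  · simp only [if_true]
    rw [if_neg (by omega)]
    linarith
  · simp

/-- **The static chains**: the count is used only at the windows of `Xw`. -/
theorem nore_of4 (H : PkT hn S P r P' Λ PB) (hTop : TopS n) (hF : FZX (n - 1)) {h : ℝ}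
    (hh : 0 ≤ h) (hM : MicRt P r h)
    (hbig : ∀ o : Od n, ∀ᵐ g : ℝ, RwH H hTop hF h o g → 1 < deriv (fun a => P a a) g →
      StaAt P g → ∀ i, 1 ≤ i → i < n - 1 → (∀ l < i, ThS hn P P' PB o l g) →
      2 < deriv (fun a => LL hn P P' o (i + 1) a a) g →
      SteepAt 2 (LvT hn PB o i) g → StaAt (LL hn P P' o (i + 1)) g)
    (hc : ∀ (o : Od n) (l : ℕ), ∀ᵐ g : ℝ, RwH H hTop hF h o g → Xw hn P P' PB o l g →
      deriv (fun a => P a a) g * (1 - deriv r (P g g)) ≤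
        h * deriv (fun a => LL hn P P' o (l + 1) a a) g)
    (hc0 : ∀ (o : Od n) (l : ℕ), ∀ᵐ g : ℝ, RwH H hTop hF h o g → StaAt P g →
      2 ≤ deriv (fun a => P a a) g →
      (∀ i < n - 1, ThS hn P P' PB o i g) → Cfg hn P P' o l g →
      deriv (fun a => P a a) g < deriv (fun a => LL hn P P' o (l + 1) a a) g → False) :
    NoRE H hTop hF h := by
  -- the windows
  have hw : ∀ o : Od n, ∀ᵐ g : ℝ, RwH H hTop hF h o g → 1 < deriv (fun a => P a a) g →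
      StaAt P g ∧ 2 ≤ deriv (fun a => P a a) g ∧ ∀ i < n - 1, ThS hn P P' PB o i g := by
    intro o
    filter_upwards [sta_mic H hTop hF hM o, hbig o, ths_of H hTop hF, win2 H hTop hF]
      with g a1 a2 a3 a4 R hS
    have b1 := a3 o R.rwd.mem (a2 R hS (a1 R))
    exact ⟨a1 R, a4 o R.rwd.mem hS (a1 R) b1, b1⟩
  refine nore_of H hTop hF (fun o => ?_) (fun o => ?_) fun o l => ?_
  · filter_upwards [sta_mic H hTop hF hM o] with g h1 R _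
    exact h1 R
  · filter_upwards [hw o, rg_ths H hTop hF] with g h1 h3 R hS l hl1 hl _
    exact h3 o R.rwd.mem l hl.le ((h1 R hS).2.2 l hl)
  · filter_upwards [hw o, hc o l, hc0 o l] with g h1 h2 h3 R hS hC
    obtain ⟨b0, b1, b2⟩ := h1 R hS
    refine h3 R b0 b1 b2 hC ?_
    by_contra hcon
    push Not at hcon
    have h5 := h2 R ⟨b0, b1, b2, hC, hcon⟩
    have h7 := R.defi
    have h8 : deriv (fun a => P a a) g * h < deriv (fun a => P a a) g * (1 - deriv r (P g g)) :=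
      mul_lt_mul_of_pos_left (by linarith) (by linarith)
    have h10 := mul_le_mul_of_nonneg_left hcon hh
    linarith

/-- **The static chains of a package**, inside the induction, with the data on the events only near
the windows `Xw`. -/
theorem nore_ind4 {η : ℝ → ℝ} (hMic : LocE n η MicRt) (hi : ∀ k, 2 ≤ k → k < n → Ext0 k)
    (hn : 2 ≤ n) (hZ : ∀ k, 1 ≤ k → k < n → FZX k) (hF : FZX (n - 1)) (hTop : TopS n)
    {D : ℝ} (hD : 0 < D) (hD1 : D ≤ 1) (hη : 0 < η D) (hη1 : η D ≤ 1)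
    (hE : Ext n ((1 + η D) * D)) (H : PkT hn S P r P' Λ PB)
    (hbig : ∀ o : Od n, ∀ᵐ g : ℝ, RwH H hTop hF ((1 - η D) * D) o g →
      1 < deriv (fun a => P a a) g →
      StaAt P g → ∀ i, 1 ≤ i → i < n - 1 → (∀ l < i, ThS hn P P' PB o l g) →
      2 < deriv (fun a => LL hn P P' o (i + 1) a a) g →
      SteepAt 2 (LvT hn PB o i) g → StaAt (LL hn P P' o (i + 1)) g)
    (hc0 : ∀ (o : Od n) (l : ℕ), ∀ᵐ g : ℝ, RwH H hTop hF ((1 - η D) * D) o g → StaAt P g →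
      2 ≤ deriv (fun a => P a a) g → (∀ i < n - 1, ThS hn P P' PB o i g) → Cfg hn P P' o l g →
      deriv (fun a => P a a) g < deriv (fun a => LL hn P P' o (l + 1) a a) g → False)
    (hMev : ∀ (o : Od n) (l : ℕ), 1 ≤ l → l < n - 1 → ∃ C : ℝ, 1 ≤ C ∧
      MevX hn S P r P' Λ o l
        (fun g => RwH H hTop hF ((1 - η D) * D) o g ∧ Xw hn P P' PB o l g) C) :
    NoRE H hTop hF ((1 - η D) * D) := by
  have h1 : (1 - η D) * D < 1 := by nlinarith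
  have h0 : 0 ≤ (1 - η D) * D := mul_nonneg (by linarith) hD.le
  refine nore_of4 H hTop hF h0 (mic_pk hMic hn hZ hD hD1 hE H.toPk) hbig
    (fun o l => ?_) hc0
  filter_upwards [cnt_mevX H hTop (hZ 1 le_rfl (by omega)) hF
    (rw_all hZ fun k k1 k2 => rowN_of_ext (hi k k1 k2)) h0 h1
    (fun al g₀ hal hg₀ N S' P r h2 h3 h4 E =>
      rgFull_locRt hMic hn hZ hD hD1 hη1 hE hal hg₀ h2 h3 h4 E) hMev o l] with g k1 R hX
  exact k1 R.rwd.mem hX.cfg ⟨R, hX⟩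

end Pool.Z4
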