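import Pool.Agent.H19.SW.Co
import Pool.Agent.H77.Z4.Nor5

/-!
# The count with no loss, at the windows where it is used

The count with no loss of `H19/SW` with the data on the events only near the windows with a property
`X` (`MevX`). `Xc`: the windows at which the count with no loss is used: the target is static with a
slope at least two, the coordinates of the base are thin or static, the coordinate `l` is the last
rough one, its slope is larger than the slope of the target, and there are no ties. `hc0_ntX`: there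
are no such windows. `Xa`: the windows of both counts; `mevX_v`, `hc0_a`: the inputs of the static
chains from the data on the events near these windows.
-/

set_option autoImplicit false

namespace Pool.SW

open MeasureTheory Set Filter Topology
open Finset (range univ)
open Pool.Agent.H49.Ent Pool.Agent.H32.Dense Pool.STK Pool.KA Pool.KSAT Pool.K2S Pool.PB Pool.S6C
open Pool.GEN Pool.ONE Pool.EXW Pool.TOP Pool.ZCL Pool.ZLC Pool.ZFN Pool.ZCO Pool.PKG Pool.CHT
open Pool.Z4 Pool.ZL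
open Pool.LBT (ThrOf)
open Pool.LEV (Law)
open Pool.ALL (RateOf)
open Pool.ZFI (LF ll_law ll_bd01 aff_der aff_dg right_ae zwd_of)

variable {n : ℕ} {hn : 2 ≤ n} {S : PCl n} {P : ℝ → ℝ → ℝ} {r : ℝ → ℝ}
  {P' : ℕ → List (Fin n) × Fin n → ℝ → ℝ → ℝ} {Λ : Finset (Fin n) → Fin n → ℝ → ℝ → ℝ}
  {PB : ℕ → List (Fin n) × Fin n → ℝ → ℝ → ℝ}

/-- **The count with no loss**, with the data on the events only near the windows with `X`. -/
theorem nore_cnt0X (H : Pk hn S P r P' Λ) (hTop : Pool.TOP.TopS n) (hF1 : FZX 1)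
    (hF : FZX (n - 1)) (hn4 : n ≤ 4) (hW : ∀ k, 2 ≤ k → k < n → RW k)
    {C' : (Fin (n - 1) → ℝ) → ℝ → Prop}
    (hCm : MeasurableSet {p : (Fin (n - 1) → ℝ) × ℝ | C' p.1 p.2}) (hV : VAll hn hTop hF C')
    {s : Fin n → ℝ} {d : ℕ → ℝ} {al : ℝ} {g₀ : ℝ → ℝ} {e₀ : ℝ} {K₀ : ℕ} {N : ℚ → ℚ → ℝ}
    (hal : 0 < al) (hg₀ : ∀ ε : ℝ, 0 < ε → 0 < g₀ ε) (hC : ClX s d al g₀ e₀ K₀ N S)
    {o : Od n} {l : ℕ} (hl1 : 1 ≤ l) (hl : l < n - 1) {C : ℝ} (hC1 : 1 ≤ C) {X : ℝ → Prop}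
    (hMev : MevX hn S P r P' Λ o l X C) :
    ∀ᵐ g : ℝ, g ∈ Gs P r P' Λ o → (∃ la t : ℕ → ℝ, Pool.ZFI.Cfg hn P P' o l g la t ∧ la l = 1) →
      Cok C' (fun j => deriv (fun v => LL hn P P' o (ix l j + 1) v v) g)
        (deriv (fun v => LL hn P P' o (l + 1) v v) g) → X g →
      deriv (fun v => P v v) g * (1 - deriv r (P g g)) ≤ 0 := by
  have hmain := cntX H hTop hF hl hC1 le_rfl one_pos
    (Φ := fun g la _ => (la l = 1 ∧
      Cok C' (fun j => deriv (fun v => LL hn P P' o (ix l j + 1) v v) g)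
      (deriv (fun v => LL hn P P' o (l + 1) v v) g)) ∧ X g) (o := o) ?_
  · filter_upwards [hmain] with g h1 hg hcf hck hX
    obtain ⟨la, t, h2, h3⟩ := hcf
    have h5 := h1 hg ⟨la, t, h2, ⟨h3, hck⟩, hX⟩ (by
      have h4 := h2.t0
      rw [(aff_der (h2.aff l le_rfl (by omega))).deriv, h3]
      linarith)
    rwa [zero_mul] at h5
  · rintro gap lam T rho V hrho g hg ⟨_, _, _, _, hX⟩
    obtain ⟨ϱ, hϱ, h1⟩ := hMev gap lam T rho V hrho g hg hX
    refine ⟨ϱ, hϱ, fun δ hδ => ?_⟩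
    have hGm : MeasurableSet (Gs P r P' Λ o ∩ Eg (LF hn P P' o) l n lam T (epg n C gap) rho) :=
      (H.gs_meas o).inter (eg_meas (fun i _ hin => ll_law H hin) (ll_bd01 H l) (V.e0 hC1).le)
    filter_upwards [h1 δ hδ, right_ae (Gs P r P' Λ o), Pool.BSM.grid_lb hGm]
      with w₁ h2 hR hgr k1 k2 k3 k4 k5 k6 A s₀ hs₀ hA
    obtain ⟨a₀, w₀, b, B, h01, hδa, har, M, Vd, β, E₁, hβ, hMO, hnum, hVV, hE0, hE1, hVd, hME⟩ :=
      h2 k1 k2 k3 k4 k5 k6
    have Z := zwd_of H hl1 hl V hC1 hδ B hδa.le har k1.1 k1.2 k2.1 k2.2 (hR k1.1) hβ hMO hnum hVV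
    have hδ0 : (0 : ℝ) < δ := by exact_mod_cast hδ
    refine zw_c' Z H hTop hF1 hF hn4 hW hCm hV hal hg₀ hC hE0 hE1 hVd hME (fun x hx => hx.1) hGm
      hgr ?_ (σ := fun x => deriv (fun v => LL hn P P' o (l + 1) v v) x) hs₀
      (fun x hx => ⟨(hA x hx).2.1, (hA x hx).1⟩) ?_ ?_
    · intro x hx0 hx1 hxG
      have hx0' : (0 : ℝ) < x := by exact_mod_cast hx0
      have hx1' : (x : ℝ) < δ := by exact_mod_cast hx1
      have h3 := B.h1
      rw [psi_diag V hC1 (ll_bd01 H l) hxG.2 B (by linarith) (by linarith) (by linarith)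
        (by linarith), mul_zero]
    · intro x hx h3 h4
      obtain ⟨m1, m2, m3, m4, m5, la, t, m6, ⟨m7, -⟩, -⟩ := hA x hx
      have m8 := m6.aff l le_rfl (by omega)
      have m9 := aff_der m8
      rw [m7] at m9
      have hd : deriv (fun v => LL hn P P' o (l + 1) v v) x = 1 + t l := m9.deriv
      refine ⟨m5, m4, ?_, ?_, m9.continuousAt, m3⟩
      · rw [hd]
        exact lu_rg V hC1 hrho m1 m6.aff m7 B h01 h3 (by linarith) (by linarith) (by linarith)
      · rw [hd, ← m7]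
        exact aff_dg m8
    · intro x hx _ _
      obtain ⟨-, -, -, -, -, la, t, -, ⟨-, m8⟩, -⟩ := hA x hx
      exact m8

/-- **The count with no loss** for the static chains, at the windows with `X`. -/
theorem hc0_cX (H : PkT hn S P r P' Λ PB) (hTop : TopS n) (hF1 : FZX 1) (hF : FZX (n - 1))
    (hn4 : n ≤ 4) (hW : ∀ k, 2 ≤ k → k < n → RW k) {C' : (Fin (n - 1) → ℝ) → ℝ → Prop}
    (hCm : MeasurableSet {p : (Fin (n - 1) → ℝ) × ℝ | C' p.1 p.2}) (hV : VAll hn hTop hF C')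
    {h : ℝ} (hh : 0 ≤ h) {X : Od n → ℕ → ℝ → Prop} (hMev : ∀ (o : Od n) (l : ℕ), 1 ≤ l →
      l < n - 1 → ∃ C : ℝ, 1 ≤ C ∧ MevX hn S P r P' Λ o l (X o l) C) (o : Od n) (l : ℕ) :
    ∀ᵐ g : ℝ, RwH H hTop hF h o g → Pool.Z4.Cfg hn P P' o l g → X o l g →
      Cok C' (fun j => deriv (fun v => LL hn P P' o (ix l j + 1) v v) g)
        (deriv (fun v => LL hn P P' o (l + 1) v v) g) → False := by
  by_cases hl : 1 ≤ l ∧ l < n - 1
  swap
  · exact Eventually.of_forall fun g _ hC => absurd ⟨hC.l1, hC.ln⟩ hl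
  obtain ⟨hl1, hl2⟩ := hl
  obtain ⟨al, g₀, s, d, e, K₀, N, hal, hg₀, hC⟩ := H.toPk.cl
  obtain ⟨C, hC1, hMe⟩ := hMev o l hl1 hl2
  filter_upwards [nore_cnt0X H.toPk hTop hF1 hF hn4 hW hCm hV hal hg₀ hC hl1 hl2 hC1 hMe]
    with g h1 R hCf hX hck
  have hg := R.rwd.mem
  have g0 : 0 < g := hg.1.1.1
  have g1 : g < 1 := hg.1.1.2.1
  obtain ⟨σ, hσ⟩ : ∃ σ, σ = deriv (fun a => LL hn P P' o (l + 1) a a) g := ⟨_, rfl⟩
  have hσ1 : 1 < σ := by rw [hσ]; exact hCf.one
  have h2 := h1 hg ⟨fun i => if i = l then 1 else deriv (fun v => LF hn P P' o i v v) g,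
    fun i => if i = l then σ - 1 else 0, ⟨fun i hi hin => ?_, ?_, ?_, fun i hi hin => ?_⟩, ?_⟩
    hck hX
  · have hdg : (H.nk hTop hF).dg o (n - 1) = fun a => P a a := (H.nk hTop hF).dg_m o
    have hone : 1 ≤ deriv (fun a => P a a) g := by
      have h3 := R.rwd.one (n - 1) le_rfl
      rwa [hdg] at h3
    have h3 := R.defi
    have h4 : 0 < deriv (fun a => P a a) g * (1 - deriv r (P g g)) :=
      mul_pos (by linarith) (by linarith)
    linarith
  · by_cases h2 : i = l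
    · rw [if_pos h2, if_pos h2, h2]
      refine aff_rg (Pool.ZFI.ll_law H.toPk (by omega)) g0 g1 (hCf.lt l hl2.le) ?_ ?_
      · rw [hσ]
        exact hCf.rg
      · rw [hσ]
        exact STR.dgLo_of (hCf.dif l hl2.le)
    · rw [if_neg h2, if_neg h2]
      exact aff_sta (Pool.ZFI.ll_law H.toPk (by omega)) g0 g1 (hCf.dif i (by omega))
        (hCf.sta i (by omega) (by omega))
  · simp
  · simp only [if_true]
    linarith
  · simp only [if_true]
    rw [if_neg (by omega)]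
    linarith
  · simp

/-- **The windows at which the count with no loss is used.** -/
structure Xc (hn : 2 ≤ n) (P : ℝ → ℝ → ℝ) (P' PB : ℕ → List (Fin n) × Fin n → ℝ → ℝ → ℝ)
    (o : Od n) (l : ℕ) (g : ℝ) : Prop where
  sta : Pool.STR.StaAt P g
  two : 2 ≤ deriv (fun a => P a a) g
  one1 : One1 hn P P' o g
  ths : ∀ i < n - 1, ThS hn P P' PB o i g
  cfg : Pool.Z4.Cfg hn P P' o l g
  lt : deriv (fun a => P a a) g < deriv (fun a => LL hn P P' o (l + 1) a a) g
  nt : ∀ i, 1 ≤ i → i < n - 1 → i ≠ l → deriv (fun v => LL hn P P' o (i + 1) v v) g ≠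
    deriv (fun v => LL hn P P' o (l + 1) v v) g

/-- **The count with no loss** for the static chains, if no other coordinate has the slope of the
rough coordinate: the data on the events are used only near the windows of `Xc`. -/
theorem hc0_ntX (H : PkT hn S P r P' Λ PB) (hTop : TopS n) (hF1 : FZX 1) (hF : FZX (n - 1))
    (hn4 : n ≤ 4) (hW : ∀ k, 2 ≤ k → k < n → RW k) (hV : VAll hn hTop hF (NoTie n))
    {h : ℝ} (hh : 0 ≤ h) (hMev : ∀ (o : Od n) (l : ℕ), 1 ≤ l → l < n - 1 →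
      ∃ C : ℝ, 1 ≤ C ∧ MevX hn S P r P' Λ o l
        (fun g => RwH H hTop hF h o g ∧ Xc hn P P' PB o l g) C) (o : Od n) (l : ℕ) :
    ∀ᵐ g : ℝ, RwH H hTop hF h o g → Xc hn P P' PB o l g → False := by
  filter_upwards [hc0_cX H hTop hF1 hF hn4 hW (noTie_meas n) hV hh
    (X := fun o l g => RwH H hTop hF h o g ∧ Xc hn P P' PB o l g) hMev o l] with g h1 R hX
  refine h1 R hX.cfg ⟨R, hX⟩ fun s h2 h3 i => ?_
  have h4 := hX.cfg.one
  have hl := hX.cfg.ln
  rcases Nat.eq_zero_or_pos (i : ℕ) with h5 | h5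
  · rw [h2 i h5]
    exact h4.ne
  · obtain ⟨j, hj1, hj2, hj3⟩ := h3 i h5
    rw [hj3]
    show deriv (fun v => LL hn P P' o (ix l j + 1) v v) g ≠ _
    have h6 : 1 ≤ ix l j := by
      unfold ix
      split_ifs <;> omega
    have h7 : ix l j ≠ l := by
      unfold ix
      split_ifs <;> omega
    rcases (ix_le (l := l) hj2).eq_or_lt with h8 | h8
    · rw [h8]
      have h9 : LL hn P P' o (n - 1 + 1) = P := by
        rw [← lvL_eq o le_rfl]
        funext a w
        exact LvL_top o a w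
      rw [h9]
      exact hX.lt.ne
    · exact hX.nt _ h6 h8 h7

/-- **The windows of the counts.** -/
structure Xa (hn : 2 ≤ n) (P : ℝ → ℝ → ℝ) (P' PB : ℕ → List (Fin n) × Fin n → ℝ → ℝ → ℝ)
    (o : Od n) (l : ℕ) (g : ℝ) : Prop where
  sta : Pool.STR.StaAt P g
  two : 2 ≤ deriv (fun a => P a a) g
  one1 : One1 hn P P' o g
  ths : ∀ i < n - 1, ThS hn P P' PB o i g
  cfg : Pool.Z4.Cfg hn P P' o l g

theorem mevX_mono {o : Od n} {l : ℕ} {X X' : ℝ → Prop} {C : ℝ}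
    (h : MevX hn S P r P' Λ o l X C) (hX : ∀ g, X' g → X g) : MevX hn S P r P' Λ o l X' C :=
  fun gap lam T rho V hrho g hg hx => h gap lam T rho V hrho g hg (hX g hx)

/-- The data on the events at the windows of the count with loss. -/
theorem mevX_v {H : PkT hn S P r P' Λ PB} {hTop : TopS n} {hF : FZX (n - 1)} {h : ℝ} {o : Od n}
    {l : ℕ} {C : ℝ}
    (hM : MevX hn S P r P' Λ o l (fun g => RwH H hTop hF h o g ∧ Xa hn P P' PB o l g) C) :
    MevX hn S P r P' Λ o l (fun g => RwH H hTop hF h o g ∧ Xv hn P P' PB o l g) C :=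
  mevX_mono hM fun _ hg => ⟨hg.1, ⟨hg.2.sta, hg.2.two, hg.2.one1, hg.2.ths, hg.2.cfg⟩⟩

/-- **The windows with a rough coordinate of slope larger than the slope of the target**: there are
none, from the data on the events near the windows of the counts, no boxes without ties, and the
case of the ties. -/
theorem hc0_a (H : PkT hn S P r P' Λ PB) (hTop : TopS n) (hF1 : FZX 1) (hF : FZX (n - 1))
    (hn4 : n ≤ 4) (hW : ∀ k, 2 ≤ k → k < n → RW k) (hV : VAll hn hTop hF (NoTie n))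
    {h : ℝ} (hh : 0 ≤ h) (hMev : ∀ (o : Od n) (l : ℕ), 1 ≤ l → l < n - 1 →
      ∃ C : ℝ, 1 ≤ C ∧ MevX hn S P r P' Λ o l
        (fun g => RwH H hTop hF h o g ∧ Xa hn P P' PB o l g) C)
    (hT : ∀ (o : Od n) (l : ℕ), ∀ᵐ g : ℝ, RwH H hTop hF h o g → Xa hn P P' PB o l g →
      deriv (fun a => P a a) g < deriv (fun a => LL hn P P' o (l + 1) a a) g →
      ∀ i, 1 ≤ i → i < n - 1 → i ≠ l → deriv (fun a => LL hn P P' o (i + 1) a a) g =
        deriv (fun a => LL hn P P' o (l + 1) a a) g → False) (o : Od n) (l : ℕ) :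
    ∀ᵐ g : ℝ, RwH H hTop hF h o g → Pool.STR.StaAt P g → 2 ≤ deriv (fun a => P a a) g →
      One1 hn P P' o g → (∀ i < n - 1, ThS hn P P' PB o i g) → Pool.Z4.Cfg hn P P' o l g →
      deriv (fun a => P a a) g < deriv (fun a => LL hn P P' o (l + 1) a a) g → False := by
  have h1 := hc0_ntX (PB := PB) H hTop hF1 hF hn4 hW hV hh (fun o l a1 a2 => by
    obtain ⟨C, hC, hM⟩ := hMev o l a1 a2
    exact ⟨C, hC, mevX_mono hM fun _ hg =>
      ⟨hg.1, ⟨hg.2.sta, hg.2.two, hg.2.one1, hg.2.ths, hg.2.cfg⟩⟩⟩) o l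
  filter_upwards [h1, hT o l] with g k1 k2 R a1 a2 a3 a4 a5 a6
  exact k1 R ⟨a1, a2, a3, a4, a5, a6, fun i i1 i2 i3 i4 => k2 R ⟨a1, a2, a3, a4, a5⟩ a6 i i1 i2 i3
    i4⟩

end Pool.SW
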