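import Pool.Agent.H77.Z4.Xsl

/-!
# The statements on the zooms at one window, together

`ZBun`: the requirements can be satisfied, and the statements (Phi2), (Phi1), (Psi1), (Psi2) hold for
data with one requirement each, at the window `w₁`, for the number `xs` of the shear.
`ZBun.xs_le`: `w₁ + xs ≤ D_u (w₁)`. `ZBun.ineq`: the inequality for the windows between `w₁`
and `wb`.
-/

set_option autoImplicit false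

namespace Pool.Z4

open MeasureTheory Set Filter Topology
open Finset (range univ)
open Pool.Agent.H49.Ent Pool.Agent.H32.Dense Pool.STK Pool.KA Pool.KSAT Pool.K2S Pool.PB Pool.S6C
open Pool.GEN Pool.ONE Pool.EXW Pool.TOP Pool.ZCL Pool.ZLC Pool.ZFN Pool.ZCO Pool.PKG Pool.CHT
open Pool.LBT (ThrOf)
open Pool.LEV (Law)
open Pool.ALL (RateOf)

variable {n : ℕ}

/-- **The statements on the zooms** at the window `w₁`. -/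
structure ZBun (hn : 2 ≤ n) (S : PCl n) (P : ℝ → ℝ → ℝ) (r : ℝ → ℝ)
    (P' : ℕ → List (Fin n) × Fin n → ℝ → ℝ → ℝ) (Λ : Finset (Fin n) → Fin n → ℝ → ℝ → ℝ)
    (o : Od n) (l : ℕ) (w₁ wb xs : ℝ) {Req : Type*} (R : Req → DtP n) (Nd : Set (ℝ × ℝ))
    (LU : ℝ → ℝ → ℝ) : Prop where
  /-- the requirements can be satisfied -/
  req : ZReq S w₁ (cc hn o.1.1 0) 2 R
  /-- (Phi2) -/
  phi2 : ∀ i : Fin n, 1 ≤ (i : ℕ) → (i : ℕ) < n - 1 → ∀ h : ℝ, 0 < h →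
      Qz hn P P' o l w₁ xs i + h ≤ 1 →
      ∃ d : ℝ, 0 < d ∧ ∀ K : ℕ, ∃ q : Req, ZPr S w₁ (ez hn o.1.1 l) (R q) (fun J G B =>
        ¬ LbR 8 G (Finset.univ.filter fun j : Fin n => (j : ℕ) < i) i K ⌊d * J⌋₊
          ⌊(Qz hn P P' o l w₁ xs i + h) * J⌋₊ B)
  /-- (Phi1) -/
  phi1 : ∀ p ∈ Nd, ∀ a w : ℚ, 0 < w → w ≤ a → rho w₁ a < p.1 → rho w₁ w < p.2 →
      ∀ (K : ℕ) (U h : ℝ), 0 ≤ U → 0 < h → nmz w₁ xs (LU p.1 p.2) ≤ U + h / 4 →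
      ∃ q : Req, ZPr S w₁ (ez hn o.1.1 l) (R q) (fun J G B =>
        ¬ (tgs (lst hn)).T () K ⌊(a : ℝ) * J⌋₊ ⌊(w : ℝ) * J⌋₊ ⌊(U + h) * J⌋₊ J G B)
  /-- (Psi1) -/
  psi1 : ∀ v : ℚ, 0 < v → rho w₁ v < wb → ∀ D : ℝ, 0 < D → D ≤ 1 →
      (∀ h : ℝ, 0 < h → ∃ w ∈ Gs P r P' Λ o, w < rho w₁ v ∧
        D - h < nmz w₁ xs (LL hn P P' o (l + 1) w w)) → ∀ h : ℝ, 0 < h →
      ∃ K : ℕ, ∀ τ : ℝ, 0 < τ → ∃ q : Req, ZPr S w₁ (ez hn o.1.1 l) (R q) (fun J G A =>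
        ∃ B : G.Ω → Prop, Sub B A ∧ Real.exp (-(τ * J)) * Pe G.p A ≤ Pe G.p B ∧
        (tgs (lst hn)).T () K ⌊(v : ℝ) * J⌋₊ ⌊(v : ℝ) * J⌋₊ ⌊(D - h) * J⌋₊ J G B)
  /-- (Psi2) -/
  psi2 : ∀ h : ℝ, 0 < h → ∃ q : Req, ZPr S w₁ (ez hn o.1.1 l) (R q) (fun J G A =>
      CH (Pool.Agent.H49.Ent.cond G.p A True)
        (fun ω => (G.X ⌊nmz w₁ xs (LL hn P P' o (l + 1) wb wb) * J⌋₊ ω (lst hn),
          fun i : Fin (n - 1) => G.X J ω (bse i))) G.W ≤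
        (ebz hn P r P' o l w₁ wb xs + h) * Real.log 2 * J)

section

variable {hn : 2 ≤ n} {S : PCl n} {P : ℝ → ℝ → ℝ} {r : ℝ → ℝ}
  {P' : ℕ → List (Fin n) × Fin n → ℝ → ℝ → ℝ} {Λ : Finset (Fin n) → Fin n → ℝ → ℝ → ℝ}
  {o : Od n} {l : ℕ} {w₁ wb xs : ℝ} {Req : Type*} {R : Req → DtP n} {Nd : Set (ℝ × ℝ)}
  {LU : ℝ → ℝ → ℝ}

/-- **The bound of the number of the shear.** -/
theorem ZBun.xs_le (B : ZBun hn S P r P' Λ o l w₁ wb xs R Nd LU) (H : Pk hn S P r P' Λ)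
    (hw0 : 0 < w₁) (hwb : w₁ < wb) (hwb1 : wb < 1) {D₁ : ℝ}
    (hc : ∀ ε : ℝ, 0 < ε → ∃ δ : ℝ, 0 < δ ∧ ∀ a w : ℝ, w₁ < w → w ≤ a → a < w₁ + δ →
      LU a w ≤ D₁ + ε)
    (hNd : ∀ a w δ : ℝ, 0 < δ → w₁ < w → w ≤ a → a < wb → ∃ p ∈ Nd, a < p.1 ∧ p.1 < a + δ ∧
      w < p.2 ∧ p.2 < w + δ ∧ p.2 ≤ p.1) : w₁ + xs ≤ D₁ :=
  Pool.Z4.xs_le H.tmc hw0 hwb hwb1 B.req hc hNd B.phi1

/-- **The inequality between two windows.** -/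
theorem ZBun.ineq (B : ZBun hn S P r P' Λ o l w₁ wb xs R Nd LU) (H : Pk hn S P r P' Λ)
    (hF : FZX 1) (hW : ∀ k, 2 ≤ k → k < n → RW k)
    {s : Fin n → ℝ} {d : ℕ → ℝ} {al : ℝ} {g₀ : ℝ → ℝ} {e₀ : ℝ} {K₀ : ℕ} {N : ℚ → ℚ → ℝ}
    (hal : 0 < al) (hg₀ : ∀ ε : ℝ, 0 < ε → 0 < g₀ ε) (hC : ClX s d al g₀ e₀ K₀ N S)
    (hl1 : 1 ≤ l) (hl : l < n - 1) (hw₁ : w₁ ∈ Gs P r P' Λ o)
    (hwb : w₁ < wb) (hwb1 : wb < 1) (hx0 : 0 ≤ xs)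
    (hc : ∀ ε : ℝ, 0 < ε → ∃ δ : ℝ, 0 < δ ∧ ∀ a w : ℝ, w₁ < w → w ≤ a → a < w₁ + δ →
      LU a w ≤ LL hn P P' o (l + 1) w₁ w₁ + ε)
    (hLU0 : ∀ p ∈ Nd, 0 ≤ LU p.1 p.2)
    (hNd : ∀ a w δ : ℝ, 0 < δ → w₁ < w → w ≤ a → a < wb → ∃ p ∈ Nd, a < p.1 ∧ p.1 < a + δ ∧
      w < p.2 ∧ p.2 < w + δ ∧ p.2 ≤ p.1)
    {A : Set ℝ} {σ : ℝ → ℝ} {s₀ h₀ : ℝ} (hs : 1 < s₀) (hh₀ : h₀ ≤ 1)
    (hA : ∀ x ∈ A, w₁ < x → x < wb → s₀ ≤ σ x ∧ LL hn P P' o (l + 1) x x < 1 ∧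
      RgUp LU x (LL hn P P' o (l + 1) x x) (σ x) ∧
      DgLo (LL hn P P' o (l + 1)) x (LL hn P P' o (l + 1) x x) (σ x) ∧
      ContinuousAt (fun v => LL hn P P' o (l + 1) v v) x ∧ Nogap (Gs P r P' Λ o) x)
    (hM : ∀ (S' : PCl n) (P : ℝ → ℝ → ℝ) (r : ℝ → ℝ), ClX (fun _ => 0) (fun _ => 1) al
      (fun x => min (g₀ (x / 2)) 1) 2 0 (NZR S (cc hn o.1.1 0) (al + 1) w₁) S' →
      ThrOf (tgs (lst hn)) S' (fun _ => P) → RateOf S' (lst hn) r → ∀ E, RgFull P r h₀ E) :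
    ENNReal.ofReal ((1 - h₀) * s₀) * volume (A ∩ Ioo w₁ wb) ≤
      ENNReal.ofReal (LL hn P P' o (l + 1) wb wb - LL hn P P' o (l + 1) w₁ w₁ -
        (P wb wb - P w₁ w₁ - (r (P wb wb) - r (P w₁ w₁)))) :=
  zin H hF hW hal hg₀ hC hl1 hl hw₁.1.1.1 hwb hwb1 hx0
    (B.xs_le H hw₁.1.1.1 hwb hwb1 hc hNd) B.req hLU0 hNd
    (fun w hw => ⟨hw.1.1.1.le, hw.1.1.2.1.le⟩) hw₁ (by norm_num) B.phi2 B.phi1 B.psi1 B.psi2 hs hh₀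
    hA hM

/-! ### The grid of the nodes -/

/-- **The nodes** with rational differences. -/
def Ngr (w₁ : ℝ) (δ : ℚ) : Set (ℝ × ℝ) :=
  {p | ∃ r s : ℚ, 0 < s ∧ s ≤ r ∧ r ≤ δ ∧ p = (w₁ + r, w₁ + s)}

/-- The nodes are dense. -/
theorem ngr_dense {w₁ : ℝ} {δ : ℚ} (a w ε : ℝ) (hε : 0 < ε) (hw : w₁ < w) (hwa : w ≤ a)
    (ha : a < w₁ + δ) : ∃ p ∈ Ngr w₁ δ, a < p.1 ∧ p.1 < a + ε ∧ w < p.2 ∧ p.2 < w + ε ∧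
      p.2 ≤ p.1 := by
  obtain ⟨r, hr1, hr2⟩ := exists_rat_btwn (show a - w₁ < min (a - w₁ + ε) δ from
    lt_min (by linarith) (by linarith))
  have hr3 : (r : ℝ) < a - w₁ + ε := hr2.trans_le (min_le_left _ _)
  have hr4 : (r : ℝ) < δ := hr2.trans_le (min_le_right _ _)
  obtain ⟨s, hs1, hs2⟩ := exists_rat_btwn (show w - w₁ < min (w - w₁ + ε) r from
    lt_min (by linarith) (by linarith))
  have hs3 : (s : ℝ) < w - w₁ + ε := hs2.trans_le (min_le_left _ _)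
  have hs4 : (s : ℝ) < r := hs2.trans_le (min_le_right _ _)
  have hs0 : (0 : ℝ) < s := by linarith
  refine ⟨(w₁ + r, w₁ + s), ⟨r, s, by exact_mod_cast hs0, by exact_mod_cast hs4.le,
    by exact_mod_cast hr4.le, rfl⟩, ?_, ?_, ?_, ?_, ?_⟩ <;> simp only <;> linarith

end

end Pool.Z4
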