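import Pool.Agent.H77.Z4.Cnt
import Pool.Agent.H82.ZL.Eg

/-!
# The count at a density point, with a small set of windows

`zcount2`: the count of `zcount`, if at every scale the inequality of the zooms between two good
windows is known only outside a set of relative measure `1/8`. `eg_ex2`: the windows at which the
numbers are affine are in one of the sets `Eg` of a gap which does not depend on the accuracy.
-/

set_option autoImplicit false

namespace Pool.Z4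

open MeasureTheory Set Filter Topology
open Pool.STR (affB_of AffB)

/-- Positive measure of the pairs of good windows, outside a small set. -/
theorem pairs_pos2 {G : Set ℝ} (hG : MeasurableSet G) {g : ℝ}
    (hW : Tendsto (fun r => volume (G ∩ Metric.closedBall g r) / volume (Metric.closedBall g r))
      (𝓝[>] 0) (𝓝 1)) :
    ∃ t₀ : ℝ, 0 < t₀ ∧ ∀ δ : ℝ, 0 < δ → δ < t₀ → ∀ B : Set ℝ,
      volume (Ioo (g - δ) g \ B) ≤ ENNReal.ofReal (δ / 8) →
      0 < volume {x : ℝ | g - 3 * δ / 4 < x ∧ x < g - δ / 4 ∧ x ∈ G ∧ x + δ ∈ G ∧ x ∈ B} := by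
  have h1 : ∀ᶠ r in 𝓝[>] (0 : ℝ), ENNReal.ofReal (1 - 1 / 16) <
      volume (G ∩ Metric.closedBall g r) / volume (Metric.closedBall g r) := by
    refine hW.eventually_const_lt ?_
    rw [ENNReal.ofReal_lt_one]
    linarith
  obtain ⟨r₂, hr₂, h2⟩ := mem_nhdsGT_iff_exists_Ioo_subset.1 h1
  have hr₂' : (0 : ℝ) < r₂ := hr₂
  refine ⟨r₂, hr₂', fun δ hδ hδ' B hB => ?_⟩
  have h3 := h2 (show δ ∈ Ioo 0 r₂ from ⟨hδ, hδ'⟩)
  simp only [Set.mem_ofPred_eq, Real.volume_closedBall] at h3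
  have h4 : ENNReal.ofReal (1 - 1 / 16) * ENNReal.ofReal (2 * δ) ≤
      volume (G ∩ Metric.closedBall g δ) := by
    have h5 := h3.le
    rwa [ENNReal.le_div_iff_mul_le (Or.inl (by simpa using hδ)) (Or.inl ENNReal.ofReal_ne_top)]
      at h5
  -- the complement
  have h5 : volume (Metric.closedBall g δ \ G) ≤ ENNReal.ofReal (δ / 8) := by
    have h6 : volume (G ∩ Metric.closedBall g δ) + volume (Metric.closedBall g δ \ G) =
        volume (Metric.closedBall g δ) := by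
      rw [Set.inter_comm]
      exact measure_inter_add_sdiff _ hG
    rw [Real.volume_closedBall] at h6
    have h7 : ENNReal.ofReal (15 / 8 * δ) + volume (Metric.closedBall g δ \ G) ≤
        ENNReal.ofReal (15 / 8 * δ) + ENNReal.ofReal (δ / 8) := by
      rw [← ENNReal.ofReal_add (by positivity) (by positivity)]
      have e1 : 15 / 8 * δ + δ / 8 = 2 * δ := by ring
      rw [e1, ← h6]
      gcongr
      rw [← ENNReal.ofReal_mul (by norm_num)] at h4
      refine le_trans (le_of_eq ?_) h4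
      congr 1
      ring
    exact (ENNReal.add_le_add_iff_left ENNReal.ofReal_ne_top).1 h7
  by_contra hcon
  rw [not_lt, nonpos_iff_eq_zero] at hcon
  have h6 : Ioo (g - 3 * δ / 4) (g - δ / 4) ⊆
      {x : ℝ | g - 3 * δ / 4 < x ∧ x < g - δ / 4 ∧ x ∈ G ∧ x + δ ∈ G ∧ x ∈ B} ∪
        ((Metric.closedBall g δ \ G) ∪ ((fun x => x + δ) ⁻¹' (Metric.closedBall g δ \ G) ∪
          Ioo (g - δ) g \ B)) := by
    intro x hx
    by_cases h7 : x ∈ G
    · by_cases h8 : x + δ ∈ G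
      · by_cases h9 : x ∈ B
        · exact Or.inl ⟨hx.1, hx.2, h7, h8, h9⟩
        · exact Or.inr (Or.inr (Or.inr ⟨⟨by linarith [hx.1], by linarith [hx.2]⟩, h9⟩))
      · refine Or.inr (Or.inr (Or.inl ⟨?_, h8⟩))
        rw [Metric.mem_closedBall, Real.dist_eq, abs_le]
        constructor <;> linarith [hx.1, hx.2]
    · refine Or.inr (Or.inl ⟨?_, h7⟩)
      rw [Metric.mem_closedBall, Real.dist_eq, abs_le]
      constructor <;> linarith [hx.1, hx.2]
  have h7 := (measure_mono (μ := volume) h6).trans ((measure_union_le _ _).trans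
    (add_le_add_right ((measure_union_le _ _).trans
      (add_le_add_right (measure_union_le _ _) _)) _))
  rw [hcon, zero_add, Real.volume_Ioo, measure_preimage_add_right] at h7
  have h8 : ENNReal.ofReal (g - δ / 4 - (g - 3 * δ / 4)) ≤
      ENNReal.ofReal (δ / 8) + (ENNReal.ofReal (δ / 8) + ENNReal.ofReal (δ / 8)) :=
    h7.trans (add_le_add h5 (add_le_add h5 hB))
  rw [← ENNReal.ofReal_add (by positivity) (by positivity),
    ← ENNReal.ofReal_add (by positivity) (by positivity),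
    ENNReal.ofReal_le_ofReal_iff (by positivity)] at h8
  linarith

/-- **The count**, with a small set of windows at which the inequality is not known. -/
theorem zcount2 {D P r : ℝ → ℝ} {A G : Set ℝ} (hG : MeasurableSet G) (hAG : A ⊆ G)
    {h₀ : ℝ} (hh : h₀ < 1) (hh0 : 0 ≤ h₀)
    (hA : ∀ g ∈ A, 0 < g ∧ g < 1 ∧ DifferentiableAt ℝ D g ∧ 1 < deriv D g ∧
      DifferentiableAt ℝ P g ∧ DifferentiableAt ℝ r (P g))
    (hZ : ∀ g ∈ A, ∃ ϱ : ℝ, 0 < ϱ ∧ ∀ δ : ℚ, 0 < δ → (δ : ℝ) < ϱ → ∃ B : Set ℝ,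
      volume (Ioo (g - δ) g \ B) ≤ ENNReal.ofReal (δ / 8) ∧ ∀ᵐ w₁ : ℝ, w₁ ∈ B →
      w₁ ∈ G → w₁ + δ ∈ G → g - ϱ < w₁ → w₁ < g → g < w₁ + δ → w₁ + δ < g + ϱ → ∀ s₀ : ℝ, 1 < s₀ →
      ENNReal.ofReal ((1 - h₀) * s₀) *
        volume ({w | w ∈ A ∧ s₀ ≤ deriv D w} ∩ Ioo w₁ (w₁ + δ)) ≤
        ENNReal.ofReal (D (w₁ + δ) - D w₁ - (P (w₁ + δ) - P w₁ - (r (P (w₁ + δ)) - r (P w₁))))) :
    ∀ᵐ g : ℝ, g ∈ A → deriv P g * (1 - deriv r (P g)) ≤ h₀ * deriv D g := by
  have hall : ∀ᵐ g : ℝ, ∀ s₀ : ℚ, g ∈ {w | w ∈ A ∧ (s₀ : ℝ) ≤ deriv D w} → Tendsto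
      (fun r => volume ({w | w ∈ A ∧ (s₀ : ℝ) ≤ deriv D w} ∩ Metric.closedBall g r) /
        volume (Metric.closedBall g r)) (𝓝[>] 0) (𝓝 1) := by
    rw [ae_all_iff]
    exact fun s₀ => ae_imp_of_ae_restrict (Besicovitch.ae_tendsto_measure_inter_div volume _)
  have hallG : ∀ᵐ g : ℝ, g ∈ G → Tendsto
      (fun r => volume (G ∩ Metric.closedBall g r) /
        volume (Metric.closedBall g r)) (𝓝[>] 0) (𝓝 1) :=
    ae_imp_of_ae_restrict (Besicovitch.ae_tendsto_measure_inter_div volume _)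
  filter_upwards [hall, hallG] with g h1 h2 hg
  obtain ⟨g0, g1, dD, s1, dP, dr⟩ := hA g hg
  by_contra hcon
  push Not at hcon
  obtain ⟨Su, hSu⟩ : ∃ Su, Su = deriv D g := ⟨_, rfl⟩
  obtain ⟨SN, hSN⟩ : ∃ SN, SN = deriv P g := ⟨_, rfl⟩
  obtain ⟨d, hd⟩ : ∃ d, d = deriv r (P g) := ⟨_, rfl⟩
  rw [← hSN, ← hSu, ← hd] at hcon
  rw [← hSu] at s1
  -- the gap
  obtain ⟨x, hx⟩ : ∃ x, x = SN * (1 - d) - h₀ * Su := ⟨_, rfl⟩
  have hx0 : 0 < x := by rw [hx]; linarith
  have h1h : 0 < 1 - h₀ := by linarith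
  -- the slope
  obtain ⟨s₀, hs1, hs2⟩ := exists_rat_btwn (show max 1 (Su - x / 8) < Su from
    max_lt s1 (by linarith))
  have hs3 : 1 < (s₀ : ℝ) := lt_of_le_of_lt (le_max_left _ _) hs1
  have hs4 : Su - x / 8 < s₀ := lt_of_le_of_lt (le_max_right _ _) hs1
  have hs0 : (0 : ℝ) < s₀ := by linarith
  -- the density
  obtain ⟨η, hη⟩ : ∃ η, η = min (1 / 4) (x / (16 * Su)) := ⟨_, rfl⟩
  have hη0 : 0 < η := by rw [hη]; exact lt_min (by norm_num) (by positivity)
  have hη1 : η ≤ 1 / 4 := by rw [hη]; exact min_le_left _ _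
  have hη2 : Su * η ≤ x / 16 := by
    have h3 : η ≤ x / (16 * Su) := by rw [hη]; exact min_le_right _ _
    rw [le_div_iff₀ (by linarith)] at h3
    linarith
  obtain ⟨ϱ, hϱ, hz⟩ := hZ g hg
  obtain ⟨t₁, ht₁, k1⟩ := dens_Ioo (h1 s₀ ⟨hg, by rw [← hSu]; exact hs2.le⟩) hη0 hη1
  obtain ⟨t₂, ht₂, k2⟩ := pairs_pos2 hG (h2 (hAG hg))
  obtain ⟨t₃, ht₃, k3⟩ := inc_of dD (e := x / 16) (by positivity)
  obtain ⟨t₄, ht₄, k4⟩ := inc_of dP (e := x / (16 * (|d| + 2))) (by positivity)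
  -- the rate
  have hrP : ∃ t₅ : ℝ, 0 < t₅ ∧ ∀ δ : ℝ, 0 < δ → δ < t₅ → ∀ y : ℝ, g - δ ≤ y → y ≤ g →
      |(fun z => r (P z)) (y + δ) - (fun z => r (P z)) y - deriv (fun z => r (P z)) g * δ| ≤
        x / 16 * δ := inc_of (D := fun z => r (P z))
          (DifferentiableAt.comp (g := r) (f := P) g dr dP) (by positivity)
  obtain ⟨t₅, ht₅, k5⟩ := hrP
  have hder : deriv (fun z => r (P z)) g = d * SN := by
    have h3 := (dr.hasDerivAt.comp g dP.hasDerivAt).deriv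
    rw [hd, hSN]
    exact h3
  -- the pair
  obtain ⟨δ, hδ1, hδ2⟩ := exists_rat_btwn (show (0 : ℝ) < min (min (min t₁ t₂) (min t₃ t₄))
    (min t₅ ϱ) from lt_min (lt_min (lt_min ht₁ ht₂) (lt_min ht₃ ht₄)) (lt_min ht₅ hϱ))
  simp only [lt_min_iff] at hδ2
  obtain ⟨⟨⟨m1, m2⟩, m3, m4⟩, m5, m6⟩ := hδ2
  have hδq : (0 : ℚ) < δ := by exact_mod_cast hδ1
  obtain ⟨B, hB, hae⟩ := hz δ hδq m6
  have hpos := k2 δ hδ1 m2 B hB
  obtain ⟨w₁, hw⟩ : ∃ w₁ : ℝ,
      (g - 3 * δ / 4 < w₁ ∧ w₁ < g - δ / 4 ∧ w₁ ∈ G ∧ w₁ + δ ∈ G ∧ w₁ ∈ B) ∧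
      (w₁ ∈ B → w₁ ∈ G → w₁ + δ ∈ G → g - ϱ < w₁ → w₁ < g → g < w₁ + δ → w₁ + δ < g + ϱ → ∀ s₀ : ℝ, 1 < s₀ →
      ENNReal.ofReal ((1 - h₀) * s₀) *
        volume ({w | w ∈ A ∧ s₀ ≤ deriv D w} ∩ Ioo w₁ (w₁ + δ)) ≤
        ENNReal.ofReal (D (w₁ + δ) - D w₁ -
          (P (w₁ + δ) - P w₁ - (r (P (w₁ + δ)) - r (P w₁))))) := by
    by_contra hno
    push Not at hno
    refine hpos.ne' ?_
    refine measure_mono_null (t := {w₁ : ℝ | ¬ (w₁ ∈ B → w₁ ∈ G → w₁ + δ ∈ G → g - ϱ < w₁ → w₁ < g →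
      g < w₁ + δ → w₁ + δ < g + ϱ → ∀ s₀ : ℝ, 1 < s₀ →
      ENNReal.ofReal ((1 - h₀) * s₀) *
        volume ({w | w ∈ A ∧ s₀ ≤ deriv D w} ∩ Ioo w₁ (w₁ + δ)) ≤
        ENNReal.ofReal (D (w₁ + δ) - D w₁ -
          (P (w₁ + δ) - P w₁ - (r (P (w₁ + δ)) - r (P w₁)))))}) ?_ (ae_iff.1 hae)
    intro w₁ hw₁ hcon2
    obtain ⟨a0, a1, a2, a3, a4, a5, a6, s, a7, a8⟩ := hno w₁ hw₁
    exact absurd (hcon2 a0 a1 a2 a3 a4 a5 a6 s a7) (not_le.2 a8)
  obtain ⟨⟨w1, w2, w3, w4, w5⟩, hw5⟩ := hw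
  have hmain := hw5 w5 w3 w4 (by linarith) (by linarith) (by linarith) (by linarith) s₀ hs3
  have c1 := k1 δ hδ1 m1 w₁ (by linarith) (by linarith)
  have c3 := abs_le.1 (k3 δ hδ1 m3 w₁ (by linarith) (by linarith))
  have c4 := abs_le.1 (k4 δ hδ1 m4 w₁ (by linarith) (by linarith))
  have c5 := abs_le.1 (k5 δ hδ1 m5 w₁ (by linarith) (by linarith))
  rw [← hSu] at c3
  rw [← hSN] at c4
  rw [hder] at c5
  simp only at c5
  have hxx : x / (16 * (|d| + 2)) ≤ x / 16 := by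
    refine div_le_div_of_nonneg_left hx0.le (by norm_num) ?_
    have := abs_nonneg d
    linarith
  have hxx' : x / (16 * (|d| + 2)) * δ ≤ x / 16 * δ := mul_le_mul_of_nonneg_right hxx hδ1.le
  -- the two sides
  have hfin : ENNReal.ofReal ((1 - h₀) * s₀ * (δ * (1 - 2 * η))) ≤
      ENNReal.ofReal (D (w₁ + δ) - D w₁ - (P (w₁ + δ) - P w₁ - (r (P (w₁ + δ)) - r (P w₁)))) := by
    rw [ENNReal.ofReal_mul (by positivity)]
    exact (mul_le_mul_right c1 _).trans hmain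
  have hL0 : 0 < (1 - h₀) * s₀ * (δ * (1 - 2 * η)) := by
    have : 0 < 1 - 2 * η := by linarith
    positivity
  have hfin' : (1 - h₀) * s₀ * (δ * (1 - 2 * η)) ≤
      D (w₁ + δ) - D w₁ - (P (w₁ + δ) - P w₁ - (r (P (w₁ + δ)) - r (P w₁))) := by
    by_contra h3
    push Not at h3
    exact absurd hfin (not_le.2 ((ENNReal.ofReal_lt_ofReal_iff hL0).2 h3))
  -- the contradiction
  have f1 : (1 - h₀) * s₀ * (δ * (1 - 2 * η)) ≥ ((1 - h₀) * Su - x / 4) * δ := by
    have f2 : (1 - h₀) * s₀ * (1 - 2 * η) ≥ (1 - h₀) * Su - x / 4 := by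
      have f3 : (1 - h₀) * s₀ ≥ (1 - h₀) * Su - x / 8 := by
        have f4 : (1 - h₀) * (Su - s₀) ≤ 1 * (Su - s₀) :=
          mul_le_mul_of_nonneg_right (by linarith) (by linarith)
        linarith
      have f5 : (1 - h₀) * s₀ * (2 * η) ≤ x / 8 := by
        have f6 : (1 - h₀) * s₀ ≤ 1 * Su := mul_le_mul (by linarith) hs2.le hs0.le zero_le_one
        have f7 : (1 - h₀) * s₀ * (2 * η) ≤ 1 * Su * (2 * η) :=
          mul_le_mul_of_nonneg_right f6 (by positivity)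
        linarith
      linarith
    have f8 := mul_le_mul_of_nonneg_right f2 hδ1.le
    linarith
  have f9 : D (w₁ + δ) - D w₁ - (P (w₁ + δ) - P w₁ - (r (P (w₁ + δ)) - r (P w₁))) ≤
      (Su - SN * (1 - d) + 3 * (x / 16)) * δ := by
    have e1 : (Su - SN * (1 - d) + 3 * (x / 16)) * δ = Su * δ + x / 16 * δ - SN * δ + x / 16 * δ +
        (d * SN * δ + x / 16 * δ) := by ring
    rw [e1]
    linarith [c3.2, c4.1, c5.2]
  have f10 : ((1 - h₀) * Su - x / 4) * δ ≤ (Su - SN * (1 - d) + 3 * (x / 16)) * δ := by linarith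
  have f11 := le_of_mul_le_mul_right f10 hδ1
  have f12 : (1 - h₀) * Su = Su - h₀ * Su := by ring
  linarith

end Pool.Z4

namespace Pool.ZL

open MeasureTheory Set Filter Topology

/-- **The windows at which the numbers are affine** are in one of the sets; the gap does not depend
on the accuracy. -/
theorem eg_ex2 {L : ℕ → ℝ → ℝ → ℝ} {l n : ℕ} {g : ℝ} (hg0 : 0 < g) (hg1 : g < 1) (hl : l < n)
    {la t : ℕ → ℝ}
    (hA : ∀ i, l ≤ i → i < n → AffA (L i) g (la i) (t i)) (hla : 1 ≤ la l) (ht : 0 < t l)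
    (hti : ∀ i, l < i → i < n → t i < t l) :
    ∃ gap : ℚ, (0 : ℝ) < gap ∧ ∀ C : ℝ, 1 ≤ C → ∃ (La T : Fin n → ℚ) (ρ : ℚ),
      Vs l n (fx La) (fx T) gap ∧ (0 : ℝ) < ρ ∧ g ∈ Eg L l n (fx La) (fx T) (epg n C gap) ρ := by
  classical
  have hn1 : (1 : ℝ) ≤ n := by exact_mod_cast (by omega : 1 ≤ n)
  -- the gap
  obtain ⟨m, hm0, hml, hmi⟩ : ∃ m : ℝ, 0 < m ∧ m ≤ t l ∧ ∀ i, l < i → i < n → t i + m ≤ t l := by
    have key : ∀ k, ∃ m : ℝ, 0 < m ∧ m ≤ t l ∧ ∀ i, l < i → i < n → i < k → t i + m ≤ t l := by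
      intro k
      induction k with
      | zero => exact ⟨t l, ht, le_rfl, fun i _ _ h => absurd h (Nat.not_lt_zero i)⟩
      | succ k ih =>
        obtain ⟨m, h1, h2, h3⟩ := ih
        by_cases hk : l < k ∧ k < n
        · have h4 := hti k hk.1 hk.2
          refine ⟨min m (t l - t k), lt_min h1 (by linarith), (min_le_left _ _).trans h2,
            fun i hi hin hik => ?_⟩
          rcases Nat.lt_or_ge i k with h5 | h5
          · have := h3 i hi hin h5
            linarith [min_le_left m (t l - t k)]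
          · have : i = k := by omega
            subst this
            linarith [min_le_right m (t l - t i)]
        · refine ⟨m, h1, h2, fun i hi hin hik => ?_⟩
          rcases Nat.lt_or_ge i k with h5 | h5
          · exact h3 i hi hin h5
          · have : i = k := by omega
            subst this
            exact absurd ⟨hi, hin⟩ hk
    obtain ⟨m, h1, h2, h3⟩ := key n
    exact ⟨m, h1, h2, fun i hi hin => h3 i hi hin hin⟩
  obtain ⟨gap, q1, q2⟩ := exists_rat_btwn (show (0 : ℝ) < m / 2 by linarith)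
  refine ⟨gap, q1, fun C hC => ?_⟩
  obtain ⟨e, he⟩ : ∃ e : ℝ, e = epg n C gap := ⟨_, rfl⟩
  have he0 : 0 < e := by
    rw [he]
    unfold epg
    positivity
  have heg : e ≤ gap / 16 := by
    rw [he]
    unfold epg
    refine div_le_div_of_nonneg_left q1.le (by norm_num) ?_
    nlinarith [mul_le_mul hn1 hC zero_le_one (by linarith)]
  -- the slopes
  have hra : ∀ z : ℝ, ∃ q : ℚ, |z - q| ≤ e / 4 := by
    intro z
    obtain ⟨q, h1, h2⟩ := exists_rat_btwn (show z - e / 4 < z by linarith)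
    exact ⟨q, abs_le.2 ⟨by linarith, by linarith⟩⟩
  choose ra hra using hra
  obtain ⟨q₀, hq1, hq2⟩ : ∃ q₀ : ℚ, 1 ≤ q₀ ∧ |la l - q₀| ≤ e / 4 := by
    rcases hla.eq_or_lt with h1 | h1
    · refine ⟨1, le_rfl, ?_⟩
      rw [← h1, Rat.cast_one, sub_self, abs_zero]
      linarith
    · obtain ⟨q, h2, h3⟩ := exists_rat_btwn (show max 1 (la l - e / 4) < la l from
        max_lt h1 (by linarith))
      have h4 := (le_max_left (1 : ℝ) (la l - e / 4)).trans_lt h2
      have h5 := (le_max_right (1 : ℝ) (la l - e / 4)).trans_lt h2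
      exact ⟨q, by exact_mod_cast h4.le, abs_le.2 ⟨by linarith, by linarith⟩⟩
  obtain ⟨La, hLa⟩ : ∃ La : Fin n → ℚ, La = fun i : Fin n => if (i : ℕ) = l then q₀ else ra (la (i : ℕ)) :=
    ⟨_, rfl⟩
  obtain ⟨Tt, hTt⟩ : ∃ Tt : Fin n → ℚ, Tt = fun i : Fin n => ra (t (i : ℕ)) := ⟨_, rfl⟩
  have hLa1 : fx La l = q₀ := by
    unfold fx
    rw [dif_pos hl, hLa]
    simp
  have hLai : ∀ i, l ≤ i → i < n → |la i - fx La i| ≤ e / 4 := by
    intro i hi hin
    by_cases h1 : i = l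
    · subst h1
      rw [hLa1]
      exact hq2
    · unfold fx
      rw [dif_pos hin, hLa]
      simp only [h1, if_false]
      exact hra _
  have hTti : ∀ i, i < n → |t i - fx Tt i| ≤ e / 4 := by
    intro i hin
    unfold fx
    rw [dif_pos hin, hTt]
    exact hra _
  -- the size
  have hr : ∃ r : ℝ, 0 < r ∧ ∀ i, l ≤ i → i < n → ∀ s : ℝ, 0 < s → s < r → ∀ a w : ℝ, g - s ≤ w →
      w ≤ a → a ≤ g + s → |L i a w - (L i g g + la i * (a - g) + t i * (w - g))| ≤ e / 4 * s := by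
    have key : ∀ k, ∃ r : ℝ, 0 < r ∧ ∀ i, l ≤ i → i < n → i < k → ∀ s : ℝ, 0 < s → s < r →
        ∀ a w : ℝ, g - s ≤ w → w ≤ a → a ≤ g + s →
          |L i a w - (L i g g + la i * (a - g) + t i * (w - g))| ≤ e / 4 * s := by
      intro k
      induction k with
      | zero => exact ⟨1, one_pos, fun i _ _ h => absurd h (Nat.not_lt_zero i)⟩
      | succ k ih =>
        obtain ⟨r, h1, h2⟩ := ih
        by_cases hk : l ≤ k ∧ k < n
        · obtain ⟨r', h3, h4⟩ := hA k hk.1 hk.2 (e / 4) (by linarith)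
          refine ⟨min r r', lt_min h1 h3, fun i hi hin hik s hs hs' => ?_⟩
          rcases Nat.lt_or_ge i k with h5 | h5
          · exact h2 i hi hin h5 s hs (hs'.trans_le (min_le_left _ _))
          · have : i = k := by omega
            subst this
            exact h4 s hs (hs'.trans_le (min_le_right _ _))
        · refine ⟨r, h1, fun i hi hin hik => ?_⟩
          rcases Nat.lt_or_ge i k with h5 | h5
          · exact h2 i hi hin h5
          · have : i = k := by omega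
            subst this
            exact absurd ⟨hi, hin⟩ hk
    obtain ⟨r, h1, h2⟩ := key n
    exact ⟨r, h1, fun i hi hin => h2 i hi hin hin⟩
  obtain ⟨r, hr0, hr⟩ := hr
  obtain ⟨ρ, p1, p2⟩ := exists_rat_btwn hr0
  refine ⟨La, Tt, ρ, ⟨hl, q1, ?_, ?_, fun i hi hin => ?_⟩, p1, hg0, hg1,
    fun i hi hin x y hyx hx hy h3 h4 => ?_⟩
  · have h1 := abs_le.1 (hTti l hl)
    show (gap : ℝ) ≤ fx Tt l
    linarith [h1.2]
  · show (1 : ℝ) ≤ fx La l
    rw [hLa1]
    exact_mod_cast hq1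
  · have h1 := abs_le.1 (hTti l hl)
    have h2 := abs_le.1 (hTti i hin)
    have h5 := hmi i hi hin
    show fx Tt i + gap ≤ fx Tt l
    linarith [h1.2, h2.1]
  · show |L i (g + x) (g + y) - L i g g - (fx La i * x + fx Tt i * y)| ≤
      epg n C gap * max |x| |y|
    rw [← he]
    obtain ⟨R, hR⟩ : ∃ R, R = max |x| |y| := ⟨_, rfl⟩
    have hxR : |x| ≤ R := by rw [hR]; exact le_max_left _ _
    have hyR : |y| ≤ R := by rw [hR]; exact le_max_right _ _
    have hRρ : R < ρ := by rw [hR]; exact max_lt hx hy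
    rw [← hR]
    rcases (le_trans (abs_nonneg x) hxR).eq_or_lt with h5 | h5
    · have hx0 : x = 0 := abs_eq_zero.1 (le_antisymm (by rw [h5]; exact hxR) (abs_nonneg x))
      have hy0 : y = 0 := abs_eq_zero.1 (le_antisymm (by rw [h5]; exact hyR) (abs_nonneg y))
      rw [hx0, hy0, ← h5]
      simp
    · obtain ⟨x1, x2⟩ := abs_le.1 hxR
      obtain ⟨y1, y2⟩ := abs_le.1 hyR
      have h6 := hr i hi hin R h5 (by linarith) (g + x) (g + y) (by linarith) (by linarith)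
        (by linarith)
      rw [add_sub_cancel_left, add_sub_cancel_left] at h6
      have h7 : |(la i - fx La i) * x| ≤ e / 4 * R := by
        rw [abs_mul]
        exact mul_le_mul (hLai i hi hin) hxR (abs_nonneg _) (by linarith)
      have h8 : |(t i - fx Tt i) * y| ≤ e / 4 * R := by
        rw [abs_mul]
        exact mul_le_mul (hTti i hin) hyR (abs_nonneg _) (by linarith)
      have e1 : L i (g + x) (g + y) - L i g g - (fx La i * x + fx Tt i * y) =
          (L i (g + x) (g + y) - (L i g g + la i * x + t i * y)) + (la i - fx La i) * x +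
            (t i - fx Tt i) * y := by ring
      rw [e1]
      refine (abs_add_le _ _).trans ?_
      have h9 := abs_add_le (L i (g + x) (g + y) - (L i g g + la i * x + t i * y))
        ((la i - fx La i) * x)
      have h10 : e / 4 * R + e / 4 * R + e / 4 * R ≤ e * R := by
        have : 0 < e * R := mul_pos he0 h5
        linarith
      linarith

end Pool.ZL
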