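import Pool.Agent.H77.Z4.Nor
import Pool.Agent.H82.ZF.Fin
import Pool.Agent.H27.TOP.All

/-!
# The static chains from the data on the events

`aff_sta`: static thresholds are affine. `mic_pk`: the micro input for a package. `nore_fin`: the
static chains from `MevH`, with the micro input for all classes.
-/

set_option autoImplicit false

namespace Pool.Z4

open MeasureTheory Set Filter Topology
open Pool.Agent.H49.Ent Pool.Agent.H32.Dense Pool.STK Pool.KA Pool.KSAT Pool.K2S Pool.PB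
open Pool.GEN Pool.S6C Pool.STAT Pool.CHT Pool.GRW Pool.ONE Pool.STA Pool.PKG Pool.ZFN Pool.TOP
open Pool.LBT (LSys ThrOf)
open Pool.LEV (Law Lv)
open Pool.ALL (RateOf)
open Pool.STR (NumI StaAt ThinAt SteepAt MicW)
open Pool.QNT (affB_of)
open Pool.ZL (AffA aff_rg)
open Pool.ZFI (MevH nore_cnt LF)

/-- **Static thresholds are affine.** -/
theorem aff_sta {P : ℝ → ℝ → ℝ} (hP : Law P) {g : ℝ} (hg0 : 0 < g) (hg1 : g < 1)
    (hd : DifferentiableAt ℝ (fun v => P v v) g) (hs : StaAt P g) :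
    AffA P g (deriv (fun v => P v v) g) 0 := by
  intro e he
  obtain ⟨r₂, hr₂, h2⟩ := hs (e / 2) (by linarith)
  obtain ⟨r₃, hr₃, h3⟩ := affB_of hd (M := 1) (e := e / 2) one_pos (by linarith)
  refine ⟨min (min r₂ r₃) (min g (1 - g)), lt_min (lt_min hr₂ hr₃) (lt_min hg0 (by linarith)),
    fun r hr hr' a w hw hwa ha => ?_⟩
  have m1 : r < r₂ := (hr'.trans_le (min_le_left _ _)).trans_le (min_le_left _ _)
  have m2 : r < r₃ := (hr'.trans_le (min_le_left _ _)).trans_le (min_le_right _ _)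
  have m3 : r < g := (hr'.trans_le (min_le_right _ _)).trans_le (min_le_left _ _)
  have m4 : r < 1 - g := (hr'.trans_le (min_le_right _ _)).trans_le (min_le_right _ _)
  have k1 := h2 r hr m1 a w (by linarith) hwa (by linarith)
  have k2 := abs_le.1 (h3 r hr m2 a (by rw [abs_le]; constructor <;> linarith))
  have k3 := hP.mono_w a w a (by linarith) hwa le_rfl (by linarith)
  have e1 : e / 2 * r + e / 2 * r = e * r := by ring
  have e2 : 0 < e * r := mul_pos he hr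
  rw [zero_mul, add_zero, abs_le]
  constructor
  · linarith [k2.1]
  · have : e / 2 * r = e * r / 2 := by ring
    linarith [k2.2]

variable {n : ℕ} {hn : 2 ≤ n} {S : PCl n} {P : ℝ → ℝ → ℝ} {r : ℝ → ℝ}
  {P' : ℕ → List (Fin n) × Fin n → ℝ → ℝ → ℝ} {Λ : Finset (Fin n) → Fin n → ℝ → ℝ → ℝ}
  {PB : ℕ → List (Fin n) × Fin n → ℝ → ℝ → ℝ}

/-- **A package is a class of the exactness theorem** with trivial numbers. -/
theorem clx_triv {s : Fin n → ℝ} {d : ℕ → ℝ} {al : ℝ} {g₀ : ℝ → ℝ} {e : ℝ} {K₀ : ℕ}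
    {N : ℚ → ℚ → ℝ} (h : ClX s d al g₀ e K₀ N S) :
    ClX (fun _ => 0) (fun _ => 1) al g₀ 2 0 N S :=
  ClB.clx (n := n) ⟨h.ne, fun τ J F A hA => by
    obtain ⟨h1, h2, h3, h4, h5, -, h7⟩ := h.mem τ J F A hA
    exact ⟨h1, h2, h3, h4, h5, h7⟩, h.actb⟩ h.actm

/-- **The micro input for a package.** -/
theorem mic_pk {η : ℝ → ℝ} (hM : LocE n η MicRt) (hn : 2 ≤ n)
    (hZ : ∀ k, 1 ≤ k → k < n → FZX k) {D : ℝ} (hD : 0 < D) (hD1 : D ≤ 1)
    (hE : Ext n ((1 + η D) * D)) (H : Pk hn S P r P' Λ) : MicRt P r ((1 - η D) * D) := by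
  obtain ⟨al, g₀, s, d, e, K₀, N, hal, hg₀, hC⟩ := H.cl
  exact hM hn hZ D hD hD1 hE al g₀ (fun _ => 0) (fun _ => 1) hal hg₀
    ⟨fun _ _ _ => le_rfl, fun _ => le_rfl, fun _ => zero_le_one, fun _ _ => rfl,
      fun _ => one_pos⟩ 2 0 N S two_pos (clx_triv hC) P r H.tgs H.rate

/-- **The static chains** from the data on the events. -/
theorem nore_fin (H : PkT hn S P r P' Λ PB) (hTop : TopS n) (hF1 : FZX 1) (hF : FZX (n - 1))
    (hW : ∀ k, 2 ≤ k → k < n → Pool.TOP.RW k) {h : ℝ} (hh : 0 ≤ h) (hh1 : h < 1) (hM : MicRt P r h)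
    (hRg : ∀ (al : ℝ) (g₀ : ℝ → ℝ), 0 < al → (∀ ε : ℝ, 0 < ε → 0 < g₀ ε) →
      ∀ (N : ℚ → ℚ → ℝ) (S' : PCl n) (P : ℝ → ℝ → ℝ) (r : ℝ → ℝ),
      ClX (fun _ => 0) (fun _ => 1) al g₀ 2 0 N S' →
      ThrOf (tgs (lst hn)) S' (fun _ => P) → RateOf S' (lst hn) r → ∀ E, RgFull P r h E)
    (htwo : ∀ o : Od n, ∀ᵐ g : ℝ, RwH H hTop hF h o g → STR.Mac (PT hn PB o) g →
      deriv (fun a => P a a) g ≤ 2)
    (hbas : ∀ o : Od n, ∀ᵐ g : ℝ, RwH H hTop hF h o g → deriv (fun a => P a a) g ≤ 2 →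
      Bas2 H hTop hF o g)
    (hbig : ∀ o : Od n, ∀ᵐ g : ℝ, RwH H hTop hF h o g → 2 < deriv (fun a => P a a) g →
      StaAt P g → STR.IsoAt (PT hn PB o) g → ∀ i, 1 ≤ i → i < n - 1 →
      (∀ l < i, ThS hn P P' PB o l g) → 2 < deriv (fun a => LL hn P P' o (i + 1) a a) g →
      SteepAt 2 (LvT hn PB o i) g → StaAt (LL hn P P' o (i + 1)) g)
    (hMev : ∀ (o : Od n) (l : ℕ), 1 ≤ l → l < n - 1 →
      ∃ C : ℝ, 1 ≤ C ∧ MevH hn S P r P' Λ o l C) : NoRE H hTop hF h := by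
  refine nore_of2 H hTop hF hh hM htwo hbas hbig fun o l => ?_
  by_cases hl : 1 ≤ l ∧ l < n - 1
  swap
  · exact Eventually.of_forall fun g _ _ hC => absurd ⟨hC.l1, hC.ln⟩ hl
  obtain ⟨hl1, hl2⟩ := hl
  obtain ⟨al, g₀, s, d, e, K₀, N, hal, hg₀, hC⟩ := H.toPk.cl
  obtain ⟨C, hC1, hMe⟩ := hMev o l hl1 hl2
  have hg₀' : ∀ ε : ℝ, 0 < ε → 0 < (fun x => min (g₀ (x / 2)) 1) ε := fun ε hε =>
    lt_min (hg₀ _ (by linarith)) one_pos
  have hcnt := nore_cnt H.toPk hTop hF1 hF hW hal hg₀ hC hl1 hl2 hC1 hMe hh hh1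
    fun w₁ _ S' P r h1 h2 h3 E => hRg al _ hal hg₀' _ S' P r h1 h2 h3 E
  filter_upwards [hcnt] with g h1 R hS hCf
  have g0 := R.rwd.g0
  have g1 := R.rwd.g1
  obtain ⟨σ, hσ⟩ : ∃ σ, σ = deriv (fun a => LL hn P P' o (l + 1) a a) g := ⟨_, rfl⟩
  have hσ1 : 1 < σ := by rw [hσ]; exact hCf.one
  refine h1 R.rwd.mem ⟨fun i => if i = l then 1 else deriv (fun v => LF hn P P' o i v v) g,
    fun i => if i = l then σ - 1 else 0, ⟨fun i hi hin => ?_, ?_, ?_, fun i hi hin => ?_⟩, ?_⟩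
  · by_cases h2 : i = l
    · rw [if_pos h2, if_pos h2, h2]
      refine aff_rg (ll_law H.toPk o hl2.le) g0 g1 (hCf.lt l hl2.le) ?_ ?_
      · rw [hσ]
        exact hCf.rg
      · rw [hσ]
        exact STR.dgLo_of (hCf.dif l hl2.le)
    · rw [if_neg h2, if_neg h2]
      exact aff_sta (ll_law H.toPk o (by omega)) g0 g1 (hCf.dif i (by omega))
        (hCf.sta i (by omega) (by omega))
  · simp
  · simp only [if_true]
    linarith
  · simp only [if_true]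
    rw [if_neg (by omega)]
    linarith
  · simp

/-- **The static chains of a package**, inside the induction. -/
theorem nore_ind {η : ℝ → ℝ} (hMic : LocE n η MicRt) (hi : ∀ k, 2 ≤ k → k < n → Ext0 k)
    (hn : 2 ≤ n) (hZ : ∀ k, 1 ≤ k → k < n → FZX k) (hF : FZX (n - 1)) (hTop : TopS n)
    {D : ℝ} (hD : 0 < D) (hD1 : D ≤ 1) (hη : 0 < η D) (hη1 : η D ≤ 1)
    (hE : Ext n ((1 + η D) * D)) (H : PkT hn S P r P' Λ PB)
    (htwo : ∀ o : Od n, ∀ᵐ g : ℝ, RwH H hTop hF ((1 - η D) * D) o g →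
      STR.Mac (PT hn PB o) g → deriv (fun a => P a a) g ≤ 2)
    (hbas : ∀ o : Od n, ∀ᵐ g : ℝ, RwH H hTop hF ((1 - η D) * D) o g →
      deriv (fun a => P a a) g ≤ 2 → Bas2 H hTop hF o g)
    (hbig : ∀ o : Od n, ∀ᵐ g : ℝ, RwH H hTop hF ((1 - η D) * D) o g →
      2 < deriv (fun a => P a a) g → StaAt P g → STR.IsoAt (PT hn PB o) g → ∀ i, 1 ≤ i →
      i < n - 1 → (∀ l < i, ThS hn P P' PB o l g) →
      2 < deriv (fun a => LL hn P P' o (i + 1) a a) g →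
      SteepAt 2 (LvT hn PB o i) g → StaAt (LL hn P P' o (i + 1)) g)
    (hMev : ∀ (o : Od n) (l : ℕ), 1 ≤ l → l < n - 1 →
      ∃ C : ℝ, 1 ≤ C ∧ MevH hn S P r P' Λ o l C) : NoRE H hTop hF ((1 - η D) * D) := by
  have h1 : (1 - η D) * D < 1 := by nlinarith
  have h0 : 0 ≤ (1 - η D) * D := mul_nonneg (by linarith) hD.le
  refine nore_fin H hTop (hZ 1 le_rfl (by omega)) hF
    (rw_all hZ fun k k1 k2 => rowN_of_ext (hi k k1 k2)) h0 h1 (mic_pk hMic hn hZ hD hD1 hE H.toPk)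
    (fun al g₀ hal hg₀ N S' P r h2 h3 h4 E =>
      rgFull_locRt hMic hn hZ hD hD1 hη1 hE hal hg₀ h2 h3 h4 E) htwo hbas hbig hMev

end Pool.Z4
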