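import Pool.Agent.H77.Z4.Cnt2
import Pool.Agent.H77.Z4.Hc0
import Pool.Agent.H19.SW.Vt

/-!
# The counts with the accuracy chosen after the window

`MevY`: the data on the events near the windows `g` with a property `X g`, where the accuracy of the
affine approximation is chosen after the window and the gap, and where at every scale a small set of
windows is exempted. `cntY`: the count. `nore_cntY`, `nore_cnt0Y`: the two counts with the data in this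
form. `nore_ind6`: the static chains of a package, from `V0C`, the large slopes, the exactness on the
boxes of the kind without ties, the ties, and the data on the events near the windows of the counts.
-/

set_option autoImplicit false

namespace Pool.Z4

open MeasureTheory Set Filter Topology
open Pool.Agent.H49.Ent Pool.Agent.H32.Dense Pool.STK Pool.KA Pool.KSAT Pool.K2S Pool.PB
open Pool.GEN Pool.S6C Pool.STAT Pool.CHT Pool.GRW Pool.ONE Pool.STA Pool.PKG Pool.ZFN Pool.TOP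
open Pool.LBT (LSys ThrOf)
open Pool.LEV (Law Lv)
open Pool.ALL (RateOf)
open Pool.STR (NumI StaAt ThinAt SteepAt MicW)
open Pool.ZL (AffA aff_rg)
open Pool.ZFI (LF LF_lst gs_lt right_ae cnt_A aff_der aff_one ll_bd01 zwd_of)
open Pool.ZL Pool.ZCO Pool.ZCL Pool.ZLC

variable {n : ℕ} {hn : 2 ≤ n} {S : PCl n} {P : ℝ → ℝ → ℝ} {r : ℝ → ℝ}
  {P' : ℕ → List (Fin n) × Fin n → ℝ → ℝ → ℝ} {Λ : Finset (Fin n) → Fin n → ℝ → ℝ → ℝ}
  {PB : ℕ → List (Fin n) × Fin n → ℝ → ℝ → ℝ} {o : Od n}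

/-- **The data on the events** for one pair of windows `w₁`, `w₁ + δ`. -/
def MevD (hn : 2 ≤ n) (S : PCl n) (P : ℝ → ℝ → ℝ)
    (P' : ℕ → List (Fin n) × Fin n → ℝ → ℝ → ℝ) (o : Od n) (l : ℕ) (C : ℝ)
    (gap : ℝ) (lam T : ℕ → ℝ) (rho w₁ : ℝ) (δ : ℚ) : Prop :=
  ∃ a₀ w₀ b : ℝ, Bse (lam l) (Kg n gap) b a₀ w₀ w₁ ∧ w₀ < w₁ ∧ w₁ + δ < a₀ ∧
    a₀ - w₀ < rho ∧ ∃ (M : MDat) (Vd : Rq → Prop) (β : ℕ → ℝ → ℝ → ℝ) (E₁ : ℝ),
    (∀ i ≤ n - 1, β i = LF hn P P' o i) ∧ MOk n M Vd ∧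
    (∀ w : ℝ, w = w₁ ∨ w = w₁ + δ → ∀ i ≤ n - 1, β i w w + M.E + 2 * M.ϱ ≤ 1) ∧
    VdG w₁ δ M (fun a w => C * psi (LF hn P P' o) l n T a₀ w₀ b (Kg n gap) a w) Vd ∧
    0 ≤ E₁ ∧ β (n - 1) (w₁ + δ) (w₁ + δ) + E₁ < 1 ∧ (∀ q, Vd q → q.w ≤ q.a ∧ q.a ≤ 1) ∧
    MEvt S M w₁ E₁ (cc hn o.1.1) (n - 1) l β Vd

/-- **The data on the events** near the windows with `X`: the accuracy is chosen after the window and
the gap, and at every scale a small set of windows is exempted. -/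
def MevY (hn : 2 ≤ n) (S : PCl n) (P : ℝ → ℝ → ℝ) (r : ℝ → ℝ)
    (P' : ℕ → List (Fin n) × Fin n → ℝ → ℝ → ℝ) (Λ : Finset (Fin n) → Fin n → ℝ → ℝ → ℝ)
    (o : Od n) (l : ℕ) (X : ℝ → Prop) : Prop :=
  ∀ gap : ℝ, 0 < gap → ∀ g ∈ Gs P r P' Λ o, X g → ∃ C₀ : ℕ, 1 ≤ C₀ ∧ ∀ C : ℕ, C₀ ≤ C →
    ∀ (lam T : ℕ → ℝ) (rho : ℝ), Vs l n lam T gap → 0 < rho →
    g ∈ Eg (LF hn P P' o) l n lam T (epg n C gap) rho →
    ∃ ϱ : ℝ, 0 < ϱ ∧ ∀ δ : ℚ, 0 < δ → (δ : ℝ) < ϱ → ∃ B : Set ℝ,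
      volume (Ioo (g - δ) g \ B) ≤ ENNReal.ofReal (δ / 8) ∧ ∀ᵐ w₁ : ℝ, w₁ ∈ B →
      w₁ ∈ Gs P r P' Λ o ∩ Eg (LF hn P P' o) l n lam T (epg n C gap) rho →
      w₁ + δ ∈ Gs P r P' Λ o ∩ Eg (LF hn P P' o) l n lam T (epg n C gap) rho →
      g - ϱ < w₁ → w₁ < g → g < w₁ + δ → w₁ + δ < g + ϱ →
      MevD hn S P P' o l C gap lam T rho w₁ δ

theorem MevY.mono {l : ℕ} {X X' : ℝ → Prop} (h : MevY hn S P r P' Λ o l X)
    (hX : ∀ g, X' g → X g) : MevY hn S P r P' Λ o l X' :=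
  fun gap hgap g hg hx => h gap hgap g hg (hX g hx)

/-- The inequality of the zooms near one window. -/
def CntD (hn : 2 ≤ n) (P : ℝ → ℝ → ℝ) (r : ℝ → ℝ)
    (P' : ℕ → List (Fin n) × Fin n → ℝ → ℝ → ℝ) (Λ : Finset (Fin n) → Fin n → ℝ → ℝ → ℝ)
    (o : Od n) (l : ℕ) (h₀ : ℝ) (Φ : ℝ → (ℕ → ℝ) → (ℕ → ℝ) → Prop) (C gap : ℝ)
    (lam T : ℕ → ℝ) (rho g : ℝ) : Prop :=
  ∃ ϱ : ℝ, 0 < ϱ ∧ ∀ δ : ℚ, 0 < δ → (δ : ℝ) < ϱ → ∃ B : Set ℝ,
    volume (Ioo (g - δ) g \ B) ≤ ENNReal.ofReal (δ / 8) ∧ ∀ᵐ w₁ : ℝ, w₁ ∈ B →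
    w₁ ∈ Gs P r P' Λ o ∩ Eg (LF hn P P' o) l n lam T (epg n C gap) rho →
    w₁ + δ ∈ Gs P r P' Λ o ∩ Eg (LF hn P P' o) l n lam T (epg n C gap) rho →
    g - ϱ < w₁ → w₁ < g → g < w₁ + δ → w₁ + δ < g + ϱ →
    ∀ (A : Set ℝ) (s₀ : ℝ), 1 < s₀ →
    (∀ x ∈ A, x ∈ Eg (LF hn P P' o) l n lam T (epg n C gap) rho ∧
      x ∈ Gs P r P' Λ o ∧ Nogap (Gs P r P' Λ o) x ∧ LF hn P P' o l x x < 1 ∧
      s₀ ≤ deriv (fun v => LF hn P P' o l v v) x ∧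
      ∃ la t : ℕ → ℝ, ZFI.Cfg hn P P' o l x la t ∧ Φ x la t) →
    ENNReal.ofReal ((1 - h₀) * s₀) * volume (A ∩ Ioo w₁ (w₁ + δ)) ≤
    ENNReal.ofReal (LF hn P P' o l (w₁ + δ) (w₁ + δ) - LF hn P P' o l w₁ w₁ -
      (P (w₁ + δ) (w₁ + δ) - P w₁ w₁ - (r (P (w₁ + δ) (w₁ + δ)) - r (P w₁ w₁))))

/-- **The final count**, with the accuracy chosen after the window. -/
theorem cntY (H : Pk hn S P r P' Λ) (hTop : Pool.TOP.TopS n) (hF : FZX (n - 1)) {l : ℕ}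
    (hl : l < n - 1) {h₀ : ℝ} (hh0 : 0 ≤ h₀) (hh : h₀ < 1)
    {Φ : ℝ → (ℕ → ℝ) → (ℕ → ℝ) → Prop}
    (hI : ∀ gap : ℝ, 0 < gap → ∀ g ∈ Gs P r P' Λ o,
      (∃ la t : ℕ → ℝ, ZFI.Cfg hn P P' o l g la t ∧ Φ g la t) →
      ∃ C₀ : ℕ, 1 ≤ C₀ ∧ ∀ C : ℕ, C₀ ≤ C → ∀ (lam T : ℕ → ℝ) (rho : ℝ), Vs l n lam T gap →
      0 < rho → g ∈ Eg (LF hn P P' o) l n lam T (epg n C gap) rho →
      CntD hn P r P' Λ o l h₀ Φ C gap lam T rho g) :
    ∀ᵐ g : ℝ, g ∈ Gs P r P' Λ o → (∃ la t : ℕ → ℝ, ZFI.Cfg hn P P' o l g la t ∧ Φ g la t) →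
      1 < deriv (fun v => LF hn P P' o l v v) g →
      deriv (fun v => P v v) g * (1 - deriv r (P g g)) ≤
        h₀ * deriv (fun v => LF hn P P' o l v v) g := by
  have hPl := H.tgs.law ()
  have hrl : ∀ᵐ Q : ℝ, DifferentiableAt ℝ r Q := H.rate.lip.ae_differentiableAt_real
  -- one index
  have key : ∀ (ι : Eix n) (C : ℕ), 1 ≤ C → Vs l n (fx ι.2.1) (fx ι.2.2.1) ι.1 →
      (0 : ℝ) < ι.2.2.2 → ∀ᵐ g : ℝ,
      g ∈ {g | g ∈ Gs P r P' Λ o ∩ Eg (LF hn P P' o) l n (fx ι.2.1) (fx ι.2.2.1)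
          (epg n C ι.1) ι.2.2.2 ∧ Nogap (Gs P r P' Λ o) g ∧ DifferentiableAt ℝ r (P g g) ∧
          1 < deriv (fun v => LF hn P P' o l v v) g ∧
          (∃ la t : ℕ → ℝ, ZFI.Cfg hn P P' o l g la t ∧ Φ g la t) ∧
          CntD hn P r P' Λ o l h₀ Φ C ι.1 (fx ι.2.1) (fx ι.2.2.1) ι.2.2.2 g} →
      deriv (fun v => P v v) g * (1 - deriv r (P g g)) ≤
        h₀ * deriv (fun v => LF hn P P' o l v v) g := by
    intro ι C hC1 V hrho
    have hC : (1 : ℝ) ≤ C := by exact_mod_cast hC1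
    refine zcount2 (D := fun v => LF hn P P' o l v v) (P := fun v => P v v) (r := r)
      (G := Gs P r P' Λ o ∩ Eg (LF hn P P' o) l n (fx ι.2.1) (fx ι.2.2.1) (epg n C ι.1)
          ι.2.2.2)
      ((H.gs_meas o).inter (eg_meas (fun i hi hin => ZFI.ll_law H hin) (ll_bd01 H l) (V.e0 hC).le))
      (fun g hg => hg.1) hh hh0 ?_ ?_
    · rintro g ⟨⟨h1, h2⟩, -, h3, h4, ⟨la, t, h5, -⟩, -⟩
      refine ⟨h2.1, h2.2.1, (aff_der (h5.aff l le_rfl (by omega))).differentiableAt, h4, ?_, h3⟩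
      have h6 := aff_der (h5.aff (n - 1) (by omega) (by omega))
      rw [LF_lst] at h6
      exact h6.differentiableAt
    · rintro g ⟨h1, -, -, -, -, ϱ, hϱ, h2⟩
      refine ⟨ϱ, hϱ, fun δ hδ hδϱ => ?_⟩
      obtain ⟨B, hB, h3⟩ := h2 δ hδ hδϱ
      refine ⟨B, hB, ?_⟩
      filter_upwards [h3] with w₁ h3 k0 k1 k2 k3 k4 k5 k6 s₀ hs₀
      refine h3 k0 k1 k2 k3 k4 k5 k6 _ s₀ hs₀ ?_
      rintro x ⟨⟨⟨a1, a2⟩, a3, a4, a5, a6, -⟩, a7⟩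
      exact ⟨a2, a1, a3, gs_lt H a1 (by omega) hTop hF, a7, a6⟩
  have hall : ∀ᵐ g : ℝ, ∀ (ι : Eix n) (C : ℕ), 1 ≤ C → Vs l n (fx ι.2.1) (fx ι.2.2.1) ι.1 →
      (0 : ℝ) < ι.2.2.2 →
      g ∈ {g | g ∈ Gs P r P' Λ o ∩ Eg (LF hn P P' o) l n (fx ι.2.1) (fx ι.2.2.1)
          (epg n C ι.1) ι.2.2.2 ∧ Nogap (Gs P r P' Λ o) g ∧ DifferentiableAt ℝ r (P g g) ∧
          1 < deriv (fun v => LF hn P P' o l v v) g ∧
          (∃ la t : ℕ → ℝ, ZFI.Cfg hn P P' o l g la t ∧ Φ g la t) ∧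
          CntD hn P r P' Λ o l h₀ Φ C ι.1 (fx ι.2.1) (fx ι.2.2.1) ι.2.2.2 g} →
      deriv (fun v => P v v) g * (1 - deriv r (P g g)) ≤
        h₀ * deriv (fun v => LF hn P P' o l v v) g := by
    rw [ae_all_iff]
    intro ι
    rw [ae_all_iff]
    intro C
    by_cases h1 : 1 ≤ C ∧ Vs l n (fx ι.2.1) (fx ι.2.2.1) ι.1 ∧ (0 : ℝ) < ι.2.2.2
    · filter_upwards [key ι C h1.1 h1.2.1 h1.2.2] with g h2 _ _ _ h3
      exact h2 h3
    · exact Filter.Eventually.of_forall fun g h2 h3 h4 => absurd ⟨h2, h3, h4⟩ h1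
  have hrat : ∀ᵐ g : ℝ, DifferentiableAt ℝ (dgP P) g → 0 < deriv (dgP P) g →
      dgP P g ∉ {Q | ¬ DifferentiableAt ℝ r Q} :=
    Pool.STR.ae_notMem_of_null (dgP_mono hPl) (ae_iff.1 hrl)
  filter_upwards [hall, hrat, nogap_ae (H.gs_meas o)] with g h1 h2 h3 hg ⟨la, t, hcf, hΦ⟩ hs
  obtain ⟨α, Q, c, Fc⟩ := H.fac hTop hF hg
  have hg0 := Fc.g0
  have hg1 := Fc.g1
  obtain ⟨gap, hgap, hex⟩ := eg_ex2 (n := n) hg0 hg1 (show l < n by omega) hcf.aff hcf.la1 hcf.t0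
    hcf.ti
  obtain ⟨C, hC1, hI1⟩ := hI gap hgap g hg ⟨la, t, hcf, hΦ⟩
  have hC : (1 : ℝ) ≤ C := by exact_mod_cast hC1
  obtain ⟨La, T, ρ, V, hrho, hE⟩ := hex C hC
  refine h1 (gap, La, T, ρ) C hC1 V hrho ⟨⟨hg, hE⟩, h3 hg, ?_, hs, ⟨la, t, hcf, hΦ⟩,
    hI1 C le_rfl _ _ _ V hrho hE⟩
  -- the rate
  have h4 := hcf.aff (n - 1) (by omega) (by omega)
  rw [LF_lst] at h4
  have hP1 : P g g < 1 := by
    have := gs_lt H hg (show n - 1 < n by omega) hTop hF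
    rwa [LF_lst] at this
  have h5 := aff_der h4
  have h6 : HasDerivAt (dgP P) (la (n - 1) + t (n - 1)) g := by
    refine h5.congr_of_eventuallyEq ?_
    filter_upwards [Ioo_mem_nhds hg0 hg1] with v hv
    exact dgP_eq P hv.1.le hv.2.le
  have h7 := aff_one hPl hg0 hg1 hP1 h4
  have h8 := h2 h6.differentiableAt (by rw [h6.deriv]; linarith)
  rw [dgP_eq P hg0.le hg1.le] at h8
  by_contra hcon
  exact h8 hcon

/-- **The slope of the target** at the windows with `X`. -/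
theorem nore_cntY (H : Pk hn S P r P' Λ) (hTop : Pool.TOP.TopS n) (hF1 : FZX 1)
    (hF : FZX (n - 1)) (hW : ∀ k, 2 ≤ k → k < n → Pool.TOP.RW k)
    {s : Fin n → ℝ} {d : ℕ → ℝ} {al : ℝ} {g₀ : ℝ → ℝ} {e₀ : ℝ} {K₀ : ℕ} {N : ℚ → ℚ → ℝ}
    (hal : 0 < al) (hg₀ : ∀ ε : ℝ, 0 < ε → 0 < g₀ ε) (hC : ClX s d al g₀ e₀ K₀ N S)
    {l : ℕ} (hl1 : 1 ≤ l) (hl : l < n - 1) {X : ℝ → Prop}
    (hMev : MevY hn S P r P' Λ o l X) {h₀ : ℝ} (hh0 : 0 ≤ h₀) (hh : h₀ < 1)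
    (hM : ∀ w₁ ∈ Gs P r P' Λ o, ∀ (S' : PCl n) (P : ℝ → ℝ → ℝ) (r : ℝ → ℝ),
      ClX (fun _ => 0) (fun _ => 1) al
      (fun x => min (g₀ (x / 2)) 1) 2 0 (NZR S (cc hn o.1.1 0) (al + 1) w₁) S' →
      ThrOf (tgs (lst hn)) S' (fun _ => P) → RateOf S' (lst hn) r → ∀ E, RgFull P r h₀ E) :
    ∀ᵐ g : ℝ, g ∈ Gs P r P' Λ o → (∃ la t : ℕ → ℝ, ZFI.Cfg hn P P' o l g la t ∧ la l = 1) →
      X g → deriv (fun v => P v v) g * (1 - deriv r (P g g)) ≤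
        h₀ * deriv (fun v => LL hn P P' o (l + 1) v v) g := by
  have hmain := cntY H hTop hF hl hh0 hh (Φ := fun g la _ => la l = 1 ∧ X g) (o := o) ?_
  · filter_upwards [hmain] with g h1 hg hcf hX
    obtain ⟨la, t, h2, h3⟩ := hcf
    refine h1 hg ⟨la, t, h2, h3, hX⟩ ?_
    have h4 := h2.t0
    rw [(aff_der (h2.aff l le_rfl (by omega))).deriv, h3]
    linarith
  · rintro gap hgap g hg ⟨_, _, _, _, hX⟩
    obtain ⟨C₀, hC₀, h0⟩ := hMev gap hgap g hg hX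
    refine ⟨C₀, hC₀, fun C hCC lam T rho V hrho hE => ?_⟩
    have hC1 : (1 : ℝ) ≤ C := by exact_mod_cast hC₀.trans hCC
    obtain ⟨ϱ, hϱ, h1⟩ := h0 C hCC lam T rho V hrho hE
    refine ⟨ϱ, hϱ, fun δ hδ hδϱ => ?_⟩
    obtain ⟨B, hB, h2⟩ := h1 δ hδ hδϱ
    refine ⟨B, hB, ?_⟩
    filter_upwards [h2, right_ae (Gs P r P' Λ o)] with w₁ h2 hR k0 k1 k2 k3 k4 k5 k6
    obtain ⟨a₀, w₀, b, B, h01, hδa, har, M, Vd, β, E₁, hβ, hMO, hnum, hV, hE0, hE1, hVd, hME⟩ :=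
      h2 k0 k1 k2 k3 k4 k5 k6
    have Z := zwd_of H hl1 hl V hC1 hδ B hδa.le har k1.1 k1.2 k2.1 k2.2 (hR k1.1) hβ hMO hnum hV
    refine fun A s₀ hs₀ hA => cnt_A (hn := hn) (P := P) (P' := P') (Λ := Λ) (r := r) (o := o)
      (by omega) V hC1 hrho B h01 hδa har (Ψ := fun A s₀ => ENNReal.ofReal ((1 - h₀) * s₀) *
        volume (A ∩ Ioo w₁ (w₁ + δ)) ≤
        ENNReal.ofReal (LF hn P P' o l (w₁ + δ) (w₁ + δ) - LF hn P P' o l w₁ w₁ -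
          (P (w₁ + δ) (w₁ + δ) - P w₁ w₁ - (r (P (w₁ + δ) (w₁ + δ)) - r (P w₁ w₁)))))
      (fun A σ s₀ hs₀ hA => ?_) A s₀ hs₀ fun x hx => ?_
    · exact zw_mevt' Z H hTop hF1 hF hW hal hg₀ hC hE0 hE1 hVd hME hs₀ hh.le hA (hM w₁ k1.1)
    · obtain ⟨a1, a2, a3, a4, a5, la, t, a6, a7, -⟩ := hA x hx
      exact ⟨a1, a2, a3, a4, a5, la, t, a6, a7⟩

/-- The configuration of the count with loss. -/
theorem cfg_of (H : PkT hn S P r P' Λ PB) {l : ℕ} (hl2 : l < n - 1) {g : ℝ}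
    (hg : g ∈ Gs P r P' Λ o) (hCf : Cfg hn P P' o l g) :
    ∃ la t : ℕ → ℝ, ZFI.Cfg hn P P' o l g la t ∧ la l = 1 := by
  have g0 : 0 < g := hg.1.1.1
  have g1 : g < 1 := hg.1.1.2.1
  obtain ⟨σ, hσ⟩ : ∃ σ, σ = deriv (fun a => LL hn P P' o (l + 1) a a) g := ⟨_, rfl⟩
  have hσ1 : 1 < σ := by rw [hσ]; exact hCf.one
  refine ⟨fun i => if i = l then 1 else deriv (fun v => LF hn P P' o i v v) g,
    fun i => if i = l then σ - 1 else 0, ⟨fun i hi hin => ?_, ?_, ?_, fun i hi hin => ?_⟩, ?_⟩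
  · by_cases h2 : i = l
    · rw [if_pos h2, if_pos h2, h2]
      refine aff_rg (ll_law H.toPk o hl2.le) g0 g1 (hCf.lt l hl2.le) ?_ ?_
      · rw [hσ]
        exact hCf.rg
      · rw [hσ]
        exact STR.dgLo_of (hCf.dif l hl2.le)
    · rw [if_neg h2, if_neg h2]
      exact aff_sta (ll_law H.toPk o (by omega)) g0 g1 (hCf.dif i (by omega))
        (hCf.sta i (by omega) (by omega))
  · simp
  · simp only [if_true]
    linarith
  · simp only [if_true]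
    rw [if_neg (by omega)]
    linarith
  · simp

/-- The count from the data on the events near the windows with `X`. -/
theorem cnt_mevY (H : PkT hn S P r P' Λ PB) (hTop : TopS n) (hF1 : FZX 1) (hF : FZX (n - 1))
    (hW : ∀ k, 2 ≤ k → k < n → Pool.TOP.RW k) {h : ℝ} (hh : 0 ≤ h) (hh1 : h < 1)
    (hRg : ∀ (al : ℝ) (g₀ : ℝ → ℝ), 0 < al → (∀ ε : ℝ, 0 < ε → 0 < g₀ ε) →
      ∀ (N : ℚ → ℚ → ℝ) (S' : PCl n) (P : ℝ → ℝ → ℝ) (r : ℝ → ℝ),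
      ClX (fun _ => 0) (fun _ => 1) al g₀ 2 0 N S' →
      ThrOf (tgs (lst hn)) S' (fun _ => P) → RateOf S' (lst hn) r → ∀ E, RgFull P r h E)
    {X : Od n → ℕ → ℝ → Prop}
    (hMev : ∀ (o : Od n) (l : ℕ), 1 ≤ l → l < n - 1 → MevY hn S P r P' Λ o l (X o l))
    (o : Od n) (l : ℕ) :
    ∀ᵐ g : ℝ, g ∈ Gs P r P' Λ o → Cfg hn P P' o l g → X o l g →
      deriv (fun a => P a a) g * (1 - deriv r (P g g)) ≤
        h * deriv (fun a => LL hn P P' o (l + 1) a a) g := by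
  by_cases hl : 1 ≤ l ∧ l < n - 1
  swap
  · exact Eventually.of_forall fun g _ hC => absurd ⟨hC.l1, hC.ln⟩ hl
  obtain ⟨hl1, hl2⟩ := hl
  obtain ⟨al, g₀, s, d, e, K₀, N, hal, hg₀, hC⟩ := H.toPk.cl
  have hg₀' : ∀ ε : ℝ, 0 < ε → 0 < (fun x => min (g₀ (x / 2)) 1) ε := fun ε hε =>
    lt_min (hg₀ _ (by linarith)) one_pos
  have hcnt := nore_cntY H.toPk hTop hF1 hF hW hal hg₀ hC hl1 hl2 (hMev o l hl1 hl2) hh hh1
    fun w₁ _ S' P r h1 h2 h3 E => hRg al _ hal hg₀' _ S' P r h1 h2 h3 E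
  filter_upwards [hcnt] with g h1 hg hCf hX
  exact h1 hg (cfg_of H hl2 hg hCf) hX

end Pool.Z4

namespace Pool.SW

open MeasureTheory Set Filter Topology
open Finset (range univ)
open Pool.Agent.H49.Ent Pool.Agent.H32.Dense Pool.STK Pool.KA Pool.KSAT Pool.K2S Pool.PB Pool.S6C
open Pool.GEN Pool.ONE Pool.EXW Pool.TOP Pool.ZCL Pool.ZLC Pool.ZFN Pool.ZCO Pool.PKG Pool.CHT
open Pool.Z4 Pool.ZL
open Pool.LBT (ThrOf)
open Pool.LEV (Law)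
open Pool.ALL (RateOf)
open Pool.ZFI (LF ll_law ll_bd01 aff_der aff_dg right_ae zwd_of)

variable {n : ℕ} {hn : 2 ≤ n} {S : PCl n} {P : ℝ → ℝ → ℝ} {r : ℝ → ℝ}
  {P' : ℕ → List (Fin n) × Fin n → ℝ → ℝ → ℝ} {Λ : Finset (Fin n) → Fin n → ℝ → ℝ → ℝ}
  {PB : ℕ → List (Fin n) × Fin n → ℝ → ℝ → ℝ}

/-- **The count with no loss**, with the data on the events only near the windows with `X`. -/
theorem nore_cnt0Y (H : Pk hn S P r P' Λ) (hTop : Pool.TOP.TopS n) (hF1 : FZX 1)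
    (hF : FZX (n - 1)) (hn4 : n ≤ 4) (hW : ∀ k, 2 ≤ k → k < n → RW k)
    {C' : (Fin (n - 1) → ℝ) → ℝ → Prop}
    (hCm : MeasurableSet {p : (Fin (n - 1) → ℝ) × ℝ | C' p.1 p.2}) (hV : VAll hn hTop hF C')
    {s : Fin n → ℝ} {d : ℕ → ℝ} {al : ℝ} {g₀ : ℝ → ℝ} {e₀ : ℝ} {K₀ : ℕ} {N : ℚ → ℚ → ℝ}
    (hal : 0 < al) (hg₀ : ∀ ε : ℝ, 0 < ε → 0 < g₀ ε) (hC : ClX s d al g₀ e₀ K₀ N S)
    {o : Od n} {l : ℕ} (hl1 : 1 ≤ l) (hl : l < n - 1) {X : ℝ → Prop}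
    (hMev : MevY hn S P r P' Λ o l X) :
    ∀ᵐ g : ℝ, g ∈ Gs P r P' Λ o → (∃ la t : ℕ → ℝ, Pool.ZFI.Cfg hn P P' o l g la t ∧ la l = 1) →
      Cok C' (fun j => deriv (fun v => LL hn P P' o (ix l j + 1) v v) g)
        (deriv (fun v => LL hn P P' o (l + 1) v v) g) → X g →
      deriv (fun v => P v v) g * (1 - deriv r (P g g)) ≤ 0 := by
  have hmain := cntY H hTop hF hl le_rfl one_pos
    (Φ := fun g la _ => (la l = 1 ∧
      Cok C' (fun j => deriv (fun v => LL hn P P' o (ix l j + 1) v v) g)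
      (deriv (fun v => LL hn P P' o (l + 1) v v) g)) ∧ X g) (o := o) ?_
  · filter_upwards [hmain] with g h1 hg hcf hck hX
    obtain ⟨la, t, h2, h3⟩ := hcf
    have h5 := h1 hg ⟨la, t, h2, ⟨h3, hck⟩, hX⟩ (by
      have h4 := h2.t0
      rw [(aff_der (h2.aff l le_rfl (by omega))).deriv, h3]
      linarith)
    rwa [zero_mul] at h5
  · rintro gap hgap g hg ⟨_, _, _, _, hX⟩
    obtain ⟨C₀, hC₀, h0⟩ := hMev gap hgap g hg hX
    refine ⟨C₀, hC₀, fun C hCC lam T rho V hrho hE => ?_⟩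
    have hC1 : (1 : ℝ) ≤ C := by exact_mod_cast hC₀.trans hCC
    obtain ⟨ϱ, hϱ, h1⟩ := h0 C hCC lam T rho V hrho hE
    refine ⟨ϱ, hϱ, fun δ hδ hδϱ => ?_⟩
    obtain ⟨B, hB, h2⟩ := h1 δ hδ hδϱ
    have hGm : MeasurableSet (Gs P r P' Λ o ∩ Eg (LF hn P P' o) l n lam T (epg n C gap) rho) :=
      (H.gs_meas o).inter (eg_meas (fun i _ hin => ll_law H hin) (ll_bd01 H l) (V.e0 hC1).le)
    refine ⟨B, hB, ?_⟩
    filter_upwards [h2, right_ae (Gs P r P' Λ o), Pool.BSM.grid_lb hGm]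
      with w₁ h2 hR hgr k0 k1 k2 k3 k4 k5 k6 A s₀ hs₀ hA
    obtain ⟨a₀, w₀, b, B, h01, hδa, har, M, Vd, β, E₁, hβ, hMO, hnum, hVV, hE0, hE1, hVd, hME⟩ :=
      h2 k0 k1 k2 k3 k4 k5 k6
    have Z := zwd_of H hl1 hl V hC1 hδ B hδa.le har k1.1 k1.2 k2.1 k2.2 (hR k1.1) hβ hMO hnum hVV
    have hδ0 : (0 : ℝ) < δ := by exact_mod_cast hδ
    refine zw_c' Z H hTop hF1 hF hn4 hW hCm hV hal hg₀ hC hE0 hE1 hVd hME (fun x hx => hx.1) hGm
      hgr ?_ (σ := fun x => deriv (fun v => LL hn P P' o (l + 1) v v) x) hs₀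
      (fun x hx => ⟨(hA x hx).2.1, (hA x hx).1⟩) ?_ ?_
    · intro x hx0 hx1 hxG
      have hx0' : (0 : ℝ) < x := by exact_mod_cast hx0
      have hx1' : (x : ℝ) < δ := by exact_mod_cast hx1
      have h3 := B.h1
      rw [psi_diag V hC1 (ll_bd01 H l) hxG.2 B (by linarith) (by linarith) (by linarith)
        (by linarith), mul_zero]
    · intro x hx h3 h4
      obtain ⟨m1, m2, m3, m4, m5, la, t, m6, ⟨m7, -⟩, -⟩ := hA x hx
      have m8 := m6.aff l le_rfl (by omega)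
      have m9 := aff_der m8
      rw [m7] at m9
      have hd : deriv (fun v => LL hn P P' o (l + 1) v v) x = 1 + t l := m9.deriv
      refine ⟨m5, m4, ?_, ?_, m9.continuousAt, m3⟩
      · rw [hd]
        exact lu_rg V hC1 hrho m1 m6.aff m7 B h01 h3 (by linarith) (by linarith) (by linarith)
      · rw [hd, ← m7]
        exact aff_dg m8
    · intro x hx _ _
      obtain ⟨-, -, -, -, -, la, t, -, ⟨-, m8⟩, -⟩ := hA x hx
      exact m8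

/-- **The count with no loss** for the static chains, at the windows with `X`. -/
theorem hc0_cY (H : PkT hn S P r P' Λ PB) (hTop : TopS n) (hF1 : FZX 1) (hF : FZX (n - 1))
    (hn4 : n ≤ 4) (hW : ∀ k, 2 ≤ k → k < n → RW k) {C' : (Fin (n - 1) → ℝ) → ℝ → Prop}
    (hCm : MeasurableSet {p : (Fin (n - 1) → ℝ) × ℝ | C' p.1 p.2}) (hV : VAll hn hTop hF C')
    {h : ℝ} (hh : 0 ≤ h) {X : Od n → ℕ → ℝ → Prop} (hMev : ∀ (o : Od n) (l : ℕ), 1 ≤ l →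
      l < n - 1 → MevY hn S P r P' Λ o l (X o l)) (o : Od n) (l : ℕ) :
    ∀ᵐ g : ℝ, RwH H hTop hF h o g → Pool.Z4.Cfg hn P P' o l g → X o l g →
      Cok C' (fun j => deriv (fun v => LL hn P P' o (ix l j + 1) v v) g)
        (deriv (fun v => LL hn P P' o (l + 1) v v) g) → False := by
  by_cases hl : 1 ≤ l ∧ l < n - 1
  swap
  · exact Eventually.of_forall fun g _ hC => absurd ⟨hC.l1, hC.ln⟩ hl
  obtain ⟨hl1, hl2⟩ := hl
  obtain ⟨al, g₀, s, d, e, K₀, N, hal, hg₀, hC⟩ := H.toPk.cl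
  filter_upwards [nore_cnt0Y H.toPk hTop hF1 hF hn4 hW hCm hV hal hg₀ hC hl1 hl2
    (hMev o l hl1 hl2)] with g h1 R hCf hX hck
  have hg := R.rwd.mem
  have h2 := h1 hg (cfg_of H hl2 hg hCf) hck hX
  have hdg : (H.nk hTop hF).dg o (n - 1) = fun a => P a a := (H.nk hTop hF).dg_m o
  have hone : 1 ≤ deriv (fun a => P a a) g := by
    have h3 := R.rwd.one (n - 1) le_rfl
    rwa [hdg] at h3
  have h3 := R.defi
  have h4 : 0 < deriv (fun a => P a a) g * (1 - deriv r (P g g)) :=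
    mul_pos (by linarith) (by linarith)
  linarith

/-- **The windows with a rough coordinate of slope larger than the slope of the target**: there are
none, from the exactness on the boxes of the kind without ties, the case of the ties, and the data
on the events near the windows of the counts. -/
theorem hc0_aY (H : PkT hn S P r P' Λ PB) (hTop : TopS n) (hF1 : FZX 1) (hF : FZX (n - 1))
    (hn4 : n ≤ 4) (hW : ∀ k, 2 ≤ k → k < n → RW k) (hE : ExV hn hTop hF)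
    (hT : n = 4 → TieO hn hTop hF (TopC n)) {h : ℝ} (hh : 0 ≤ h) {Y : Od n → ℝ → Prop}
    (hMev : ∀ (o : Od n) (l : ℕ), 1 ≤ l → l < n - 1 →
      MevY hn S P r P' Λ o l (fun g => RwH H hTop hF h o g ∧ Xa hn P P' PB o l g ∧ Y o g))
    (o : Od n) (l : ℕ) :
    ∀ᵐ g : ℝ, RwH H hTop hF h o g → Xa hn P P' PB o l g → Y o g →
      deriv (fun a => P a a) g < deriv (fun a => LL hn P P' o (l + 1) a a) g → False := by
  have eP : LL hn P P' o (n - 1 + 1) = P := by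
    rw [← lvL_eq o le_rfl]
    funext a w
    exact LvL_top o a w
  have h1 := hc0_cY H hTop hF1 hF hn4 hW (noTie_meas n) (vAll_nt hTop hF hE) hh
    (X := fun o l g => RwH H hTop hF h o g ∧ Xa hn P P' PB o l g ∧ Y o g) hMev o l
  have h2 : ∀ᵐ g : ℝ, n = 4 → RwH H hTop hF h o g → Pool.Z4.Cfg hn P P' o l g →
      (RwH H hTop hF h o g ∧ Xa hn P P' PB o l g ∧ Y o g) →
      Cok (TopC n) (fun j => deriv (fun v => LL hn P P' o (ix l j + 1) v v) g)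
        (deriv (fun v => LL hn P P' o (l + 1) v v) g) → False := by
    by_cases h4 : n = 4
    · filter_upwards [hc0_cY H hTop hF1 hF hn4 hW (topC_meas n) (vAll_top hTop hF hE (hT h4)) hh
        (X := fun o l g => RwH H hTop hF h o g ∧ Xa hn P P' PB o l g ∧ Y o g) hMev o l]
        with g k _
      exact k
    · exact Eventually.of_forall fun g h5 => absurd h5 h4
  filter_upwards [h1, h2] with g k1 k2 R hX hY hlt
  have hl1 := hX.cfg.l1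
  have hln := hX.cfg.ln
  by_cases htie : ∃ i, 1 ≤ i ∧ i < n - 1 ∧ i ≠ l ∧
      deriv (fun a => LL hn P P' o (i + 1) a a) g = deriv (fun a => LL hn P P' o (l + 1) a a) g
  · -- a tie
    obtain ⟨i, i1, i2, i3, i4⟩ := htie
    have h4 : n = 4 := by omega
    refine k2 h4 R hX.cfg ⟨R, hX, hY⟩
      (cok_top (τ := fun i => deriv (fun v => LL hn P P' o (i + 1) v v) g) ?_ fun j j1 j2 j3 => ?_)
    · have := hX.two
      linarith
    · have htwo := hX.two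
      rcases j2.eq_or_lt with h5 | h5
      · subst h5
        show 2 ≤ deriv (fun v => LL hn P P' o (n - 1 + 1) v v) g ∧
          deriv (fun v => LL hn P P' o (n - 1 + 1) v v) g ≤ _
        rw [eP]
        exact ⟨htwo, hlt.le⟩
      · have h6 : j = i := by omega
        rw [h6]
        show 2 ≤ deriv (fun v => LL hn P P' o (i + 1) v v) g ∧
          deriv (fun v => LL hn P P' o (i + 1) v v) g ≤ _
        rw [i4]
        exact ⟨by linarith, le_rfl⟩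
  · push Not at htie
    refine k1 R hX.cfg ⟨R, hX, hY⟩ fun s h2 h3 i => ?_
    rcases Nat.eq_zero_or_pos (i : ℕ) with h5 | h5
    · rw [h2 i h5]
      exact hX.cfg.one.ne
    · obtain ⟨j, hj1, hj2, hj3⟩ := h3 i h5
      rw [hj3]
      show deriv (fun v => LL hn P P' o (ix l j + 1) v v) g ≠ _
      have h6 : 1 ≤ ix l j := by
        unfold ix
        split_ifs <;> omega
      have h7 : ix l j ≠ l := by
        unfold ix
        split_ifs <;> omega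
      rcases (ix_le (l := l) hj2).eq_or_lt with h8 | h8
      · rw [h8, eP]
        exact hlt.ne
      · exact htie _ h6 h8 h7

end Pool.SW

namespace Pool.Z4

open MeasureTheory Set Filter Topology
open Pool.Agent.H49.Ent Pool.Agent.H32.Dense Pool.STK Pool.KA Pool.KSAT Pool.K2S Pool.PB
open Pool.GEN Pool.S6C Pool.STAT Pool.CHT Pool.GRW Pool.ONE Pool.STA Pool.PKG Pool.ZFN Pool.TOP
open Pool.LBT (LSys ThrOf)
open Pool.LEV (Law Lv)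
open Pool.ALL (RateOf)
open Pool.STR (NumI StaAt ThinAt SteepAt MicW)
open Pool.EXW
open Pool.SW (Xa ExV TieO TopC hc0_aY)

variable {n : ℕ} {hn : 2 ≤ n} {S : PCl n} {P : ℝ → ℝ → ℝ} {r : ℝ → ℝ}
  {P' : ℕ → List (Fin n) × Fin n → ℝ → ℝ → ℝ} {Λ : Finset (Fin n) → Fin n → ℝ → ℝ → ℝ}
  {PB : ℕ → List (Fin n) × Fin n → ℝ → ℝ → ℝ}

/-- **The static chains of a package**, inside the induction. -/
theorem nore_ind6 {η : ℝ → ℝ} (hMic : LocE n η MicRt) (hi : ∀ k, 2 ≤ k → k < n → Ext0 k)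
    (hn : 2 ≤ n) (hn4 : n ≤ 4) (hZ : ∀ k, 1 ≤ k → k < n → FZX k) (hF : FZX (n - 1))
    (hTop : TopS n)
    {D : ℝ} (hD : 0 < D) (hD1 : D ≤ 1) (hη : 0 < η D) (hη1 : η D ≤ 1)
    (hE : Ext n ((1 + η D) * D)) (H : PkT hn S P r P' Λ PB)
    (hV : V0C H hTop hF ((1 - η D) * D))
    (hbig : ∀ o : Od n, ∀ᵐ g : ℝ, RwH H hTop hF ((1 - η D) * D) o g →
      1 < deriv (fun a => P a a) g → StaAt P g → One1 hn P P' o g → ∀ i, 1 ≤ i → i < n - 1 →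
      (∀ l < i, ThS hn P P' PB o l g) →
      2 < deriv (fun a => LL hn P P' o (i + 1) a a) g →
      SteepAt 2 (LvT hn PB o i) g → StaAt (LL hn P P' o (i + 1)) g)
    (hEV : ExV hn hTop hF) (hT : n = 4 → TieO hn hTop hF (TopC n)) {Y : Od n → ℝ → Prop}
    (hY : ∀ o : Od n, ∀ᵐ g : ℝ, g ∈ Gs P r P' Λ o → Y o g)
    (hMev : ∀ (o : Od n) (l : ℕ), 1 ≤ l → l < n - 1 → MevY hn S P r P' Λ o l
        (fun g => RwH H hTop hF ((1 - η D) * D) o g ∧ Xa hn P P' PB o l g ∧ Y o g)) :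
    NoRE H hTop hF ((1 - η D) * D) := by
  have h1 : (1 - η D) * D < 1 := by nlinarith
  have h0 : 0 ≤ (1 - η D) * D := mul_nonneg (by linarith) hD.le
  have hW := rw_all hZ fun k k1 k2 => rowN_of_ext (hi k k1 k2)
  refine nore_of5 H hTop hF h0 (mic_pk hMic hn hZ hD hD1 hE H.toPk) hV hbig
    (fun o l => ?_) fun o l => ?_
  · filter_upwards [cnt_mevY H hTop (hZ 1 le_rfl (by omega)) hF hW h0 h1
      (fun al g₀ hal hg₀ N S' P r h2 h3 h4 E =>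
        rgFull_locRt hMic hn hZ hD hD1 hη1 hE hal hg₀ h2 h3 h4 E) hMev o l, hY o]
      with g k1 k2 R hX
    exact k1 R.rwd.mem hX.cfg ⟨R, ⟨hX.sta, hX.two, hX.one1, hX.ths, hX.cfg⟩, k2 R.rwd.mem⟩
  · filter_upwards [hc0_aY H hTop (hZ 1 le_rfl (by omega)) hF hn4 hW hEV hT h0 hMev o l, hY o]
      with g k1 k2 R a1 a2 a3 a4 a5 a6
    exact k1 R ⟨a1, a2, a3, a4, a5⟩ (k2 R.rwd.mem) a6

end Pool.Z4
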