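import Pool.Agent.H77.Z4.Zin

/-!
# The bound of the shear exponent

`xs_le`: the exclusion of the labels of the target gives `w₁ + xs ≤ D_u (w₁)`, since there are trivial
labels in all families.
-/

set_option autoImplicit false

namespace Pool.Z4

open MeasureTheory Set Filter Topology
open Finset (range univ)
open Pool.Agent.H49.Ent Pool.Agent.H32.Dense Pool.STK Pool.KA Pool.KSAT Pool.K2S Pool.PB Pool.S6C
open Pool.GEN Pool.ONE Pool.EXW Pool.TOP Pool.ZCL Pool.ZLC Pool.ZFN Pool.ZCO Pool.PKG Pool.CHT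
open Pool.LBT (ThrOf)
open Pool.LEV (Law)
open Pool.LBN (Tch)

variable {m n : ℕ}

/-- A statement on the zooms holds for some long family. -/
theorem zpr_use {S : PCl m} {C₀ : ℝ} (hbs : TmC S C₀) {w₁ : ℝ} (hw0 : 0 < w₁) (hw1 : w₁ < 1)
    {e : Fin n → Fin m} {kap : Fin m} {cL : ℝ} {Req : Type*} {R : Req → DtP m}
    (hD : ZReq S w₁ kap cL R) {q : Req} {Φ : Stat n} (hZ : ZPr S w₁ e (R q) Φ) (J₁ : ℕ) :
    ∃ J' ≥ J₁, ∃ (G : Fam n J') (B : G.Ω → Prop), Φ J' G B := by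
  have h01 : 0 < 1 - w₁ := by linarith
  obtain ⟨ψ, hψ, τ₀, hτ₀, J₀, h⟩ := hZ
  obtain ⟨J₂, hJ₂⟩ := Pool.GEN.lin (J₁ : ℝ) h01
  obtain ⟨J, hJ, F, A, hA, κ, C, z, z', hc, -, hR⟩ := hD [q] τ₀ hτ₀ (max J₀ J₂)
  simp only [ge_iff_le, max_le_iff] at hJ
  have hl := isLaw_cond F.isLaw (hbs _ J F A hτ₀ hA).1
  have hJr : (0 : ℝ) ≤ J := Nat.cast_nonneg J
  have hWJ : ⌊w₁ * (J : ℝ)⌋₊ ≤ J := by
    refine Nat.floor_le_of_le ?_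
    have := mul_le_mul_of_nonneg_right hw1.le hJr
    linarith
  obtain ⟨J', hJ'⟩ : ∃ J', ⌊w₁ * (J : ℝ)⌋₊ + J' = J := ⟨J - ⌊w₁ * (J : ℝ)⌋₊, by omega⟩
  have hWr : (⌊w₁ * (J : ℝ)⌋₊ : ℝ) ≤ w₁ * J := Nat.floor_le (by positivity)
  have hsum : (⌊w₁ * (J : ℝ)⌋₊ : ℝ) + J' = J := by exact_mod_cast hJ'
  have hJ1 : J₁ ≤ J' := by
    have h2 := hJ₂ J hJ.2
    have h3 : (1 - w₁) * (J : ℝ) = J - w₁ * J := by ring
    have : (J₁ : ℝ) ≤ J' := by linarith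
    exact_mod_cast this
  refine ⟨J', hJ1, _, _, h J hJ.1 F A hA κ C z z' hc (hR q (List.mem_singleton.2 rfl)) hl J' hJ' A
    (fun _ h => h) ?_⟩
  have h2 : Real.exp (-(3 * ψ * J')) ≤ 1 := by
    rw [Real.exp_le_one_iff]
    have : 0 ≤ 3 * ψ * (J' : ℝ) := by positivity
    linarith
  calc _ ≤ 1 * Pe F.p A := mul_le_mul_of_nonneg_right h2 (Pe_nonneg F.isLaw A)
    _ = Pe F.p A := one_mul _

/-- **The bound of the shear exponent.** -/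
theorem xs_le {S : PCl m} {C₀ : ℝ} (hbs : TmC S C₀) {w₁ wb xs : ℝ} (hw0 : 0 < w₁)
    (hwb : w₁ < wb) (hwb1 : wb < 1) {e : Fin n → Fin m} {kap : Fin m} {cL : ℝ} {Req : Type*}
    {R : Req → DtP m} (hD : ZReq S w₁ kap cL R) {LU : ℝ → ℝ → ℝ} {D₁ : ℝ}
    (hc : ∀ ε : ℝ, 0 < ε → ∃ δ : ℝ, 0 < δ ∧ ∀ a w : ℝ, w₁ < w → w ≤ a → a < w₁ + δ →
      LU a w ≤ D₁ + ε) {Nd : Set (ℝ × ℝ)}
    (hNd : ∀ a w δ : ℝ, 0 < δ → w₁ < w → w ≤ a → a < wb → ∃ p ∈ Nd, a < p.1 ∧ p.1 < a + δ ∧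
      w < p.2 ∧ p.2 < w + δ ∧ p.2 ≤ p.1) {lt : Fin n}
    (hΦ₁ : ∀ p ∈ Nd, ∀ a w : ℚ, 0 < w → w ≤ a → rho w₁ a < p.1 → rho w₁ w < p.2 →
      ∀ (K : ℕ) (U h : ℝ), 0 ≤ U → 0 < h → nmz w₁ xs (LU p.1 p.2) ≤ U + h / 4 →
      ∃ q : Req, ZPr S w₁ e (R q) (fun J G B =>
        ¬ (tgs lt).T () K ⌊(a : ℝ) * J⌋₊ ⌊(w : ℝ) * J⌋₊ ⌊(U + h) * J⌋₊ J G B)) :
    w₁ + xs ≤ D₁ := by
  by_contra hcon
  push Not at hcon
  have h01 : 0 < 1 - w₁ := by linarith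
  obtain ⟨δ, hδ, h1⟩ := hc (w₁ + xs - D₁) (by linarith)
  obtain ⟨t, ht⟩ : ∃ t, t = min (δ / 3) ((wb - w₁) / 3) := ⟨_, rfl⟩
  have ht0 : 0 < t := by rw [ht]; exact lt_min (by linarith) (by linarith)
  have ht1 : t ≤ δ / 3 := by rw [ht]; exact min_le_left _ _
  have ht2 : t ≤ (wb - w₁) / 3 := by rw [ht]; exact min_le_right _ _
  obtain ⟨p, hp, p1, p2, p3, -, p5⟩ := hNd (w₁ + t) (w₁ + t) t ht0 (by linarith) le_rfl
    (by linarith)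
  have h2 : LU p.1 p.2 ≤ w₁ + xs := by
    have h4 := h1 p.1 p.2 (by linarith) p5 (by linarith)
    linarith
  obtain ⟨v, hv1, hv2⟩ := exists_rat_btwn (show (0 : ℝ) < t / (1 - w₁) by positivity)
  rw [lt_div_iff₀ h01] at hv2
  have hv0 : (0 : ℚ) < v := by exact_mod_cast hv1
  have hnm : nmz w₁ xs (LU p.1 p.2) ≤ 0 + (v : ℝ) / 2 / 4 := by
    have h3 : nmz w₁ xs (LU p.1 p.2) ≤ 0 := by
      unfold nmz
      exact div_nonpos_of_nonpos_of_nonneg (by linarith) h01.le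
    have h4 : (0 : ℝ) ≤ v / 2 / 4 := by positivity
    linarith
  obtain ⟨q, hq⟩ := hΦ₁ p hp v v hv0 le_rfl (by unfold rho; linarith) (by unfold rho; linarith) 0
    0 (v / 2) le_rfl (by linarith) hnm
  obtain ⟨J₁, hJ₁⟩ := exists_nat_ge (4 / (v : ℝ))
  obtain ⟨J', hJ', G, B, hno⟩ := zpr_use hbs hw0 (by linarith) hD hq J₁
  have hJr : (4 / (v : ℝ)) ≤ J' := hJ₁.trans (by exact_mod_cast hJ')
  rw [div_le_iff₀ hv1] at hJr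
  have hv1' : (v : ℝ) ≤ 1 := by
    have : (v : ℝ) * (1 - w₁) < 1 - w₁ := by
      have h5 : t < 1 - w₁ := by linarith
      linarith
    by_contra h6
    push Not at h6
    have := mul_lt_mul_of_pos_right h6 h01
    linarith
  have hJ0 : (0 : ℝ) ≤ J' := Nat.cast_nonneg J'
  refine hno ⟨[], List.nodup_nil, List.not_mem_nil, Tch.trivial ?_ ?_ le_rfl B⟩
  · have h5 : ((⌊(0 + (v : ℝ) / 2) * (J' : ℝ)⌋₊ : ℕ) : ℝ) ≤ (0 + (v : ℝ) / 2) * J' :=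
      Nat.floor_le (by positivity)
    have h6 := Nat.lt_floor_add_one ((v : ℝ) * (J' : ℝ))
    have h7 : ((⌊(0 + (v : ℝ) / 2) * (J' : ℝ)⌋₊ + 1 : ℕ) : ℝ) < ((⌊(v : ℝ) * (J' : ℝ)⌋₊ + 1 : ℕ) : ℝ) := by
      push_cast
      linarith
    have h8 : ⌊(0 + (v : ℝ) / 2) * (J' : ℝ)⌋₊ + 1 < ⌊(v : ℝ) * (J' : ℝ)⌋₊ + 1 := by exact_mod_cast h7
    omega
  · refine Nat.floor_le_of_le ?_
    have := mul_le_mul_of_nonneg_right hv1' hJ0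
    linarith

end Pool.Z4
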